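import Mathlib

/-!
# MP_063734_an, P² theorem, block VIII (rows p2:U..): unfoldedness of the sheets `{P/Q = ζ}` of a pair of holomorphic functions near a disc. No dynamics

RULES. Row `p2:UXXX` is a file `Pool/Agent/<seat>/P2/UXXX.lean`, `import Pool.Agent.helper56.P2.SpecU`, `set_option autoImplicit false`, `namespace Pool.Agent.P2U`, the open lines of this file,
`theorem UXXX (hYYY : UYYY_stmt) ... : UXXX_stmt`; the EXACT line is in the lock note (other rows only as hypotheses; unused hypotheses may stay). Auxiliary lemmas have the prefix `UXXX_`. No double quotes, no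
`convert`, `congr!`, `native_decide`. The docstring contains a complete proof. Doubts or a wrong statement: helper56 at once.

NOTATION. Coordinates `(x, v)` of `ℂ²` (second coordinate also called `w`), `TB a r = {|x| < a, |v| < r}`. `P, Q` analytic without common zeros; the SHEETS are the curves `P = ζ Q`. `cx = Q P_x - P Q_x`,
`cv = Q P_v - P Q_v`, `om = (|P|²+|Q|²)^(-2)`; `ef = (cv, -cx)` is tangent to the sheets; `Lv A p ξ` is the Levi form of `A`; `nn = cx e(cv) - cv e(cx)`, `e(f) = f'(ef)`. `Gd` = Gauss energy density of the sheets,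
`Fd σ` = 1/4 of the density of the average over `|b| < σ` of the FOLDS (points of the sheets with `cx + b cv = 0`), `PP σ = log (|c|²/(|cx|²+σ²|cv|²))`. `gz` = density of the spherical measure in `ζ`.

PLAN. (A) Integration by parts `∫ Lv(A)(e) B om = ∫ A Lv(B)(e) om` with `A = log(|c|²) - log(|cx|²+σ²|cv|²)` and `B` = cut-off in `x` times logarithmic cut-off in `v` (1 for `|v| < s`, 0 for `|v| > t`): energy inequality UR1. (B) Area formulas.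
(C) Sheets: maximal branches over discs of the `w`-axis, obstacles are folds (at most two branches end at a simple fold) or exits through `|x| = 1` (`L^p` energy). (D) choice of a shear `b`, `|b| < s²`: UUNF.
-/

set_option autoImplicit false
set_option linter.unusedVariables false

namespace Pool.Agent.P2U

open MeasureTheory Set Filter Topology Metric Complex
open scoped ENNReal ContDiff

noncomputable section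

abbrev TB (a r : ℝ) : Set (ℂ × ℂ) := {p | ‖p.1‖ < a ∧ ‖p.2‖ < r}

def dx (f : ℂ × ℂ → ℂ) (p : ℂ × ℂ) : ℂ := fderiv ℂ f p (1, 0)
def dv (f : ℂ × ℂ → ℂ) (p : ℂ × ℂ) : ℂ := fderiv ℂ f p (0, 1)
def cx (P Q : ℂ × ℂ → ℂ) (p : ℂ × ℂ) : ℂ := Q p * dx P p - P p * dx Q p
def cv (P Q : ℂ × ℂ → ℂ) (p : ℂ × ℂ) : ℂ := Q p * dv P p - P p * dv Q p

/-- the vector field tangent to the sheets -/
def ef (P Q : ℂ × ℂ → ℂ) (p : ℂ × ℂ) : ℂ × ℂ := (cv P Q p, - cx P Q p)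

def om (P Q : ℂ × ℂ → ℂ) (p : ℂ × ℂ) : ℝ := ((‖P p‖ ^ 2 + ‖Q p‖ ^ 2) ^ 2)⁻¹

def nn (P Q : ℂ × ℂ → ℂ) (p : ℂ × ℂ) : ℂ :=
  cx P Q p * fderiv ℂ (cv P Q) p (ef P Q p) - cv P Q p * fderiv ℂ (cx P Q) p (ef P Q p)

/-- the Gauss energy density of the sheets -/
def Gd (P Q : ℂ × ℂ → ℂ) (p : ℂ × ℂ) : ℝ := ‖nn P Q p‖ ^ 2 / (‖cx P Q p‖ ^ 2 + ‖cv P Q p‖ ^ 2) ^ 2

def Fd (P Q : ℂ × ℂ → ℂ) (σ : ℝ) (p : ℂ × ℂ) : ℝ :=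
  σ ^ 2 * ‖nn P Q p‖ ^ 2 / (‖cx P Q p‖ ^ 2 + σ ^ 2 * ‖cv P Q p‖ ^ 2) ^ 2

def PP (P Q : ℂ × ℂ → ℂ) (σ : ℝ) (p : ℂ × ℂ) : ℝ :=
  Real.log ((‖cx P Q p‖ ^ 2 + ‖cv P Q p‖ ^ 2) / (‖cx P Q p‖ ^ 2 + σ ^ 2 * ‖cv P Q p‖ ^ 2))

/-- the Levi form -/
def Lv (A : ℂ × ℂ → ℝ) (p ξ : ℂ × ℂ) : ℝ :=
  (fderiv ℝ (fderiv ℝ A) p ξ ξ + fderiv ℝ (fderiv ℝ A) p (I • ξ) (I • ξ)) / 4

/-- one quarter of the Laplacian -/
def Lz (A : ℂ → ℝ) (z : ℂ) : ℝ := (fderiv ℝ (fderiv ℝ A) z 1 1 + fderiv ℝ (fderiv ℝ A) z I I) / 4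

structure Hol (P Q : ℂ × ℂ → ℂ) (a r : ℝ) : Prop where
  hP : AnalyticOnNhd ℂ P (TB a r)
  hQ : AnalyticOnNhd ℂ Q (TB a r)
  ne : ∀ p ∈ TB a r, P p ≠ 0 ∨ Q p ≠ 0

/-- the data: `(1/2) log(|P|²+|Q|²)` is within `C0` of `D u`, `u` Hoelder continuous -/
structure Dat (P Q : ℂ × ℂ → ℂ) (u : ℂ × ℂ → ℝ) (D C0 α τ : ℝ) : Prop where
  hol : Hol P Q 4 τ
  hoe : ∀ p ∈ TB 4 τ, ∀ p' ∈ TB 4 τ, |u p - u p'| ≤ C0 * ‖p - p'‖ ^ α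
  app : ∀ p ∈ TB 4 τ, |Real.log (‖P p‖ ^ 2 + ‖Q p‖ ^ 2) / 2 - D * u p| ≤ C0

/-- the shear: `w = v - b x` -/
def sh (b : ℂ) (f : ℂ × ℂ → ℂ) (p : ℂ × ℂ) : ℂ := f (p.1, p.2 + b * p.1)

/-- `X` is a branch over the disc of radius `r` of the sheet through `(x0, 0)` -/
structure Br (P Q : ℂ × ℂ → ℂ) (r : ℝ) (x0 : ℂ) (X : ℂ → ℂ) : Prop where
  an : DifferentiableOn ℂ X (ball 0 r)
  ini : X 0 = x0
  lt : ∀ w ∈ ball (0 : ℂ) r, ‖X w‖ < 1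
  eq : ∀ w ∈ ball (0 : ℂ) r, P (X w, w) * Q (x0, 0) = Q (X w, w) * P (x0, 0)

/-- `(x0, 0)` is `r`-unfolded -/
def Unf (P Q : ℂ × ℂ → ℂ) (r : ℝ) (x0 : ℂ) : Prop := ∃ X, Br P Q r x0 X

/-- the points which are not `r`-unfolded -/
def NN (P Q : ℂ × ℂ → ℂ) (r : ℝ) : Set ℂ := {x | ‖x‖ < 1 / 2 ∧ cx P Q (x, 0) ≠ 0 ∧ ¬ Unf P Q r x}

/-- spherical density -/
def gz (ζ : ℂ) : ℝ≥0∞ := ENNReal.ofReal (((1 + ‖ζ‖ ^ 2) ^ 2)⁻¹)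

/-- number of elements -/
def cnt {α : Type} (S : Set α) : ℝ≥0∞ := ((S.encard : ℕ∞) : ℝ≥0∞)

/-- the roots over `w` -/
abbrev Rt (P Q : ℂ × ℂ → ℂ) (ζ w : ℂ) : Type := {x : ℂ // ‖x‖ < 1 ∧ P (x, w) = ζ * Q (x, w) ∧ cx P Q (x, w) ≠ 0}

/-- `ζ` is a regular value, all folds are simple -/
def Rg (P Q : ℂ × ℂ → ℂ) (r : ℝ) (ζ : ℂ) : Prop := ∀ q ∈ TB 1 r, P q = ζ * Q q →
  (cx P Q q ≠ 0 ∨ cv P Q q ≠ 0) ∧ (cx P Q q = 0 → nn P Q q ≠ 0)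

/-- the graph of `X` over the disc of radius `R` accumulates at `(x1, w1)` -/
def Lim (X : ℂ → ℂ) (R : ℝ) (w1 x1 : ℂ) : Prop := ∃ w : ℕ → ℂ, (∀ k, ‖w k‖ < R) ∧ Tendsto w atTop (𝓝 w1) ∧
  Tendsto (fun k => X (w k)) atTop (𝓝 x1)

/-! ### the test functions -/

def XS (R : ℝ) (x : ℂ) : ℝ := (max 0 (1 - ‖x‖ ^ 2 / R ^ 2)) ^ 3

def kk (r : ℝ) : ℝ := if r < 1 then ((r - 1) - (r - 1) ^ 2 / 2) / 2 else Real.log r / 2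

def HH (s t : ℝ) (v : ℂ) : ℝ := 1 + (kk (‖v‖ ^ 2 / t ^ 2) - kk (‖v‖ ^ 2 / s ^ 2)) / Real.log (t / s)

def BB (s t : ℝ) (p : ℂ × ℂ) : ℝ := XS 2 p.1 * HH s t p.2

/-! ## Block A. Calculus and the energy inequality -/

/-- **UDIV** (medium). The fields `om • ef` and `om • (I • ef)` are divergence free. Let `Z = φ om E`, `E = ef` or `I • ef` (`C¹` with compact support). `∫ tr(DZ) = 0` (real trace on `ℂ × ℂ = ℝ⁴`: the integral of a directional derivative of a `C¹` function with compact support is 0,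
`integral_bilinear_hasLineDerivAt_right_eq_neg_left_of_integrable` or Fubini; compare `Pool/Agent/*/MLG/IBP.lean`). `tr(DZ) = om Dφ(E) + φ (Dom(E) + om tr(DE))`. Let `J = Q_x P_v - P_x Q_v`. `E = ef` is holomorphic: real trace of `DE` = `2 Re (∂_x cv - ∂_v cx) = 4 Re J` (second derivatives commute),
`P'(ef) = J P`, `Q'(ef) = J Q`, so with `S = |P|²+|Q|²`: `DS(ef) = 2 Re J S`, `Dom(ef) = - 4 Re J om`. For `I • ef` replace `J` by `i J`. -/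
def UDIV_stmt : Prop := ∀ (P Q : ℂ × ℂ → ℂ) (τ : ℝ), Hol P Q 4 τ → ∀ φ : ℂ × ℂ → ℝ, ContDiff ℝ 1 φ → HasCompactSupport φ → tsupport φ ⊆ TB 4 τ →
  ∫ p, fderiv ℝ φ p (ef P Q p) * om P Q p = 0 ∧ ∫ p, fderiv ℝ φ p (I • ef P Q p) * om P Q p = 0

/-- **UIBP** (medium; from UDIV). For a `C²` function `A` let `E1 A (p) = DA(p)(ef p)`, `E2 A (p) = DA(p)(i ef p)`. `E1 (E1 A) + E2 (E2 A) = 4 Lv A (ef)`: `E1 E1 A = D²A(ef, ef) + DA(ef'(ef))`, `E2 E2 A = D²A(i ef, i ef) + DA(i ef'(i ef))` and `i ef'(i ef) = - ef'(ef)` (`ef` is holomorphic). UDIV for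
`φ = (Ej A) B`: `∫ (Ej Ej A) B om = - ∫ (Ej A)(Ej B) om`; UDIV for `φ = A (Ej B)`: `∫ (Ej A)(Ej B) om = - ∫ A (Ej Ej B) om`. (`A` only near the support of `B`: multiply by a cut-off or check that `(Ej A) B` is `C¹`, it is 0 outside of the support of `B`.) -/
def UIBP_stmt : Prop := ∀ (P Q : ℂ × ℂ → ℂ) (τ : ℝ), Hol P Q 4 τ → ∀ A B : ℂ × ℂ → ℝ, ContDiffOn ℝ 2 A (TB 4 τ) → ContDiff ℝ 2 B → HasCompactSupport B → tsupport B ⊆ TB 4 τ →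
  ∫ p, Lv A p (ef P Q p) * B p * om P Q p = ∫ p, A p * Lv B p (ef P Q p) * om P Q p

/-- **ULEV** (short to medium). Levi form of a logarithm. `S = |f|²+a|g|²+ε`: `D²(log S)(ξ, ξ) = D²S(ξ, ξ)/S - (DS ξ)²/S²`; `DS ξ = 2 Re(f̄ f'ξ + a ḡ g'ξ)`, `D²S(ξ, ξ) = 2|f'ξ|² + 2a|g'ξ|² + 2 Re(f̄ f''(ξ,ξ) + a ḡ g''(ξ,ξ))`. Add the same for `iξ`: `f''(iξ, iξ) = - f''(ξ, ξ)` cancels,
`(DS ξ)² + (DS iξ)² = 4 |f̄ f'ξ + a ḡ g'ξ|²`. So `Lv = ((|f'ξ|²+a|g'ξ|²) S - |f̄ f'ξ + a ḡ g'ξ|²)/S²`, expand. (Or restrict to the complex line: functions of one variable `z ↦ f (p + z ξ)`.) -/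
def ULEV_stmt : Prop := (∀ (f g : ℂ × ℂ → ℂ) (a ε : ℝ) (p ξ : ℂ × ℂ), AnalyticAt ℂ f p → AnalyticAt ℂ g p → 0 ≤ a → 0 ≤ ε → 0 < ‖f p‖ ^ 2 + a * ‖g p‖ ^ 2 + ε →
    Lv (fun q => Real.log (‖f q‖ ^ 2 + a * ‖g q‖ ^ 2 + ε)) p ξ =
      (a * ‖f p * fderiv ℂ g p ξ - g p * fderiv ℂ f p ξ‖ ^ 2 + ε * (‖fderiv ℂ f p ξ‖ ^ 2 + a * ‖fderiv ℂ g p ξ‖ ^ 2)) / (‖f p‖ ^ 2 + a * ‖g p‖ ^ 2 + ε) ^ 2) ∧
  ∀ (f g : ℂ → ℂ) (z : ℂ), AnalyticAt ℂ f z → AnalyticAt ℂ g z → (f z ≠ 0 ∨ g z ≠ 0) →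
    Lz (fun q => Real.log (‖f q‖ ^ 2 + ‖g q‖ ^ 2)) z = ‖g z * deriv f z - f z * deriv g z‖ ^ 2 / (‖f z‖ ^ 2 + ‖g z‖ ^ 2) ^ 2

/-- **UGRN** (short to medium; from ULEV). One variable. ULEV (2), Green: `∫ φ Lz(V) = ∫ V Lz(φ)` for `V = log(|f|²+|g|²) - 2c` (`C²` near the support of `φ`; integrate by parts twice in the directions `1` and `I`). The factor: `‖..‖²/(..)² = Lz(log(|f|²+|g|²))`. -/
def UGRN_stmt : Prop := ∀ (f g : ℂ → ℂ) (R : ℝ), AnalyticOnNhd ℂ f (ball 0 R) → AnalyticOnNhd ℂ g (ball 0 R) → (∀ z ∈ ball (0 : ℂ) R, f z ≠ 0 ∨ g z ≠ 0) →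
  ∀ φ : ℂ → ℝ, ContDiff ℝ 2 φ → HasCompactSupport φ → tsupport φ ⊆ ball 0 R → ∀ c : ℝ,
  ∫ z, φ z * (‖g z * deriv f z - f z * deriv g z‖ ^ 2 / (‖f z‖ ^ 2 + ‖g z‖ ^ 2) ^ 2) = 2 * ∫ z, (Real.log (‖f z‖ ^ 2 + ‖g z‖ ^ 2) / 2 - c) * Lz φ z

/-- **UTSA** (short to medium). The cut-off `XS R x = g(|x|²)`, `g(y) = ((1 - y/R²)^+)³`, which is `C²` in `y` with `g' = -(3/R²)((1 - y/R²)^+)²`, `g'' = (6/R⁴)(1 - y/R²)^+`. `D XS(x)(ξ) = 2 g' Re(x̄ ξ)`, `Lz XS = g' + y g''`, `y = |x|²`. -/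
def UTSA_stmt : Prop := ∀ R : ℝ, 0 < R → ContDiff ℝ 2 (XS R) ∧ (∀ x, 0 ≤ XS R x ∧ XS R x ≤ 1) ∧ (∀ x, R ≤ ‖x‖ → XS R x = 0 ∧ fderiv ℝ (XS R) x = 0 ∧ Lz (XS R) x = 0) ∧ (∀ x, ‖x‖ ≤ 2 / 3 * R → 1 / 8 ≤ XS R x) ∧
  (∀ x, ‖x‖ ≤ R / 2 → 2 / 5 ≤ XS R x) ∧ (∀ x ξ, |fderiv ℝ (XS R) x ξ| ≤ 6 / R * ‖ξ‖) ∧ ∀ x, |Lz (XS R) x| ≤ 6 / R ^ 2

/-- **UTSB** (medium). The logarithmic cut-off. `kk` is `C²` (at `r = 1` the values and the first two derivatives agree), `kk' (r) = (2 - r)/2` for `r < 1`, `1/(2r)` for `r ≥ 1`, `m(r) = r kk'(r)` is increasing from 0 to 1/2 and `m(r) ≤ r`, `m' = (1 - r)^+`. With `y = |v|²`: `Lz (kk(|v|²/a²)) = m'(y/a²)/a²`;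
`y dHH/dy = (m(y/t²) - m(y/s²))/L ∈ [- min(1/2, y/s²)/L, 0]`, so `HH` is decreasing, `HH(0) = 1`, `HH = 0` for `|v| ≥ t`, and `|D HH(v)(ξ)| ≤ 2 |v| |dHH/dy| |ξ| ≤ 2 min(1/(2|v|), |v|/s²) |ξ|/L`. For `|v| ≤ s`: `kk(y/s²) ≤ 0`, `kk ≥ -3/4`, `L ≥ log 4`. -/
def UTSB_stmt : Prop := ∀ s t : ℝ, 0 < s → s ≤ t ^ 2 → 0 < t → t ≤ 1 / 4 → ContDiff ℝ 2 (HH s t) ∧ (∀ v, 0 ≤ HH s t v ∧ HH s t v ≤ 1) ∧
  (∀ v, t ≤ ‖v‖ → HH s t v = 0 ∧ fderiv ℝ (HH s t) v = 0) ∧ (∀ v, ‖v‖ ≤ s → 2 / 5 ≤ HH s t v) ∧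
  (∀ v ξ, |fderiv ℝ (HH s t) v ξ| ≤ 2 * ‖ξ‖ / (Real.log (t / s) * max ‖v‖ s)) ∧
  ∀ v, Lz (HH s t) v = (max 0 (1 - ‖v‖ ^ 2 / t ^ 2) / t ^ 2 - max 0 (1 - ‖v‖ ^ 2 / s ^ 2) / s ^ 2) / Real.log (t / s)

/-- **UTST** (short to medium; from UTSA, UTSB). Product: `Lv(χ ⊗ H)(ξ) = |ξ1|² Lz(χ) H + (Dχ(ξ1) DH(ξ2) + Dχ(iξ1) DH(iξ2))/2 + |ξ2|² χ Lz(H)` (`D²χ(ξ1, ξ1) + D²χ(iξ1, iξ1) = 4 |ξ1|² Lz χ` for every `ξ1`). -/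
def UTST_stmt : Prop := ∀ s t : ℝ, 0 < s → s ≤ t ^ 2 → 0 < t → t ≤ 1 / 4 → ContDiff ℝ 2 (BB s t) ∧ HasCompactSupport (BB s t) ∧ tsupport (BB s t) ⊆ {p | ‖p.1‖ ≤ 2 ∧ ‖p.2‖ ≤ t} ∧ (∀ p, 0 ≤ BB s t p ∧ BB s t p ≤ 1) ∧
  (∀ p ∈ TB 1 s, 1 / 8 ≤ BB s t p) ∧ (∀ p ∉ TB 2 t, BB s t p = 0 ∧ ∀ ξ, Lv (BB s t) p ξ = 0) ∧
  ∀ p ∈ TB 2 t, ∀ ξ, - Lv (BB s t) p ξ ≤ 2 * ‖ξ.1‖ ^ 2 * HH s t p.2 + 6 * ‖ξ.1‖ * ‖ξ.2‖ / (Real.log (t / s) * max ‖p.2‖ s) +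
    (if ‖p.2‖ < s then ‖ξ.2‖ ^ 2 / (Real.log (t / s) * s ^ 2) else 0)

/-- **UHX** (short to medium; from UGRN, UTSA). Crossings of a slice. UGRN for `f = P(·, v)`, `g = Q(·, v)`, `R = 4`, `φ = XS 3`, `c = D u(0, v)`: `|log(..)/2 - c| ≤ C0 + D C0 3^α` on the support, `|Lz| ≤ 6/9`. (`cx P Q (x, v) = g f' - f g'`.) -/
def UHX_stmt : Prop := ∀ C0 α : ℝ, 1 ≤ C0 → 0 < α → α ≤ 1 → ∃ C : ℝ, 0 < C ∧ ∀ (P Q : ℂ × ℂ → ℂ) (u : ℂ × ℂ → ℝ) (D τ : ℝ), Dat P Q u D C0 α τ → 1 ≤ D → ∀ v : ℂ, ‖v‖ < τ →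
  ∫⁻ x in ball (0 : ℂ) 2, ENNReal.ofReal (‖cx P Q (x, v)‖ ^ 2 * om P Q (x, v)) ≤ ENNReal.ofReal (C * D)

/-- **UHV** (medium; from UGRN, UTSA). Vertical variation. For every `x`, `|x| < 2`: UGRN for `P(x, ·)`, `Q(x, ·)`, `R = τ`, `φ = XS (3ρ/2)`, `c = D u(x, 0)`: `|log(..)/2 - c| ≤ C0 + D C0 (3ρ/2)^α`, `|Lz| ≤ 6/(3ρ/2)²`. Integrate over `x` (Tonelli; `TB 2 ρ` is a product). -/
def UHV_stmt : Prop := ∀ C0 α : ℝ, 1 ≤ C0 → 0 < α → α ≤ 1 → ∃ C : ℝ, 0 < C ∧ ∀ (P Q : ℂ × ℂ → ℂ) (u : ℂ × ℂ → ℝ) (D τ : ℝ), Dat P Q u D C0 α τ → 1 ≤ D → ∀ ρ : ℝ, 0 < ρ → ρ ≤ τ / 2 →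
  ∫⁻ p in TB 2 ρ, ENNReal.ofReal (‖cv P Q p‖ ^ 2 * om P Q p) ≤ ENNReal.ofReal (C * (D * ρ ^ α + 1))

/-- **UHH** (short to medium; from UGRN, UTSB). As UHV with `φ = HH s t`: `|Lz HH| ≤ (1_{|v|<t}/t² + 1_{|v|<s}/s²)/L`; `2 ∫ |U - c| |Lz| ≤ (2π/L)(2 C0 + D C0 t^α + D C0 s^α)`, and `1 ≤ D s ≤ D t^α`. -/
def UHH_stmt : Prop := ∀ C0 α : ℝ, 1 ≤ C0 → 0 < α → α ≤ 1 → ∃ C : ℝ, 0 < C ∧ ∀ (P Q : ℂ × ℂ → ℂ) (u : ℂ × ℂ → ℝ) (D τ : ℝ), Dat P Q u D C0 α τ → τ ≤ 1 → ∀ s t : ℝ, 0 < s → s ≤ t ^ 2 → 0 < t → t ≤ τ / 4 → 1 / s ≤ D →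
  ∫⁻ p in TB 2 t, ENNReal.ofReal (HH s t p.2 * ‖cv P Q p‖ ^ 2 * om P Q p) ≤ ENNReal.ofReal (C * D * t ^ α / Real.log (t / s))

/-- **ULAY** (short to medium; from UHV). Layer cake: for `|v| < t`, `β = α/2`: `max(|v|, s)^(-β) = t^(-β) + β ∫_s^t ρ^(-β-1) 1[|v| < ρ] dρ` (both cases `|v| ≤ s`, `|v| > s`). Tonelli and UHV: `M(ρ) ≤ C (D ρ^α + 1) ≤ 2 C D ρ^α` for `ρ ≥ s` (`1 ≤ D s ≤ D ρ^α`): the integral is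
`≤ 2 C D (t^(α-β) + β ∫_0^t ρ^(α-β-1) dρ)`. -/
def ULAY_stmt : Prop := ∀ C0 α : ℝ, 1 ≤ C0 → 0 < α → α ≤ 1 → ∃ C : ℝ, 0 < C ∧ ∀ (P Q : ℂ × ℂ → ℂ) (u : ℂ × ℂ → ℝ) (D τ : ℝ), Dat P Q u D C0 α τ → τ ≤ 1 → ∀ s t : ℝ, 0 < s → s ≤ t ^ 2 → 0 < t → t ≤ τ / 4 → 1 / s ≤ D →
  ∫⁻ p in TB 2 t, ENNReal.ofReal ((max ‖p.2‖ s) ^ (-(α / 2)) * ‖cv P Q p‖ ^ 2 * om P Q p) ≤ ENNReal.ofReal (C * D * t ^ (α / 2))

/-- **USID** (short to medium; from ULAY, UHX). `|cv||cx|/m ≤ (m^(-α/2)|cv|² + m^(α/2-2)|cx|²)/2`, `m = max(|v|, s)`. Second part: Tonelli, UHX for every `v`, `m^(α/2-2) ≤ |v|^(α/2-2)` and `∫_{|v|<t} |v|^(α/2-2) = (4π/α) t^(α/2)` (polar coordinates; or sum over the rings `2^(-k-1) t ≤ |v| < 2^(-k) t`). -/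
def USID_stmt : Prop := ∀ C0 α : ℝ, 1 ≤ C0 → 0 < α → α ≤ 1 → ∃ C : ℝ, 0 < C ∧ ∀ (P Q : ℂ × ℂ → ℂ) (u : ℂ × ℂ → ℝ) (D τ : ℝ), Dat P Q u D C0 α τ → τ ≤ 1 → ∀ s t : ℝ, 0 < s → s ≤ t ^ 2 → 0 < t → t ≤ τ / 4 → 1 / s ≤ D →
  ∫⁻ p in TB 2 t, ENNReal.ofReal (‖cv P Q p‖ * ‖cx P Q p‖ / max ‖p.2‖ s * om P Q p) ≤ ENNReal.ofReal (C * D * t ^ (α / 2))

/-- **UR1E** (medium; from UIBP, ULEV, UTST, UHH, USID). Let `σ = s²`, `A1 = log(|cx|²+|cv|²+ε)`, `Aσ = log(|cx|²+σ²|cv|²+ε)`, `Pε = A1 - Aσ ∈ [0, 2 log(1/σ)] = [0, 4 log(1/s)]`, and `Pε |cx|² ≤ PP |cx|²`. UIBP for both with `B = BB s t` (`tsupport B ⊆ TB 4 τ`): `∫ Lv(Aσ) B om = ∫ Lv(A1) B om - ∫ Pε Lv(B) om`. ULEV for `f = cx`, `g = cv`: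
`Lv(Aσ)(ef) ≥ σ²|nn|²/(..+ε)²`, `Lv(A1)(ef)` is the integrand on the right. `-∫ Pε Lv(B) om ≤` (UTST with `ξ = ef`, `|ξ1| = |cv|`, `|ξ2| = |cx|`) `4 log(1/s) (2 ∫ HH |cv|² om + (6/L) ∫ |cv||cx|/max om) + (1/(L s²)) ∫_{TB 2 s} PP |cx|² om`; `L = log(t/s) ≥ log(1/s)/2` because `s ≤ t²`; UHH, USID;
`t^α ≤ t^(α/2)`. All integrands are continuous with compact support (or bounded measurable on `TB 2 t`), so real and lower integrals agree. -/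
def UR1E_stmt : Prop := ∀ C0 α : ℝ, 1 ≤ C0 → 0 < α → α ≤ 1 → ∃ C : ℝ, 0 < C ∧ ∀ (P Q : ℂ × ℂ → ℂ) (u : ℂ × ℂ → ℝ) (D τ : ℝ), Dat P Q u D C0 α τ → τ ≤ 1 → ∀ s t : ℝ, 0 < s → s ≤ t ^ 2 → 0 < t → t ≤ τ / 4 → 1 / s ≤ D →
  ∀ P0 : ℝ, 0 ≤ P0 → ∫⁻ p in TB 2 s, ENNReal.ofReal (PP P Q (s ^ 2) p * ‖cx P Q p‖ ^ 2 * om P Q p) ≤ ENNReal.ofReal (D * s ^ 2 * P0) → ∀ ε : ℝ, 0 < ε →
  ∫ p, BB s t p * (s ^ 4 * ‖nn P Q p‖ ^ 2 / (‖cx P Q p‖ ^ 2 + s ^ 4 * ‖cv P Q p‖ ^ 2 + ε) ^ 2) * om P Q p ≤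
    ∫ p, BB s t p * ((‖nn P Q p‖ ^ 2 + ε * (‖fderiv ℂ (cx P Q) p (ef P Q p)‖ ^ 2 + ‖fderiv ℂ (cv P Q) p (ef P Q p)‖ ^ 2)) / (‖cx P Q p‖ ^ 2 + ‖cv P Q p‖ ^ 2 + ε) ^ 2) * om P Q p +
    D * (P0 / Real.log (t / s) + C * t ^ (α / 2))

/-- **UR1** (medium; from UR1E, UTST). `ε = 1/(k+1) → 0`. Left side: the integrands increase to `BB Fd om` (Fatou or monotone convergence; where `cx = cv = 0` also `nn = 0`), `BB ≥ 1/8` on `TB 1 s`. Right side: `|nn|²/(|c|²+ε)² ≤ Gd`, `BB ≤ 1`, support in `TB 2 t`; the rest is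
`≤ ε M² |c|²/(|c|²+ε)² ≤ M²/4`, `M` a bound for the derivatives of `cx`, `cv` on `{|x| ≤ 2, |v| ≤ t}` (`‖ef‖² ≤ |cx|²+|cv|²`), and tends to 0 pointwise: dominated convergence. -/
def UR1_stmt : Prop := ∀ C0 α : ℝ, 1 ≤ C0 → 0 < α → α ≤ 1 → ∃ C : ℝ, 0 < C ∧ ∀ (P Q : ℂ × ℂ → ℂ) (u : ℂ × ℂ → ℝ) (D τ : ℝ), Dat P Q u D C0 α τ → τ ≤ 1 → ∀ s t : ℝ, 0 < s → s ≤ t ^ 2 → 0 < t → t ≤ τ / 4 → 1 / s ≤ D →
  ∀ E0 P0 : ℝ, 0 ≤ E0 → 0 ≤ P0 → ∫⁻ p in TB 2 t, ENNReal.ofReal (Gd P Q p * om P Q p) ≤ ENNReal.ofReal (D * E0) →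
  ∫⁻ p in TB 2 s, ENNReal.ofReal (PP P Q (s ^ 2) p * ‖cx P Q p‖ ^ 2 * om P Q p) ≤ ENNReal.ofReal (D * s ^ 2 * P0) →
  ∫⁻ p in TB 1 s, ENNReal.ofReal (Fd P Q (s ^ 2) p * om P Q p) ≤ ENNReal.ofReal (8 * (D * (E0 + P0 / Real.log (t / s) + C * t ^ (α / 2))))

/-! ## Block B. Area formulas, regular values -/

/-- **UAFW** (short to medium). Area formula with weights. Proof as `ZB1_area` in `Pool/Agent/helper92/SJ/ZB1.lean` (countable partition `t n` of `S` with `F` injective on `S ∩ t n`: `exists_partition_approximatesLinearOn_of_hasFDerivWithinAt`; there with `ψ = g ∘ F`): on a piece, `∫_{S_n} |det| ψ = ∫_{F(S_n)} ψ((F|S_n)⁻¹ y) dy`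
(`lintegral_image_eq_lintegral_abs_det_fderiv_mul` for `ψ ∘ (F|S_n)⁻¹`, the inverse is measurable: `MeasurableEmbedding`), and the sum over `n` of the indicator functions is the sum over the preimages. -/
def UAFW_stmt : Prop := ∀ (E : Type) [NormedAddCommGroup E] [NormedSpace ℝ E] [FiniteDimensional ℝ E] [MeasurableSpace E] [BorelSpace E] (μ : Measure E) [μ.IsAddHaarMeasure] (F : E → E) (F' : E → E →L[ℝ] E) (S : Set E),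
  MeasurableSet S → (∀ x ∈ S, HasFDerivWithinAt F (F' x) S x) → (∀ x ∈ S, (F' x).det ≠ 0) → ∀ ψ : E → ℝ≥0∞, Measurable ψ →
  ∫⁻ c in S, ENNReal.ofReal |(F' c).det| * ψ c ∂μ = ∫⁻ y, ∑' c : {c // c ∈ S ∧ F c = y}, ψ c ∂μ ∧ Measurable (fun y => ∑' c : {c // c ∈ S ∧ F c = y}, ψ c)

/-- **UDET** (short). Real determinant of a complex linear map of `ℂ × ℂ` (`LinearMap.det_restrictScalars`, `Algebra.norm` of `ℂ/ℝ`; the matrix in the basis `(1,0), (0,1)`; compare `ZB0`, `Pool/Agent/*/SJ/ZB0.lean`). -/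
def UDET_stmt : Prop := ∀ A : ℂ × ℂ →L[ℂ] ℂ × ℂ, |(A.restrictScalars ℝ).det| = ‖(A (1, 0)).1 * (A (0, 1)).2 - (A (1, 0)).2 * (A (0, 1)).1‖ ^ 2

/-- **USHR** (short to medium). The shear, chain rule. `sh b f` has `dx (sh b f) = (dx f + b dv f) ∘ S`, `dv (sh b f) = (dv f) ∘ S`, `S p = (p.1, p.2 + b p.1)`. The vector `ef` is the same vector in both coordinate systems. -/
def USHR_stmt : Prop := ∀ (P Q : ℂ × ℂ → ℂ) (τ : ℝ), Hol P Q 4 τ → ∀ (b : ℂ) (r : ℝ), r + 2 * ‖b‖ ≤ τ → Hol (sh b P) (sh b Q) 2 r ∧ ∀ p ∈ TB 2 r,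
  (p.1, p.2 + b * p.1) ∈ TB 4 τ ∧ cx (sh b P) (sh b Q) p = cx P Q (p.1, p.2 + b * p.1) + b * cv P Q (p.1, p.2 + b * p.1) ∧ cv (sh b P) (sh b Q) p = cv P Q (p.1, p.2 + b * p.1) ∧
  om (sh b P) (sh b Q) p = om P Q (p.1, p.2 + b * p.1) ∧ nn (sh b P) (sh b Q) p = nn P Q (p.1, p.2 + b * p.1)

/-- **UJAC** (short to medium; from UDET). Jacobians. (1) `F = (-cx/cv, P/Q)` where `Q ≠ 0`, `cv ≠ 0`: `F1'(ef) = nn/cv²` and `(P/Q)_x = cx/Q²`, `(P/Q)_v = cv/Q²`, so the determinant `F1_x F2_v - F1_v F2_x = F1'(ef)/Q² = nn/(cv² Q²)`. (2) `F = (P/Q, w)`: `cx/Q²`. (3) one variable. -/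
def UJAC_stmt : Prop := ∀ (P Q : ℂ × ℂ → ℂ) (a r : ℝ), Hol P Q a r → ∀ p ∈ TB a r, Q p ≠ 0 →
  (cv P Q p ≠ 0 → ∃ A : ℂ × ℂ →L[ℝ] ℂ × ℂ, HasFDerivAt (fun q : ℂ × ℂ => (- cx P Q q / cv P Q q, P q / Q q)) A p ∧ |A.det| = ‖nn P Q p‖ ^ 2 / (‖cv P Q p‖ ^ 4 * ‖Q p‖ ^ 4)) ∧
  (∃ A : ℂ × ℂ →L[ℝ] ℂ × ℂ, HasFDerivAt (fun q : ℂ × ℂ => (P q / Q q, q.2)) A p ∧ |A.det| = ‖cx P Q p‖ ^ 2 / ‖Q p‖ ^ 4) ∧
  ∃ A : ℂ →L[ℝ] ℂ, HasFDerivAt (fun x : ℂ => P (x, p.2) / Q (x, p.2)) A p.1 ∧ |A.det| = ‖cx P Q p‖ ^ 2 / ‖Q p‖ ^ 4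

/-- **UNUL** (short to medium). The zero set of an analytic function is a null set: `TB` is a product of two balls; if `f(x0, v0) ≠ 0` then `{x | f(x, v0) = 0}` is countable (isolated zeros), and for every other `x` the function `f(x, ·)` is not identically 0, so `{v | f(x, v) = 0}` is countable; `Measure.measure_prod_null`. -/
def UNUL_stmt : Prop := ∀ (f : ℂ × ℂ → ℂ) (a r : ℝ), AnalyticOnNhd ℂ f (TB a r) → (∃ p ∈ TB a r, f p ≠ 0) → volume {p | p ∈ TB a r ∧ f p = 0} = 0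

/-- **USNG** (medium). Singular values (Sard). `Z = {Q ≠ 0, cx = cv = 0}`, `h = P/Q` has derivative 0 on `Z`. Every `p ∈ Z` has a ball `B ⊆ TB a r` with `Q ≠ 0` and `‖D²h‖ ≤ K` on `B`, so `‖h p' - h p''‖ ≤ K ‖p' - p''‖²` for `p', p'' ∈ Z ∩ B` (mean value inequality on the segment): `HolderOnWith K 2 h (Z ∩ B)`.
`HolderOnWith.hausdorffMeasure_image_le` with `d = 2`: `μH[2] (h '' (Z ∩ B)) ≤ K² μH[4] (Z ∩ B) = 0` (`μH[4]` on `ℂ × ℂ` and `μH[2]` on `ℂ` are additive Haar measures: `MeasureTheory.isAddHaarMeasure_hausdorffMeasure`, `finrank = 4, 2`; Haar measures are mutually absolutely continuous). Countably many balls (Lindelof).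
If `Q p = 0` then `P p = ζ Q p = 0`: impossible. -/
def USNG_stmt : Prop := ∀ (P Q : ℂ × ℂ → ℂ) (a r : ℝ), Hol P Q a r → volume {p | p ∈ TB a r ∧ cx P Q p = 0 ∧ cv P Q p = 0} = 0 →
  volume {ζ : ℂ | ∃ p ∈ TB a r, P p = ζ * Q p ∧ cx P Q p = 0 ∧ cv P Q p = 0} = 0

/-- **UREG** (short to medium; from UNUL, USNG, UJAC). First part: USNG (UNUL for `cx` or `cv`). Second part: `O = {Q ≠ 0, cv ≠ 0}`, `F = (-cx/cv, P/Q)`; the image of `{p ∈ O | nn p = 0}` is a null set of `ℂ × ℂ` (`addHaar_image_eq_zero_of_det_fderiv_eq_zero`, UJAC (1)), so (`Measure.ae_ae_of_ae_prod`) for almost all `b` and almost all `ζ`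
`(b, ζ)` is not in it. If `P p = ζ Q p`, `cx p + b cv p = 0`, `nn p = 0`: `Q p ≠ 0`, `cv p ≠ 0` by the first part, `F p = (b, ζ)`. -/
def UREG_stmt : Prop := ∀ (P Q : ℂ × ℂ → ℂ) (τ : ℝ), Hol P Q 4 τ → (∃ p ∈ TB 4 τ, cx P Q p ≠ 0 ∨ cv P Q p ≠ 0) → ∀ᵐ b : ℂ, ∀ᵐ ζ : ℂ, ∀ p ∈ TB 4 τ, P p = ζ * Q p →
  (cx P Q p ≠ 0 ∨ cv P Q p ≠ 0) ∧ (cx P Q p + b * cv P Q p = 0 → nn P Q p ≠ 0)

/-- **UFAV** (medium; from UJAC). The average of the number of folds. `Pool.Agent.HC.SJ.ZB1_area` (`Pool/Agent/helper92/SJ/ZB1.lean`, or UAFW) for `F = (-cx/cv, P/Q)`, `S = {p ∈ TB 1 r | Q ≠ 0, cv ≠ 0, nn ≠ 0}`, `g(b, ζ) = 1[|b| < σ] gz ζ`; `{p ∈ S | F p = (b, ζ)}` is the set in the statement (`nn ≠ 0` and `cx + b cv = 0` imply `cv ≠ 0`).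
`|det| gz(P/Q) = |nn|² om/|cv|⁴`, and where `|cx| < σ|cv|`: `Fd ≥ |nn|²/(4σ²|cv|⁴)`. Tonelli (`lintegral_prod`), measurability from the area formula (the number of preimages is a measurable function on `ℂ × ℂ`: `Measurable.of_uncurry_left`, `Measurable.lintegral_prod_right'`). -/
def UFAV_stmt : Prop := ∀ (P Q : ℂ × ℂ → ℂ) (τ : ℝ), Hol P Q 4 τ → ∀ r σ : ℝ, 0 < r → r ≤ τ → 0 < σ →
  (∀ b : ℂ, Measurable (fun ζ : ℂ => cnt {p : ℂ × ℂ | p ∈ TB 1 r ∧ P p = ζ * Q p ∧ cx P Q p + b * cv P Q p = 0 ∧ nn P Q p ≠ 0})) ∧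
  Measurable (fun b : ℂ => ∫⁻ ζ, gz ζ * cnt {p : ℂ × ℂ | p ∈ TB 1 r ∧ P p = ζ * Q p ∧ cx P Q p + b * cv P Q p = 0 ∧ nn P Q p ≠ 0}) ∧
  ∫⁻ b in ball (0 : ℂ) σ, ∫⁻ ζ, gz ζ * cnt {p : ℂ × ℂ | p ∈ TB 1 r ∧ P p = ζ * Q p ∧ cx P Q p + b * cv P Q p = 0 ∧ nn P Q p ≠ 0} ≤
    ENNReal.ofReal (4 * σ ^ 2) * ∫⁻ p in TB 1 r, ENNReal.ofReal (Fd P Q σ p * om P Q p)

/-- **ULWX** (short to medium; from UJAC). The law on the slice `w = 0`. `ZB1_area` for `F x = P(x,0)/Q(x,0)` on `S ∩ {Q(x, 0) ≠ 0}`, `g = gz`: `|F'|² gz(F) = |cx|² om`. The set `{x ∈ S | Q(x, 0) = 0}` is countable (`cx = - P Q_x ≠ 0`, simple zeros are isolated) and contributes nothing to the right side. -/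
def ULWX_stmt : Prop := ∀ (P Q : ℂ × ℂ → ℂ) (r : ℝ), 0 < r → Hol P Q 2 r → ∀ S : Set ℂ, MeasurableSet S → (∀ x ∈ S, ‖x‖ < 1 ∧ cx P Q (x, 0) ≠ 0) →
  ∫⁻ x in S, ENNReal.ofReal (‖cx P Q (x, 0)‖ ^ 2 * om P Q (x, 0)) = ∫⁻ ζ, gz ζ * cnt {x : ℂ | x ∈ S ∧ P (x, 0) = ζ * Q (x, 0)}

/-- **USDE** (medium; from UAFW, UJAC). UAFW for `F(x, w) = (P/Q, w)` on `S = {q ∈ TB 1 r0 | Q ≠ 0, cx ≠ 0}`, `ψ = gz(P/Q) (|cv|/|cx|)^p`; the preimages of `(ζ, w)` are the `(x, w)`, `x ∈ Rt P Q ζ w` (`|w| < r0`); `|det| gz(P/Q) = |cx|² om`. Tonelli. -/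
def USDE_stmt : Prop := ∀ (P Q : ℂ × ℂ → ℂ) (r r0 p : ℝ), Hol P Q 2 r → 0 < r0 → r0 ≤ r → 0 < p →
  ∫⁻ ζ, gz ζ * ∫⁻ w in ball (0 : ℂ) r0, ∑' x : Rt P Q ζ w, ENNReal.ofReal ((‖cv P Q (x.1, w)‖ / ‖cx P Q (x.1, w)‖) ^ p) ≤
    ∫⁻ q in TB 1 r0, ENNReal.ofReal ((‖cv P Q q‖ / ‖cx P Q q‖) ^ p * ‖cx P Q q‖ ^ 2 * om P Q q)

/-- **UBAV** (medium; from USHR). The average over `b` of the exit energy. USHR, substitute `v = w + b x` (for fixed `x`, `b` a translation), then `|v| < r + σ`; `(|cv|/|cx + b cv|)^(2+η) |cx + b cv|² = |cv|² |β - b|^(-η)` with `β = - cx/cv` (0 if `cv = 0`); Tonelli; `∫_{|b| < σ} |β - b|^(-η) db ≤ ∫_{|z| < σ} |z|^(-η) + σ^(-η) π σ² ≤ C σ^(2-η)`.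
Measurability: the integrand is a measurable function of `(b, q)` (it agrees for `|b| < σ` with a function built from the measurable functions `cx`, `cv`, `om` on the open set `TB 4 τ`). -/
def UBAV_stmt : Prop := ∀ η : ℝ, 0 < η → η < 1 → ∃ C : ℝ, 0 < C ∧ ∀ (P Q : ℂ × ℂ → ℂ) (τ : ℝ), Hol P Q 4 τ → ∀ r σ : ℝ, 0 < r → 0 < σ → r + 2 * σ ≤ τ →
  AEMeasurable (fun b : ℂ => ∫⁻ q in TB 1 r, ENNReal.ofReal ((‖cv (sh b P) (sh b Q) q‖ / ‖cx (sh b P) (sh b Q) q‖) ^ (2 + η) * ‖cx (sh b P) (sh b Q) q‖ ^ 2 * om (sh b P) (sh b Q) q)) (volume.restrict (ball 0 σ)) ∧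
  ∫⁻ b in ball (0 : ℂ) σ, ∫⁻ q in TB 1 r, ENNReal.ofReal ((‖cv (sh b P) (sh b Q) q‖ / ‖cx (sh b P) (sh b Q) q‖) ^ (2 + η) * ‖cx (sh b P) (sh b Q) q‖ ^ 2 * om (sh b P) (sh b Q) q) ≤
    ENNReal.ofReal (C * σ ^ (2 - η)) * ∫⁻ p in TB 1 (r + σ), ENNReal.ofReal (‖cv P Q p‖ ^ 2 * om P Q p)

/-! ## Block C. Branches of the sheets over discs of the `w`-axis -/

/-- **UGRF** (medium). Local graphs: implicit function theorem for `G(x, w) = P(x, w) Q(q1) - Q(x, w) P(q1)`, `G_x(q1) = cx(q1) ≠ 0` (inverse function theorem for `(x, w) ↦ (G(x, w), w)`: `HasStrictFDerivAt.toOpenPartialHomeomorph`, `ContDiffAt.to_localInverse`; or `HasStrictFDerivAt.implicitFunction`). First choose `ε` (small) with `(x, w) ↦ (G, w)`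
injective on `ball × ball`, then `δ`. -/
def UGRF_stmt : Prop := ∀ (P Q : ℂ × ℂ → ℂ) (r : ℝ), Hol P Q 2 r → ∀ q1 ∈ TB 2 r, cx P Q q1 ≠ 0 → ∀ ε0 : ℝ, 0 < ε0 → ∃ ε δ : ℝ, 0 < ε ∧ ε ≤ ε0 ∧ 0 < δ ∧ ∃ Y : ℂ → ℂ, ball q1.2 δ ⊆ ball 0 r ∧ DifferentiableOn ℂ Y (ball q1.2 δ) ∧ Y q1.2 = q1.1 ∧
  (∀ w ∈ ball q1.2 δ, Y w ∈ ball q1.1 ε) ∧ ∀ x ∈ ball q1.1 ε, ∀ w ∈ ball q1.2 δ, (P (x, w) * Q q1 = Q (x, w) * P q1 ↔ x = Y w)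

/-- **UUNI** (short; from UGRF). Uniqueness: `X = X'` near 0 by UGRF at `(x0, 0)` (both are continuous and solve the same equation), then on the ball by the identity theorem (`AnalyticOnNhd.eqOn_of_preconnected_of_eventuallyEq`). -/
def UUNI_stmt : Prop := ∀ (P Q : ℂ × ℂ → ℂ) (r : ℝ), Hol P Q 2 r → ∀ (x0 : ℂ) (R R' : ℝ) (X X' : ℂ → ℂ), ‖x0‖ < 1 → cx P Q (x0, 0) ≠ 0 → 0 < R → R ≤ R' → R' ≤ r → Br P Q R x0 X → Br P Q R' x0 X' → EqOn X X' (ball 0 R)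

/-- **UEXT** (medium). Gluing. By compactness of the circle there is one `δ > 0` for all `w1` (Lebesgue number): `Y_{w1}` on `ball w1 δ`, `δ < R`. `X'(w) = X(w)` for `|w| < R` and `X'(w) = Y_{R w/|w|}(w)` for `R ≤ |w| < R + δ/2`. If `w` is near `w*`, `|w*| ≥ R`, then `X'(w) = Y_{w1}(w)` with `w1 = R w*/|w*|`: two balls of radius `δ` centred at points of the circle
which intersect have a common point in `ball 0 R` (on the segment of the centres), and `Y = Y'` on the intersection (convex) by the identity theorem since both are equal to `X` in `ball 0 R`. -/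
def UEXT_stmt : Prop := ∀ (X : ℂ → ℂ) (R : ℝ) (G : Set (ℂ × ℂ)), 0 < R → DifferentiableOn ℂ X (ball 0 R) → (∀ w ∈ ball (0 : ℂ) R, (X w, w) ∈ G) →
  (∀ w1 : ℂ, ‖w1‖ = R → ∃ δ : ℝ, 0 < δ ∧ ∃ Y : ℂ → ℂ, DifferentiableOn ℂ Y (ball w1 δ) ∧ EqOn X Y (ball 0 R ∩ ball w1 δ) ∧ ∀ w ∈ ball w1 δ, (Y w, w) ∈ G) →
  ∃ R' : ℝ, R < R' ∧ ∃ X' : ℂ → ℂ, DifferentiableOn ℂ X' (ball 0 R') ∧ EqOn X X' (ball 0 R) ∧ ∀ w ∈ ball (0 : ℂ) R', (X' w, w) ∈ G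

/-- **UOBS** (medium; from UGRF, UUNI, UEXT). Obstacles. `R` = supremum of the `ρ < r0` with `Unf P Q ρ x0` (not empty: UGRF at `(x0, 0)`). UUNI: one branch `X` on `ball 0 R`; `R < r0`, otherwise `Unf P Q r0 x0`. Suppose there is no obstacle. Let `|w1| = R`, `w k → w1` in the ball, `X (w k) → x1` (compactness, subsequence), `|x1| ≤ 1`; the negation gives `|x1| < 1`
(`|x1| = 1` is an obstacle) and `cx(x1, w1) ≠ 0`. `P(x1, w1) Q(x0, 0) = Q(x1, w1) P(x0, 0)` (limit), so the equation `P(x, w) Q(x1, w1) = Q(x, w) P(x1, w1)` is equivalent to `P(x, w) Q(x0, 0) = Q(x, w) P(x0, 0)`. UGRF at `(x1, w1)`, `ε0 = 1 - |x1|`: `Y` on `ball w1 δ`. `X = Y` on `ball 0 R ∩ ball w1 δ`: at `w k` for large `k`,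
and the set where `X = Y` is closed and open in this convex set (or: equal near `w k`, identity theorem). UEXT (`G = {(x, w) : |x| < 1, P(x, w) Q(x0, 0) = Q(x, w) P(x0, 0)}`): a branch on a larger ball, contradiction. -/
def UOBS_stmt : Prop := ∀ (P Q : ℂ × ℂ → ℂ) (r r0 : ℝ), Hol P Q 2 r → 0 < r0 → r0 < r → ∀ x0 : ℂ, ‖x0‖ < 1 → cx P Q (x0, 0) ≠ 0 → ¬ Unf P Q r0 x0 →
  ∃ (R : ℝ) (X : ℂ → ℂ) (w1 x1 : ℂ), 0 < R ∧ R < r0 ∧ Br P Q R x0 X ∧ ‖w1‖ = R ∧ Lim X R w1 x1 ∧ (‖x1‖ = 1 ∨ (‖x1‖ < 1 ∧ cx P Q (x1, w1) = 0))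

/-- **UALB** (short to medium). Along a branch. Differentiate `P(X w, w) Q(x0, 0) = Q(X w, w) P(x0, 0)`: `(P_x X' + P_v) q0 = (Q_x X' + Q_v) p0`; `(P, Q)(X w, w) = λ (p0, q0)` with `λ ≠ 0` (both vectors are not zero), multiply by `λ`: `cx X' + cv = 0` at `(X w, w)`. If `cx = 0` then `cv = 0`: excluded by `Rg`. -/
def UALB_stmt : Prop := ∀ (P Q : ℂ × ℂ → ℂ) (r r0 : ℝ) (ζ : ℂ), Hol P Q 2 r → 0 < r0 → r0 ≤ r → Rg P Q r0 ζ → ∀ (x0 : ℂ) (R : ℝ) (X : ℂ → ℂ), P (x0, 0) = ζ * Q (x0, 0) → 0 < R → R ≤ r0 → Br P Q R x0 X →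
  ∀ w ∈ ball (0 : ℂ) R, P (X w, w) = ζ * Q (X w, w) ∧ cx P Q (X w, w) ≠ 0 ∧ ‖deriv X w‖ = ‖cv P Q (X w, w)‖ / ‖cx P Q (X w, w)‖

/-- **UDIS** (short; from UGRF, UALB). Different branches of a sheet never meet: if `X w = X' w` then (UGRF at `(X w, w)`, `cx ≠ 0` by UALB) `X = X'` near `w`, so on the ball, `x0 = X 0 = X' 0 = x0'`. -/
def UDIS_stmt : Prop := ∀ (P Q : ℂ × ℂ → ℂ) (r r0 : ℝ) (ζ : ℂ), Hol P Q 2 r → 0 < r0 → r0 ≤ r → Rg P Q r0 ζ → ∀ (x0 x0' : ℂ) (R : ℝ) (X X' : ℂ → ℂ), P (x0, 0) = ζ * Q (x0, 0) → P (x0', 0) = ζ * Q (x0', 0) → 0 < R → R ≤ r0 →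
  Br P Q R x0 X → Br P Q R x0' X' → (∃ w ∈ ball (0 : ℂ) R, X w = X' w) → x0 = x0'

/-- **UFLD** (short to medium). The limit at a simple fold. `cx(x1, w1) = 0`, `nn ≠ 0`: `nn = - cv² (cx)_x`, so `(cx)_x(x1, w1) ≠ 0`. `G(x, w) = P(x, w) Q(q1) - Q(x, w) P(q1)`, `q1 = (x1, w1)`: `G = G_x = 0`, `G_xx = (cx)_x ≠ 0` at `q1`, so `x1` is an isolated zero of `G(·, w1)`: for small `ε`, `G(x, w1) ≠ 0` for `|x - x1| = ε`, so `G(x, w) ≠ 0` for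
`|x - x1| = ε`, `|w - w1| < δ`. The connected set `X(ball 0 R ∩ ball w1 δ)` does not meet the circle and contains `X (w k)`, which is inside for large `k`. -/
def UFLD_stmt : Prop := ∀ (P Q : ℂ × ℂ → ℂ) (r : ℝ), Hol P Q 2 r → ∀ (x0 : ℂ) (R : ℝ) (X : ℂ → ℂ) (w1 x1 : ℂ), 0 < R → R < r → Br P Q R x0 X → ‖w1‖ = R → Lim X R w1 x1 → ‖x1‖ < 1 → cx P Q (x1, w1) = 0 → nn P Q (x1, w1) ≠ 0 →
  Tendsto X (𝓝[ball 0 R] w1) (𝓝 x1)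

/-- **UTZ** (short to medium). At most two zeros. Suppose `g(z1) = g(z2) = g(z3) = 0`, distinct. `F(z) = g(z) - (c/2)(z - z1)²`, `|F''| ≤ |c|/2`. `h(z) = (F(z) - F(z1))/(z - z1)` (`h(z1) = F'(z1)`, `dslope`): `h'(z) = (F(z1) - F(z) - F'(z)(z1 - z))/(z - z1)²`, so `|h'| ≤ |c|/4` (Taylor), and `h(z2) - h(z3) = -(c/2)(z2 - z3)`: contradiction to
`|h(z2) - h(z3)| ≤ (|c|/4)|z2 - z3|` (the ball is convex; `h` is differentiable also at `z1`). Or: `g(z) = (z - z1) k(z)`, `k(z) = ∫_0^1 g'(z1 + t(z - z1)) dt`, `k'(z) = ∫_0^1 t g''(..) dt` is in the disc of centre `c/2` and radius `|c|/4`, so `k` is injective. -/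
def UTZ_stmt : Prop := ∀ (g : ℂ → ℂ) (x1 c : ℂ) (ε : ℝ), 0 < ε → c ≠ 0 → DifferentiableOn ℂ g (ball x1 ε) → (∀ x ∈ ball x1 ε, ‖deriv (deriv g) x - c‖ ≤ ‖c‖ / 2) →
  ∀ z1 ∈ ball x1 ε, ∀ z2 ∈ ball x1 ε, ∀ z3 ∈ ball x1 ε, g z1 = 0 → g z2 = 0 → g z3 = 0 → z1 = z2 ∨ z1 = z3 ∨ z2 = z3

/-- **UTWO** (short to medium; from UDIS, UFLD, UTZ). At most two branches end at a simple fold `q1 = (x1, w1)`. UFLD: all three tend to `x1` at `w1` inside `ball 0 R`. `G(x, w) = P(x, w) Q(q1) - Q(x, w) P(q1)`, `G_xx` continuous, `G_xx(q1) = (cx)_x(q1) ≠ 0`: UTZ for `G(·, w)`, `w ∈ ball 0 R` near `w1`: two of the three values agree, UDIS.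
(`P(q1) = ζ Q(q1)` by continuity, and `P = ζ Q` implies `G = 0`.) -/
def UTWO_stmt : Prop := ∀ (P Q : ℂ × ℂ → ℂ) (r r0 : ℝ) (ζ : ℂ), Hol P Q 2 r → 0 < r0 → r0 < r → Rg P Q r0 ζ → ∀ (R : ℝ) (w1 x1 : ℂ) (x : Fin 3 → ℂ) (X : Fin 3 → ℂ → ℂ), 0 < R → R < r0 → ‖w1‖ = R → ‖x1‖ < 1 → cx P Q (x1, w1) = 0 →
  (∀ i, P (x i, 0) = ζ * Q (x i, 0) ∧ Br P Q R (x i) (X i) ∧ Lim (X i) R w1 x1) → x 0 = x 1 ∨ x 0 = x 2 ∨ x 1 = x 2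

/-- **UEXI** (medium). Exits need `L^p` energy. `M = (∫_{ball 0 R} |X'|^p)^(1/p)` (if infinite nothing to prove). Mean value property on `ball w ρ`, `ρ < R - |w|`, and Hoelder: `|X'(w)| ≤ (π ρ²)⁻¹ ∫_{ball w ρ} |X'| ≤ (π ρ²)^(-1/p) M`, so `|X'(w)| ≤ π^(-1/p) (R - |w|)^(-2/p) M`; integrate on the radius: `|X(w) - X(0)| ≤ C_p R^(1-2/p) M ≤ C_p M` (`2/p < 1`, `R ≤ 1`). -/
def UEXI_stmt : Prop := ∀ p : ℝ, 2 < p → ∃ C : ℝ, 0 < C ∧ ∀ (R : ℝ) (X : ℂ → ℂ), 0 < R → R ≤ 1 → DifferentiableOn ℂ X (ball 0 R) → (∃ w ∈ ball (0 : ℂ) R, 1 / 4 ≤ ‖X w - X 0‖) →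
  1 ≤ ENNReal.ofReal C * ∫⁻ w in ball (0 : ℂ) R, ENNReal.ofReal (‖deriv X w‖ ^ p)

/-- **UCNT** (medium; from UOBS, UALB, UDIS, UTWO, UEXI). Counting. It is enough to bound the cardinality of every finite subset `F` of the left set (`Set.encard` as a supremum, or by contradiction). For `x ∈ F` choose the data of UOBS (`Q(x, 0) ≠ 0`). (1) Fold obstacles: `x ↦ (x1, w1)` maps to `{q ∈ TB 1 r0 | P q = ζ Q q, cx q = 0}` and every point has at most two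
preimages (UTWO, the radius is `R = |w1|`): `card ≤ 2 cnt` (`Finset.card_le_mul_card_image`). (2) Exits: `|X (w k) - X 0| ≥ 1/4` for large `k`: UEXI: `1 ≤ C ∫_{ball 0 R} |X'|^p`, and `|X'| = |cv|/|cx|` (UALB). Sum over `x`: for every `w` the points `X_x(w)`, `R_x > |w|`, are different elements of `Rt P Q ζ w` (UDIS on the smaller ball), so
`∑_x 1[|w| < R_x] |X_x'(w)|^p ≤ ∑' ..` (`lintegral_finset_sum'`, `ENNReal.sum_le_tsum` and injectivity). -/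
def UCNT_stmt : Prop := ∀ p : ℝ, 2 < p → ∃ C : ℝ, 0 < C ∧ ∀ (P Q : ℂ × ℂ → ℂ) (r r0 : ℝ) (ζ : ℂ), Hol P Q 2 r → 0 < r0 → r0 < r → r0 ≤ 1 → Rg P Q r0 ζ →
  cnt {x : ℂ | x ∈ NN P Q r0 ∧ P (x, 0) = ζ * Q (x, 0)} ≤ 2 * cnt {q : ℂ × ℂ | q ∈ TB 1 r0 ∧ P q = ζ * Q q ∧ cx P Q q = 0} +
    ENNReal.ofReal C * ∫⁻ w in ball (0 : ℂ) r0, ∑' x : Rt P Q ζ w, ENNReal.ofReal ((‖cv P Q (x.1, w)‖ / ‖cx P Q (x.1, w)‖) ^ p)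

/-- **UMEA** (medium; from UGRF). Measurability. On the open set `O = {q ∈ TB 2 r | cx q ≠ 0}` let `V_0(x, w) = x`, `V_{k+1} = (V_k)_w - (cv/cx)(V_k)_x` (analytic). For every branch `(d/dw)^k X = V_k(X, w)` near 0 (induction, UALB: `X' = - cv/cx`; near 0 `cx ≠ 0`), so the Taylor coefficients at 0 are `a_k(x0) = V_k(x0, 0)/k!`, continuous functions of `x0 ∈ O0 = {|x0| < 1/2, cx(x0, 0) ≠ 0}` (open).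
Claim: `x0 ∈ O0` is `r0`-unfolded iff `∑ |a_k(x0)| ρ^k < ∞` for all rational `ρ < r0` and `|∑ a_k(x0) w^k| ≤ 1` for all `w` of a countable dense subset of `ball 0 r0`: measurable conditions. `⇒`: Taylor series. `⇐`: `X(w) = ∑ a_k w^k` is analytic on `ball 0 r0`, `|X| ≤ 1`, it agrees near 0 with the local branch of UGRF, so the equation holds near 0 and by the
identity theorem on the ball; `|X| < 1` by the maximum principle (`|X(0)| < 1/2`). (Any other proof, e.g. `{x | Unf ρ x}` is open up to smaller `ρ`.) -/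
def UMEA_stmt : Prop := ∀ (P Q : ℂ × ℂ → ℂ) (r r0 : ℝ), Hol P Q 2 r → 0 < r0 → r0 ≤ r → MeasurableSet (NN P Q r0)

/-! ## Block D. Assembly -/

/-- **UUNB** (short to medium; from UCNT, ULWX, USDE, UMEA). ULWX for `S = NN P Q r0`: the left side is `∫⁻ gz(ζ) cnt{x ∈ NN | P(x, 0) = ζ Q(x, 0)}`; UCNT for almost all `ζ` (`lintegral_mono_ae`): `≤ ∫⁻ gz (2 H + C N)`, `N` the inner integral of USDE; `lintegral_add_left` (`gz * (2 * H)` is measurable), USDE. -/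
def UUNB_stmt : Prop := ∀ p : ℝ, 2 < p → ∃ C : ℝ, 0 < C ∧ ∀ (P Q : ℂ × ℂ → ℂ) (r r0 : ℝ), Hol P Q 2 r → 0 < r0 → r0 < r → r0 ≤ 1 → (∀ᵐ ζ : ℂ, Rg P Q r0 ζ) →
  ∀ H : ℂ → ℝ≥0∞, Measurable H → (∀ᵐ ζ : ℂ, cnt {q : ℂ × ℂ | q ∈ TB 1 r0 ∧ P q = ζ * Q q ∧ cx P Q q = 0} ≤ H ζ) →
  ∫⁻ x in NN P Q r0, ENNReal.ofReal (‖cx P Q (x, 0)‖ ^ 2 * om P Q (x, 0)) ≤ 2 * (∫⁻ ζ, gz ζ * H ζ) +
    ENNReal.ofReal C * ∫⁻ q in TB 1 r0, ENNReal.ofReal ((‖cv P Q q‖ / ‖cx P Q q‖) ^ p * ‖cx P Q q‖ ^ 2 * om P Q q)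

/-- **UUNF** (medium; from UUNB, UFAV, UREG, USHR, UBAV, UR1, UHV, UMEA). If `cx = cv = 0` on `TB 4 τ` then the left side is 0 (`b = 0`, USHR). Otherwise UREG: for almost all `b`, for almost all `ζ`: `Rg (sh b P) (sh b Q) (s/4) ζ` (USHR; `|w + b x| < s/4 + s² ≤ s/2 < τ`), and the fold set of `(sh b P, sh b Q)` in `TB 1 (s/4)` is mapped
injectively by `q ↦ (q.1, q.2 + b q.1)` into `{p ∈ TB 1 (s/2) | P p = ζ Q p, cx p + b cv p = 0, nn p ≠ 0}`, whose `cnt` is the measurable function `H_b` of UFAV (`r = s/2`, `σ = s²`); let `M b = ∫⁻ gz H_b`. UUNB with `p = 2 + η`, `η = α/4`, `r0 = s/4`, `r = s/2`: the left side is `≤ 2 M(b) + C N(b)`, `N(b)` as in UBAV (`r = s/4`, `σ = s²`).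
UFAV, UR1 (`TB 1 (s/2) ⊆ TB 1 s`), UBAV, UHV (`ρ = s/2`, `D ρ^α + 1 ≤ 2 D s^α`): `∫⁻_{|b| < σ} (2 M + C N) ≤ 8 σ² · 8 D (E0 + P0/log(t/s) + C t^(α/2)) + C σ^(2-η) D s^α`, `σ^(-η) s^α = s^(α/2) ≤ t^(α/2)`, `log(t/s) ≥ log(1/s)/2` since `s ≤ t²`. Divide by the area `π σ²`: `exists_notMem_null_le_laverage` (or Markov) gives `b` in the ball outside of the null set. -/
def UUNF_stmt : Prop := ∀ C0 α : ℝ, 1 ≤ C0 → 0 < α → α ≤ 1 → ∃ C : ℝ, 0 < C ∧ ∀ (P Q : ℂ × ℂ → ℂ) (u : ℂ × ℂ → ℝ) (D τ : ℝ), Dat P Q u D C0 α τ → τ ≤ 1 → ∀ s t : ℝ, 0 < s → s ≤ t ^ 2 → 0 < t → t ≤ τ / 4 → 1 / s ≤ D →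
  ∀ E0 P0 : ℝ, 0 ≤ E0 → 0 ≤ P0 → ∫⁻ p in TB 2 t, ENNReal.ofReal (Gd P Q p * om P Q p) ≤ ENNReal.ofReal (D * E0) →
  ∫⁻ p in TB 2 s, ENNReal.ofReal (PP P Q (s ^ 2) p * ‖cx P Q p‖ ^ 2 * om P Q p) ≤ ENNReal.ofReal (D * s ^ 2 * P0) →
  ∃ b : ℂ, ‖b‖ < s ^ 2 ∧ MeasurableSet (NN (sh b P) (sh b Q) (s / 4)) ∧
    ∫⁻ x in NN (sh b P) (sh b Q) (s / 4), ENNReal.ofReal (‖cx (sh b P) (sh b Q) (x, 0)‖ ^ 2 * om (sh b P) (sh b Q) (x, 0)) ≤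
      ENNReal.ofReal (C * D * (E0 + P0 / Real.log (1 / s) + t ^ (α / 2)))

/-- **UR3** (short to medium). The second Manye trick, pure measure theory: `ν` = law of the crossings of the tube `W_s`, `a = |A u|`, `M = ‖A‖`, `ae = |A e|`, `A = Df^m`, `u` the tangent direction of the graph, `a |c| ≤ ae + |cx| M` (decompose `u` along `e`). Let `P = PP`-value `∈ [0, 4 log(1/s)]`. `B = {a |c| < 2 ae}`: there `a² ≤ 4 ae²/|cx|²`, so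
`ν(B) ≤ ν{a² ≤ s d^m} + (s d^m)⁻¹ ∫ 4 ae²/|cx|² dν ≤ C0/log(1/s) + 4 C0 s²` (Markov; `d^m ≥ s^(-5)`), contribution `≤ 4 log(1/s) ν(B) ≤ C`. Outside of `B`: `a |c| ≤ 2 |cx| M`, `P ≤ log(|c|²/|cx|²) ≤ log 4 + log(M²/a²)`, which is `≤ log 4 + ε m` except on a set of measure `≤ ε`, and `m ≤ 6 log(1/s)/log d`. -/
def UR3_stmt : Prop := ∀ C0 : ℝ, 1 ≤ C0 → ∃ C : ℝ, 0 < C ∧ ∀ (Ω : Type) [MeasurableSpace Ω] (ν : Measure Ω) (zx zv : Ω → ℂ) (a M ae : Ω → ℝ) (s ε d : ℝ) (m : ℕ), Measurable zx → Measurable zv → Measurable a → Measurable M → Measurable ae →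
  (∀ q, zx q ≠ 0 ∧ 0 < a q ∧ 0 ≤ M q ∧ 0 ≤ ae q) → (∀ q, a q * Real.sqrt (‖zx q‖ ^ 2 + ‖zv q‖ ^ 2) ≤ ae q + ‖zx q‖ * M q) → 0 < s → s ≤ 1 / 4 → 0 ≤ ε → 2 ≤ d → s⁻¹ ^ 5 ≤ d ^ m → d ^ m ≤ s⁻¹ ^ 6 →
  ν univ ≤ ENNReal.ofReal C0 → ν {q | ε * m ≤ Real.log (M q ^ 2 / a q ^ 2)} ≤ ENNReal.ofReal ε → ∫⁻ q, ENNReal.ofReal (ae q ^ 2 / ‖zx q‖ ^ 2) ∂ν ≤ ENNReal.ofReal (C0 / s ^ 2) →
  ν {q | a q ^ 2 ≤ s * d ^ m} ≤ ENNReal.ofReal (C0 / Real.log (1 / s)) →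
  ∫⁻ q, ENNReal.ofReal (Real.log ((‖zx q‖ ^ 2 + ‖zv q‖ ^ 2) / (‖zx q‖ ^ 2 + (s ^ 2) ^ 2 * ‖zv q‖ ^ 2))) ∂ν ≤ ENNReal.ofReal (C * (ε * Real.log (1 / s) + 1))

end

end Pool.Agent.P2U
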