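import Pool.Agent.helper1.P2.BHA
import Pool.Agent.helper1.P2.BSH
import Pool.Agent.helper1.P2.LSE
import Pool.Agent.helper14.P2.USNG
import Pool.Agent.helper15.P2.IB1
import Pool.Agent.helper15.P2.ISA
import Pool.Agent.helper16.P2.BZD
import Pool.Agent.helper17.P2.AVG
import Pool.Agent.helper18.P2.BSB
import Pool.Agent.helper18.P2.BUQ
import Pool.Agent.helper18.P2.UGRN
import Pool.Agent.helper20.P2.BTC
import Pool.Agent.helper23.P2.BRC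
import Pool.Agent.helper23.P2.BRO
import Pool.Agent.helper24.P2.UAFW
import Pool.Agent.helper25.P2.BCC
import Pool.Agent.helper26.P2.CUT
import Pool.Agent.helper26.P2.IG
import Pool.Agent.helper30.P2.BLC
import Pool.Agent.helper30.P2.IS4
import Pool.Agent.helper30.P2.UNUL
import Pool.Agent.helper31.P2.BFI
import Pool.Agent.helper42.P2.BPI
import Pool.Agent.helper42.P2.BSM
import Pool.Agent.helper43.P2.CHN
import Pool.Agent.helper44.P2.BOW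
import Pool.Agent.helper45.P2.BSL
import Pool.Agent.helper48.P2.IS3
import Pool.Agent.helper48.P2.UTSA
import Pool.Agent.helper51.P2.CH1
import Pool.Agent.helper51.P2.GT
import Pool.Agent.helper53.P2.BCF
import Pool.Agent.helper53.P2.QOM
import Pool.Agent.helper53.P2.ULEV
import Pool.Agent.helper65.P2.TCH
import Pool.Agent.helper65.P2.UHX
import Pool.Agent.helper68.P2.BC2
import Pool.Agent.helper68.P2.BMP
import Pool.Agent.helper68.P2.BTW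
import Pool.Agent.helper68.P2.UJAC
import Pool.Agent.helper77.P2.UGRF
import Pool.Agent.helper78.P2.BJL
import Pool.Agent.helper78.P2.BT1
import Pool.Agent.helper78.P2.BTR
import Pool.Agent.helper79.P2.BBS
import Pool.Agent.helper80.P2.BRS
import Pool.Agent.helper80.P2.LGA
import Pool.Agent.helper80.P2.LGW
import Pool.Agent.helper82.P2.EXT
import Pool.Agent.helper82.P2.IS1
import Pool.Agent.helper82.P2.IS2
import Pool.Agent.helper84.P2.BJE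
import Pool.Agent.helper84.P2.BZB
import Pool.Agent.helper84.P2.USHR
import Pool.Agent.helper87.P2.UDET
import Pool.Agent.helper9.P2.FAT
import Pool.Agent.helper93.P2.GB
import Pool.Agent.helper93.P2.UUNI
import Pool.Agent.helper96.P2.UMEA
import Pool.Agent.helper97.P2.BI2
import Pool.Agent.helper97.P2.BIC
import Pool.Agent.helper97.P2.BRA
import Pool.Agent.helper97.P2.IFT
import Pool.Agent.helper98.P2.BND

set_option autoImplicit false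

/-!
# Project P2 (MP_063734_an): composition of the rows of the blocks I, B, C, D (islands, thin bands)
-/

namespace Pool.Agent.P2W.I

theorem A_LSE : Pool.Agent.P2.LSE_stmt := Pool.Agent.P2.LSE

theorem A_CH1 : Pool.Agent.P2I.CH1_stmt := Pool.Agent.P2I.CH1

theorem A_IB1 : Pool.Agent.P2I.IB1_stmt := Pool.Agent.P2I.IB1

theorem A_LGA : Pool.Agent.P2I.LGA_stmt := Pool.Agent.P2I.LGA

theorem A_LGW : Pool.Agent.P2I.LGW_stmt := Pool.Agent.P2I.LGW A_LGA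

theorem A_CUT : Pool.Agent.P2I.CUT_stmt := Pool.Agent.P2I.CUT

theorem A_IS3 : Pool.Agent.P2I.IS3_stmt := Pool.Agent.P2I.IS3 A_LSE A_CH1 A_IB1 A_LGW A_CUT

theorem A_BRA : Pool.Agent.P2I.BRA_stmt := Pool.Agent.P2I.BRA

theorem A_BRC : Pool.Agent.P2I.BRC_stmt := Pool.Agent.P2I.BRC A_BRA

theorem A_BRS : Pool.Agent.P2I.BRS_stmt := Pool.Agent.P2I.BRS A_BRA

theorem A_AVG : Pool.Agent.P2I.AVG_stmt := Pool.Agent.P2I.AVG

theorem A_FAT : Pool.Agent.P2I.FAT_stmt := Pool.Agent.P2I.FAT A_AVG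

theorem A_BRO : Pool.Agent.P2I.BRO_stmt := Pool.Agent.P2I.BRO A_BRA A_BRC A_BRS

theorem A_QOM : Pool.Agent.P2I.QOM_stmt := Pool.Agent.P2I.QOM

theorem A_IFT : Pool.Agent.P2I.IFT_stmt := Pool.Agent.P2I.IFT A_QOM A_BRA A_BRC

theorem A_GB : Pool.Agent.P2I.GB_stmt := Pool.Agent.P2I.GB A_BRC A_IFT

theorem A_EXT : Pool.Agent.P2I.EXT_stmt := Pool.Agent.P2I.EXT

theorem A_TCH : Pool.Agent.P2I.TCH_stmt := Pool.Agent.P2I.TCH A_BRA A_BRC A_BRS A_EXT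

theorem A_GT : Pool.Agent.P2I.GT_stmt := Pool.Agent.P2I.GT A_QOM A_BRA A_BRC A_TCH A_GB

theorem A_IG : Pool.Agent.P2I.IG_stmt := Pool.Agent.P2I.IG A_AVG A_FAT A_LGA A_BRO A_GB A_GT

theorem A_IS1 : Pool.Agent.P2I.IS1_stmt := Pool.Agent.P2I.IS1 A_LGW A_GB A_IG

theorem A_IS2 : Pool.Agent.P2I.IS2_stmt := Pool.Agent.P2I.IS2 A_CH1 A_IB1 A_IG A_IS1 A_CUT

theorem A_ISA : Pool.Agent.P2I.ISA_stmt := Pool.Agent.P2I.ISA A_CH1 A_IB1 A_BRA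

theorem A_IS4 : Pool.Agent.P2I.IS4_stmt := Pool.Agent.P2I.IS4 A_BRA A_BRC A_BRS A_IS2 A_ISA

theorem A_CHN : Pool.Agent.P2.CHN_stmt := Pool.Agent.P2.CHN

theorem A_BSL : Pool.Agent.P2B.BSL_stmt := Pool.Agent.P2B.BSL

theorem A_BMP : Pool.Agent.P2B.BMP_stmt := Pool.Agent.P2B.BMP

theorem A_ULEV : Pool.Agent.P2U.ULEV_stmt := Pool.Agent.P2U.ULEV

theorem A_UGRN : Pool.Agent.P2U.UGRN_stmt := Pool.Agent.P2U.UGRN A_ULEV

theorem A_UAFW : Pool.Agent.P2U.UAFW_stmt := Pool.Agent.P2U.UAFW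

theorem A_UDET : Pool.Agent.P2U.UDET_stmt := Pool.Agent.P2U.UDET

theorem A_UJAC : Pool.Agent.P2U.UJAC_stmt := Pool.Agent.P2U.UJAC A_UDET

theorem A_UTSA : Pool.Agent.P2U.UTSA_stmt := Pool.Agent.P2U.UTSA

theorem A_UHX : Pool.Agent.P2U.UHX_stmt := Pool.Agent.P2U.UHX A_UGRN A_UTSA

theorem A_UGRF : Pool.Agent.P2U.UGRF_stmt := Pool.Agent.P2U.UGRF

theorem A_UUNI : Pool.Agent.P2U.UUNI_stmt := Pool.Agent.P2U.UUNI A_UGRF

theorem A_USHR : Pool.Agent.P2U.USHR_stmt := Pool.Agent.P2U.USHR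

theorem A_UMEA : Pool.Agent.P2U.UMEA_stmt := Pool.Agent.P2U.UMEA A_UGRF

theorem A_BSH : Pool.Agent.P2B.BSH_stmt := Pool.Agent.P2B.BSH A_UGRN A_UAFW A_UJAC A_UHX A_UUNI A_USHR A_UMEA Pool.Agent.P2U.UNUL Pool.Agent.P2U.USNG

theorem A_BPI : Pool.Agent.P2B.BPI_stmt := Pool.Agent.P2B.BPI

theorem A_BSM : Pool.Agent.P2B.BSM_stmt := Pool.Agent.P2B.BSM A_BSL A_BPI A_BRA

theorem A_BJL : Pool.Agent.P2B.BJL_stmt := Pool.Agent.P2B.BJL A_BSL A_BPI A_BRA A_BRC A_BRS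

theorem A_BLC : Pool.Agent.P2B.BLC_stmt := Pool.Agent.P2B.BLC A_BSL A_IS1

theorem A_BJE : Pool.Agent.P2B.BJE_stmt := Pool.Agent.P2B.BJE

theorem A_BUQ : Pool.Agent.P2B.BUQ_stmt := Pool.Agent.P2B.BUQ A_BRA A_BSL

theorem A_BHA : Pool.Agent.P2B.BHA_stmt := Pool.Agent.P2B.BHA A_BJE A_BPI A_BRA A_BRC A_BSL A_BUQ

theorem A_BOW : Pool.Agent.P2B.BOW_stmt := Pool.Agent.P2B.BOW A_BSM A_BJL A_BLC A_BHA A_BSL

theorem A_BCF : Pool.Agent.P2B.BCF_stmt := Pool.Agent.P2B.BCF A_BSL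

theorem A_BCC : Pool.Agent.P2B.BCC_stmt := Pool.Agent.P2B.BCC A_BSL A_BCF

theorem A_BTC : Pool.Agent.P2B.BTC_stmt := Pool.Agent.P2B.BTC

theorem A_BI2 : Pool.Agent.P2B.BI2_stmt := Pool.Agent.P2B.BI2 A_BSL A_BRA

theorem A_BSB : Pool.Agent.P2B.BSB_stmt := Pool.Agent.P2B.BSB A_FAT A_LGW A_BJE A_BSL A_BCF A_BI2 A_BTC

theorem A_BTR : Pool.Agent.P2B.BTR_stmt := Pool.Agent.P2B.BTR A_CH1 A_IB1 A_CUT A_BSL A_BCF A_BCC A_BTC A_BSB

theorem A_BBS : Pool.Agent.P2B.BBS_stmt := Pool.Agent.P2B.BBS A_BUQ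

theorem A_BZB : Pool.Agent.P2B.BZB_stmt := Pool.Agent.P2B.BZB A_CHN A_CH1 A_BSL A_BUQ

theorem A_BZD : Pool.Agent.P2B.BZD_stmt := Pool.Agent.P2B.BZD A_CHN A_LSE A_BMP A_BZB

theorem A_BC2 : Pool.Agent.P2B.BC2_stmt := Pool.Agent.P2B.BC2 A_IB1

theorem A_BTW : Pool.Agent.P2B.BTW_stmt := Pool.Agent.P2B.BTW A_LSE A_LGA A_BC2

theorem A_BT1 : Pool.Agent.P2B.BT1_stmt := Pool.Agent.P2B.BT1 A_IB1 A_BJE A_BTW

theorem A_BIC : Pool.Agent.P2B.BIC_stmt := Pool.Agent.P2B.BIC A_BSL A_BUQ A_BBS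

theorem A_BFI : Pool.Agent.P2B.BFI_stmt := Pool.Agent.P2B.BFI A_CH1 A_IB1 A_ISA A_BSL A_BUQ A_BBS A_BZB A_BZD A_BT1 A_BIC

theorem A_BND : Pool.Agent.P2B.BND_stmt := Pool.Agent.P2B.BND Pool.Agent.P2U.UNUL Pool.Agent.P2U.USNG A_CHN A_CH1 A_BSL A_BMP A_BSH A_BOW A_BTR A_BFI

end Pool.Agent.P2W.I
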