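import Pool.Agent.helper35.P2.UDIV
import Pool.Agent.helper92.P2.UIBP
import Pool.Agent.helper53.P2.ULEV
import Pool.Agent.helper18.P2.UGRN
import Pool.Agent.helper48.P2.UTSA
import Pool.Agent.helper72.P2.UTSB
import Pool.Agent.helper43.P2.UTST
import Pool.Agent.helper65.P2.UHX
import Pool.Agent.helper62.P2.UHV
import Pool.Agent.helper74.P2.UHH
import Pool.Agent.helper62.P2.ULAY
import Pool.Agent.helper62.P2.USID
import Pool.Agent.helper72.P2.UR1E
import Pool.Agent.helper85.P2.UR1
import Pool.Agent.helper24.P2.UAFW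
import Pool.Agent.helper87.P2.UDET
import Pool.Agent.helper84.P2.USHR
import Pool.Agent.helper68.P2.UJAC
import Pool.Agent.helper68.P2.UOBS
import Pool.Agent.helper30.P2.UNUL
import Pool.Agent.helper14.P2.USNG
import Pool.Agent.helper44.P2.UREG
import Pool.Agent.helper96.P2.UFAV
import Pool.Agent.helper24.P2.USDE
import Pool.Agent.helper96.P2.UMEA
import Pool.Agent.helper5.P2.ULWX
import Pool.Agent.helper50.P2.UBAV
import Pool.Agent.helper77.P2.UGRF
import Pool.Agent.helper93.P2.UUNI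
import Pool.Agent.helper62.P2.UEXT
import Pool.Agent.helper23.P2.UALB
import Pool.Agent.helper23.P2.UCNT
import Pool.Agent.helper20.P2.UDIS
import Pool.Agent.helper78.P2.UFLD
import Pool.Agent.helper29.P2.UTZ
import Pool.Agent.helper25.P2.UTWO
import Pool.Agent.helper42.P2.UEXI
import Pool.Agent.helper19.P2.UUNB
import Pool.Agent.helper98.P2.UUNF
import Pool.Agent.helper72.P2.UR3

/-!
# MP_063734_an: block VIII assembled: `UUNF`, `UR3` and the other rows `p2:U..`, without hypotheses
-/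

set_option autoImplicit false

namespace Pool.Agent.P2U.A

open Pool.Agent.P2U

theorem GRN : UGRN_stmt := UGRN ULEV
theorem IBP : UIBP_stmt := UIBP UDIV
theorem TST : UTST_stmt := UTST UTSA UTSB
theorem HX : UHX_stmt := UHX GRN UTSA
theorem HV : UHV_stmt := UHV GRN UTSA
theorem HH : UHH_stmt := UHH GRN UTSB
theorem SID : USID_stmt := USID (ULAY HV) HX
theorem R1F : UR1F_stmt := UR1F IBP ULEV TST HH SID UTSB
theorem R1 : UR1_stmt := UR1 R1F TST
theorem JAC : UJAC_stmt := UJAC UDET
theorem REG : UREG_stmt := UREG UNUL USNG JAC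
theorem FAV : UFAV_stmt := UFAV JAC
theorem LWX : ULWX_stmt := ULWX JAC
theorem SDE : USDE_stmt := USDE UAFW JAC
theorem BAV : UBAV_stmt := UBAV USHR
theorem UNI : UUNI_stmt := UUNI UGRF
theorem OBS : UOBS_stmt := UOBS UGRF UNI UEXT
theorem DIS : UDIS_stmt := UDIS UGRF UALB
theorem TWO : UTWO_stmt := UTWO DIS UFLD UTZ
theorem CNT : UCNT_stmt := UCNT OBS UALB DIS TWO UEXI
theorem MEA : UMEA_stmt := UMEA UGRF
theorem UNB : UUNB_stmt := UUNB CNT LWX SDE MEA
theorem UNF : UUNF_stmt := UUNF UNB FAV REG USHR BAV R1 HV MEA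
theorem R3 : UR3_stmt := UR3

end Pool.Agent.P2U.A
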