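import Pool.Agent.helper56.P2.SpecW

set_option autoImplicit false

open scoped ContDiff Topology ComplexConjugate ENNReal
open MeasureTheory Filter Set Metric MvPolynomial Pool.Agent.helper37.QA

namespace Pool.Agent.P2W

open Pool.Agent.P2

theorem WNN_rad (CU α δ : ℝ) (hCU : 0 < CU) (hα : 0 < α) (hδ : 0 < δ) :
    ∃ t1 : ℝ, 0 < t1 ∧ t1 ≤ 1 / 4 ∧ ∀ t : ℝ, 0 < t → t ≤ t1 → CU * t ^ (α / 2) ≤ δ / 3 := by
  set y : ℝ := δ / (3 * CU) with hy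
  have hy0 : 0 < y := by positivity
  have ha : 0 < α / 2 := by positivity
  refine ⟨min (1 / 4) (y ^ (1 / (α / 2))), by positivity, min_le_left _ _, fun t ht ht1 => ?_⟩
  have h2 : t ≤ y ^ (1 / (α / 2)) := ht1.trans (min_le_right _ _)
  have h1 : t ^ (α / 2) ≤ y := by
    calc t ^ (α / 2) ≤ (y ^ (1 / (α / 2))) ^ (α / 2) := Real.rpow_le_rpow ht.le h2 ha.le
      _ = y := by
          rw [← Real.rpow_mul hy0.le, one_div, inv_mul_cancel₀ ha.ne', Real.rpow_one]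
  calc CU * t ^ (α / 2) ≤ CU * y := by gcongr
    _ = δ / 3 := by rw [hy]; field_simp

theorem WNN_small (d : ℕ) (hd : 2 ≤ d) (η0 : ℝ) (h0 : 0 < η0) :
    ∃ m2 : ℕ, ∀ m : ℕ, m2 ≤ m → ∀ h : ℝ, 0 < h → (d : ℝ) ^ m ≤ h⁻¹ ^ 6 → h ≤ η0 := by
  have hd1 : (1 : ℝ) < d := by
    have : (2 : ℝ) ≤ d := by exact_mod_cast hd
    linarith
  obtain ⟨m2, hm2⟩ := pow_unbounded_of_one_lt (η0⁻¹ ^ 6) hd1
  refine ⟨m2, fun m hm h hh h6 => ?_⟩
  by_contra hcon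
  have h1 : h⁻¹ ≤ η0⁻¹ := inv_anti₀ h0 (not_le.1 hcon).le
  have h2 : h⁻¹ ^ 6 ≤ η0⁻¹ ^ 6 := pow_le_pow_left₀ (by positivity) h1 6
  have h3 : (d : ℝ) ^ m2 ≤ (d : ℝ) ^ m := pow_le_pow_right₀ hd1.le hm
  linarith

theorem WNN (hUNF : P2U.UUNF_stmt) (hWDT : WDT_stmt) (hWP0 : WP0_stmt) : WNN_stmt := by
  intro d f U hd τ κ Λ1 C0 α hτ hκ hκ1 hΛ hWC
  obtain ⟨CU, hCU, hU⟩ := hUNF C0 α hWC.c1 hWC.a0 hWC.a1
  obtain ⟨CP, hCP, hP⟩ := hWP0 d f U hd τ κ Λ1 C0 α hτ hκ hκ1 hΛ hWC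
  refine ⟨CU, hCU, fun ρ μ0 δ hρ hρ1 hρ2 hμ hδ => ?_⟩
  have hd1 : (1 : ℝ) ≤ d := by
    have : 1 ≤ d := by omega
    exact_mod_cast this
  set ε : ℝ := δ / (3 * CU * CP) with hε
  have hε0 : 0 < ε := by positivity
  obtain ⟨t1, ht10, ht14, ht1⟩ := WNN_rad CU α δ hCU hWC.a0 hδ
  refine ⟨t1, ε ^ 2 / CP, ht10, by positivity, fun t ht htt => ?_⟩
  obtain ⟨m1, hm1⟩ := hP ρ μ0 ε hρ hρ1 hρ2 hμ hε0
  obtain ⟨m2, hm2⟩ := WNN_small d hd (min (t ^ 2) (min (1 / 2) (Real.exp (-(3 * CU * CP / δ))))) (by positivity)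
  refine ⟨max m1 m2, fun m hm => ?_⟩
  obtain ⟨nm, hnm⟩ := hm1 m (le_of_max_le_left hm)
  refine ⟨max nm m, fun h hh hh5 hh6 ι c γ n N ξ0 E0 hTb hn hnN hξ0 hmass hQR hE0 hEn => ?_⟩
  have hdat := hWDT d f U hd τ κ C0 α hτ hκ hκ1 hWC ι c γ hTb n ξ0 ρ hξ0 hρ hρ1 (by linarith)
  have hp0 := hnm h hh hh5 hh6 ι c γ n N ξ0 hTb (le_of_max_le_left hn) hnN hξ0 hmass hQR
  have hsm := hm2 m (le_of_max_le_right hm) h hh hh6
  have hs1 : h ≤ t ^ 2 := hsm.trans (min_le_left _ _)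
  have hs2 : h ≤ 1 / 2 := hsm.trans ((min_le_right _ _).trans (min_le_left _ _))
  have hs3 : h ≤ Real.exp (-(3 * CU * CP / δ)) := hsm.trans ((min_le_right _ _).trans (min_le_right _ _))
  have hlog : 3 * CU * CP / δ ≤ Real.log (1 / h) := by
    rw [one_div, Real.log_inv]
    have := Real.log_le_log hh hs3
    rw [Real.log_exp] at this
    linarith
  have hlog0 : 0 < Real.log (1 / h) := lt_of_lt_of_le (by positivity) hlog
  have hdn : (d : ℝ) ^ m ≤ (d : ℝ) ^ n := pow_le_pow_right₀ hd1 (le_of_max_le_right hn)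
  have hD : 1 / h ≤ (d : ℝ) ^ n := by
    have h1 : (1 : ℝ) ≤ h⁻¹ := by
      rw [one_le_inv₀ hh]
      linarith
    have h2 : h⁻¹ ≤ h⁻¹ ^ 5 := le_self_pow₀ h1 (by norm_num)
    rw [one_div]
    linarith
  have hdn0 : (0 : ℝ) < (d : ℝ) ^ n := by positivity
  obtain ⟨b, hb1, hb2, hb3⟩ := hU (sP f n ι c κ γ ξ0 ρ) (sQ f n ι c κ γ ξ0 ρ) _ ((d : ℝ) ^ n) 1 hdat le_rfl h t hh hs1 ht
    (by linarith) hD E0 (CP * (ε * Real.log (1 / h) + 1)) hE0 (by positivity) hEn hp0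
  refine ⟨b, hb1, hb2, hb3.trans (ENNReal.ofReal_le_ofReal ?_)⟩
  have h3 := ht1 t ht htt
  have h4 : CU * (CP * (ε * Real.log (1 / h) + 1) / Real.log (1 / h)) ≤ δ / 3 + δ / 3 := by
    have h5 : CU * (CP * (ε * Real.log (1 / h) + 1) / Real.log (1 / h)) = CU * CP * ε + CU * CP / Real.log (1 / h) := by
      field_simp
    have h6 : CU * CP * ε = δ / 3 := by rw [hε]; field_simp
    have h7 : CU * CP / Real.log (1 / h) ≤ δ / 3 := by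
      rw [div_le_iff₀ hlog0]
      rw [div_le_iff₀ hδ] at hlog
      linarith
    rw [h5, h6]
    linarith
  have h8 : CU * (d : ℝ) ^ n * (E0 + CP * (ε * Real.log (1 / h) + 1) / Real.log (1 / h) + t ^ (α / 2)) =
      (d : ℝ) ^ n * (CU * E0 + CU * (CP * (ε * Real.log (1 / h) + 1) / Real.log (1 / h)) + CU * t ^ (α / 2)) := by ring
  rw [h8]
  apply mul_le_mul_of_nonneg_left _ hdn0.le
  linarith

end Pool.Agent.P2W
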