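import Pool.Agent.helper56.P2.SpecW

set_option autoImplicit false

open scoped ContDiff Topology ComplexConjugate ENNReal
open MeasureTheory Filter Set Metric MvPolynomial Pool.Agent.helper37.QA

namespace Pool.Agent.P2W

open Pool.Agent.P2

theorem WTU_sub {β : Type} (S : Finset β) (s : β → Set ℂ) (g : ℂ → ℝ≥0∞) :
    ∫⁻ x in ⋃ j ∈ S, s j, g x ≤ ∑ j ∈ S, ∫⁻ x in s j, g x := by
  classical
  induction S using Finset.induction_on with
  | empty => simp
  | insert a T ha ih =>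
    rw [Finset.sum_insert ha, Finset.set_biUnion_insert]
    exact (lintegral_union_le g _ _).trans (by gcongr)

theorem WTU_rad (C2 α εT : ℝ) (nB : ℕ) (hC2 : 0 < C2) (hα : 0 < α) (hε : 0 < εT) :
    ∃ ρ : ℝ, 0 < ρ ∧ ρ ≤ 1 / 16 ∧ nB * (C2 * (2 * ρ) ^ α) ≤ εT / 4 := by
  set y : ℝ := εT / (4 * (nB + 1) * C2) with hy
  have hy0 : 0 < y := by positivity
  refine ⟨min (1 / 16) (y ^ (1 / α) / 2), by positivity, min_le_left _ _, ?_⟩
  have h1 : (2 * min (1 / 16) (y ^ (1 / α) / 2)) ^ α ≤ y := by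
    have h2 : 2 * min (1 / 16) (y ^ (1 / α) / 2) ≤ y ^ (1 / α) := by
      have := min_le_right (1 / 16 : ℝ) (y ^ (1 / α) / 2)
      linarith
    calc (2 * min (1 / 16) (y ^ (1 / α) / 2)) ^ α ≤ (y ^ (1 / α)) ^ α :=
          Real.rpow_le_rpow (by positivity) h2 hα.le
      _ = y := by
          rw [← Real.rpow_mul hy0.le, one_div, inv_mul_cancel₀ hα.ne', Real.rpow_one]
  have hn : (0 : ℝ) ≤ nB := Nat.cast_nonneg nB
  calc (nB : ℝ) * (C2 * (2 * min (1 / 16) (y ^ (1 / α) / 2)) ^ α) ≤ nB * (C2 * y) := by gcongr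
    _ ≤ (nB + 1) * (C2 * y) := by
        have : 0 ≤ C2 * y := by positivity
        nlinarith
    _ = εT / 4 := by rw [hy]; field_simp

theorem WTU (hWCN : WCN_stmt) (hWM2 : WM2_stmt) (hWDI : WDI_stmt) (hWEN : WEN_stmt) (hWCV : WCV_stmt) : TUB_stmt := by
  intro d f U hd hG τ κ Λ1 εT hτ hκ hκ1 hΛ hεT
  obtain ⟨C0, α, hWC⟩ := hWCN d f U hd hG τ κ hτ hκ hκ1
  obtain ⟨C1, hC1, h1⟩ := hWDI d f U hd τ κ Λ1 C0 α hτ hκ hκ1 hΛ hWC
  obtain ⟨C2, hC2, h2⟩ := hWM2 d f U hd τ κ C0 α hτ hκ hκ1 hWC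
  obtain ⟨K, hK⟩ := hWCV
  refine ⟨εT / (4 * (C1 * K + 1)), by positivity, fun nB => ?_⟩
  obtain ⟨ρB, hρB, hρB1, hρB2⟩ := WTU_rad C2 α εT nB hC2 hWC.a0 hεT
  refine ⟨ρB, hρB, fun t0 ht0 => ?_⟩
  obtain ⟨ρ, hρ0, hρ1, hρ2, hρ3⟩ : ∃ ρ : ℝ, 0 < ρ ∧ ρ ≤ ρB / 10 ∧ ρ ≤ 1 / 16 ∧ κ * ρ ≤ τ / 4 := by
    refine ⟨min (ρB / 10) (min (1 / 16) (τ / (4 * κ))), by positivity, min_le_left _ _,
      (min_le_right _ _).trans (min_le_left _ _), ?_⟩
    have h3 : min (ρB / 10) (min (1 / 16) (τ / (4 * κ))) ≤ τ / (4 * κ) :=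
      (min_le_right _ _).trans (min_le_right _ _)
    calc κ * min (ρB / 10) (min (1 / 16) (τ / (4 * κ))) ≤ κ * (τ / (4 * κ)) := by gcongr
      _ = τ / 4 := by field_simp
  obtain ⟨J, z, hz1, hz2, hz3⟩ := hK (ρ / 3) (by positivity)
  set μ0 : ℝ := εT / (4 * (J + 1)) with hμ
  have hμ0 : 0 < μ0 := by positivity
  obtain ⟨t1, ε2, ht1, hε2, h3⟩ := h1 ρ μ0 μ0 hρ0 hρ2 hρ3 hμ0 hμ0
  set t : ℝ := min t0 (ρ * t1) with ht
  have ht0' : 0 < t := by positivity
  have htt : t / ρ ≤ t1 := by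
    rw [div_le_iff₀ hρ0, mul_comm]
    exact min_le_right _ _
  refine ⟨t, ε2, ht0', min_le_left _ _, hε2, fun m0 s0 hs0 => ?_⟩
  obtain ⟨m, nm, s, sB, κB, ε3, hm, hs, hs', hsB, hκB, hκB', hε3, h4⟩ :=
    h3 (t / ρ) (by positivity) htt m0 s0 hs0
  refine ⟨m, nm, s, sB, κB, ε3, hm, hs, hs', hsB, hκB, hκB', hε3,
    fun ι c γ n N hc hn hN hγ htb hEB hQR hQA => ?_⟩
  have hTb : Tb U τ ι c κ γ := ⟨hc, hγ, htb⟩
  have hnN : n ≤ N := by omega
  have hd0 : (0 : ℝ) < (d : ℝ) ^ n := by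
    have : 0 < d := by omega
    positivity
  obtain ⟨w, hw⟩ := hEB
  classical
  set B : Set ℂ := ⋃ i, ball (w i) ρB with hB
  set A : Finset (Fin J) := Finset.univ.filter (fun j => Disjoint (ball (z j) (2 * ρ)) B) with hA
  set T2 : Finset (Fin J) := A.filter (fun j => ms f N ι c κ γ 0 (ball (z j) ρ) < ENNReal.ofReal μ0) with hT2
  set S : Finset (Fin J) := A.filter (fun j => ENNReal.ofReal μ0 ≤ ms f N ι c κ γ 0 (ball (z j) ρ)) with hS
  set En : Fin J → ℝ≥0∞ := fun j => ∫⁻ p in P2U.TB 2 (t / ρ), ENNReal.ofReal (P2U.Gd (sP f n ι c κ γ (z j) ρ) (sQ f n ι c κ γ (z j) ρ) p * P2U.om (sP f n ι c κ γ (z j) ρ) (sQ f n ι c κ γ (z j) ρ) p) with hEn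
  have hsum : ∑ j ∈ A, En j ≤ K * (ENNReal.ofReal ((d : ℝ) ^ n) * ENNReal.ofReal (εT / (4 * (C1 * K + 1)))) := by
    have h5 := hWEN d f ι c κ γ n hd hκ hγ B t ρ J K z A (MeasurableSet.iUnion fun i => measurableSet_ball) ht0' hρ0 hρ2 hz1
      (fun j hj => (Finset.mem_filter.1 hj).2) (fun ξ => by
        have := hz3 ξ
        rw [show 6 * (ρ / 3) = 2 * ρ by ring] at this
        exact this)
    refine h5.trans ?_
    gcongr
  have hSA : S ⊆ A := Finset.filter_subset _ _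
  have hsumS : ∑ j ∈ S, En j ≤ ENNReal.ofReal (K * (d : ℝ) ^ n * (εT / (4 * (C1 * K + 1)))) := by
    refine (Finset.sum_le_sum_of_subset hSA).trans (hsum.trans ?_)
    rw [ENNReal.ofReal_mul (by positivity), ENNReal.ofReal_mul (by positivity), ENNReal.ofReal_natCast, mul_assoc]
  have hne : ∀ j ∈ S, En j ≠ ⊤ := fun j hj =>
    ((Finset.single_le_sum (fun i _ => zero_le) hj).trans hsumS |>.trans_lt ENNReal.ofReal_lt_top).ne
  have hE0 : ∀ j ∈ S, En j = ENNReal.ofReal ((d : ℝ) ^ n * ((En j).toReal / (d : ℝ) ^ n)) := by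
    intro j hj
    rw [mul_div_cancel₀ _ hd0.ne', ENNReal.ofReal_toReal (hne j hj)]
  have hreal : ∑ j ∈ S, (En j).toReal / (d : ℝ) ^ n ≤ K * (εT / (4 * (C1 * K + 1))) := by
    rw [← Finset.sum_div, div_le_iff₀ hd0, ← ENNReal.toReal_sum hne]
    refine ENNReal.toReal_le_of_le_ofReal (by positivity) (hsumS.trans ?_)
    apply ENNReal.ofReal_le_ofReal
    apply le_of_eq
    ring
  have hBad : ∀ j ∈ S, ∃ Bad : Set ℂ, MeasurableSet Bad ∧ (∀ ξ ∈ ball (z j) (ρ / 3), ξ ∉ Bad → BP f n ι c κ γ sB κB ξ) ∧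
      ms f N ι c κ γ 0 (Bad ∩ ball (z j) (ρ / 3)) ≤ ENNReal.ofReal (C1 * ((En j).toReal / (d : ℝ) ^ n) + μ0) := by
    intro j hj
    have hzj : ‖z j‖ ≤ 1 / 16 := (hz1 j).trans (by norm_num)
    exact h4 ι c γ n N (z j) ((En j).toReal / (d : ℝ) ^ n) hTb hn hnN hzj (Finset.mem_filter.1 hj).2 hQR hQA (by positivity) (hE0 j hj).le
  choose! Bd hBdm hBdP hBdM using hBad
  set W : Finset (Fin nB) := Finset.univ.filter (fun i => ‖w i‖ ≤ 1 / 4) with hW
  refine ⟨(⋃ i ∈ W, ball (w i) (2 * ρB)) ∪ ((⋃ j ∈ T2, ball (z j) (ρ / 3)) ∪ ⋃ j ∈ S, (Bd j ∩ ball (z j) (ρ / 3))), ?_, ?_, ?_⟩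
  · refine MeasurableSet.union (Finset.measurableSet_biUnion _ fun i _ => measurableSet_ball) (MeasurableSet.union
      (Finset.measurableSet_biUnion _ fun i _ => measurableSet_ball)
      (Finset.measurableSet_biUnion _ fun j hj => (hBdm j hj).inter measurableSet_ball))
  · intro ξ hξ hξB
    obtain ⟨j, hj⟩ := hz2 ξ hξ
    have hξj : ξ ∈ ball (z j) (ρ / 3) := by
      rw [mem_ball, dist_eq_norm]
      exact hj
    have hjA : j ∈ A := by
      rw [hA, Finset.mem_filter]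
      refine ⟨Finset.mem_univ _, ?_⟩
      by_contra hcon
      rw [Set.not_disjoint_iff] at hcon
      obtain ⟨y, hy1, hy2⟩ := hcon
      rw [hB, Set.mem_iUnion] at hy2
      obtain ⟨i, hi⟩ := hy2
      rw [mem_ball, dist_eq_norm] at hy1 hi
      apply hξB
      left
      rw [Set.mem_iUnion₂]
      refine ⟨i, ?_, ?_⟩
      · rw [hW, Finset.mem_filter]
        refine ⟨Finset.mem_univ _, ?_⟩
        have h6 : ‖w i‖ ≤ ‖y - w i‖ + ‖y - z j‖ + ‖z j‖ := by
          have : w i = -(y - w i) + (y - z j) + z j := by ring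
          calc ‖w i‖ = ‖-(y - w i) + (y - z j) + z j‖ := by rw [← this]
            _ ≤ ‖-(y - w i) + (y - z j)‖ + ‖z j‖ := norm_add_le _ _
            _ ≤ ‖-(y - w i)‖ + ‖y - z j‖ + ‖z j‖ := by gcongr; exact norm_add_le _ _
            _ = _ := by rw [norm_neg]
        have := hz1 j
        linarith
      · rw [mem_ball, dist_eq_norm]
        have h6 : ‖ξ - w i‖ ≤ ‖ξ - z j‖ + ‖y - z j‖ + ‖y - w i‖ := by
          have : ξ - w i = (ξ - z j) + -(y - z j) + (y - w i) := by ring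
          calc ‖ξ - w i‖ = ‖(ξ - z j) + -(y - z j) + (y - w i)‖ := by rw [← this]
            _ ≤ ‖(ξ - z j) + -(y - z j)‖ + ‖y - w i‖ := norm_add_le _ _
            _ ≤ ‖ξ - z j‖ + ‖-(y - z j)‖ + ‖y - w i‖ := by gcongr; exact norm_add_le _ _
            _ = _ := by rw [norm_neg]
        linarith
    have hjT : j ∉ T2 := by
      intro hjT
      apply hξB
      right; left
      rw [Set.mem_iUnion₂]
      exact ⟨j, hjT, hξj⟩
    have hjS : j ∈ S := by
      rw [hS, Finset.mem_filter]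
      refine ⟨hjA, ?_⟩
      by_contra hcon
      exact hjT (by rw [hT2, Finset.mem_filter]; exact ⟨hjA, not_le.1 hcon⟩)
    refine hBdP j hjS ξ hξj fun hcon => ?_
    apply hξB
    right; right
    rw [Set.mem_iUnion₂]
    exact ⟨j, hjS, hcon, hξj⟩
  · have hα := hWC.a0
    refine (lintegral_mono_set inter_subset_left).trans ?_
    refine (lintegral_union_le _ _ _).trans ?_
    have hp1 : ∫⁻ ξ in ⋃ i ∈ W, ball (w i) (2 * ρB), ENNReal.ofReal (gt f N ι c κ γ (ξ, 0)) ≤ ENNReal.ofReal (εT / 4) := by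
      refine (WTU_sub W _ _).trans ?_
      calc ∑ j ∈ W, ∫⁻ x in ball (w j) (2 * ρB), ENNReal.ofReal (gt f N ι c κ γ (x, 0))
          ≤ ∑ j ∈ W, ENNReal.ofReal (C2 * (2 * ρB) ^ α) := by
            refine Finset.sum_le_sum fun i hi => ?_
            have h7 := (h2 ι c γ hTb N N 0 0 (by simpa using hτ) (by simpa using hτ)).1 (w i) (2 * ρB)
              (Finset.mem_filter.1 hi).2 (by positivity) (by linarith)
            exact h7.1
        _ ≤ ∑ j : Fin nB, ENNReal.ofReal (C2 * (2 * ρB) ^ α) := Finset.sum_le_sum_of_subset (Finset.filter_subset _ _)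
        _ = ENNReal.ofReal (nB * (C2 * (2 * ρB) ^ α)) := by
            rw [Finset.sum_const, Finset.card_univ, Fintype.card_fin, nsmul_eq_mul, ENNReal.ofReal_mul (p := (nB : ℝ)) (by positivity), ENNReal.ofReal_natCast]
        _ ≤ ENNReal.ofReal (εT / 4) := ENNReal.ofReal_le_ofReal hρB2
    have hJμ : (J : ℝ) * μ0 ≤ εT / 4 := by
      rw [hμ]
      have hJ : (0 : ℝ) ≤ J := Nat.cast_nonneg J
      rw [mul_div_assoc', div_le_div_iff₀ (by positivity) (by norm_num)]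
      nlinarith
    have hp2 : ∫⁻ ξ in ⋃ j ∈ T2, ball (z j) (ρ / 3), ENNReal.ofReal (gt f N ι c κ γ (ξ, 0)) ≤ ENNReal.ofReal (εT / 4) := by
      refine (WTU_sub T2 _ _).trans ?_
      calc ∑ j ∈ T2, ∫⁻ x in ball (z j) (ρ / 3), ENNReal.ofReal (gt f N ι c κ γ (x, 0))
          ≤ ∑ j ∈ T2, ENNReal.ofReal μ0 := by
            refine Finset.sum_le_sum fun j hj => ?_
            refine le_trans ?_ (Finset.mem_filter.1 hj).2.le
            exact lintegral_mono_set (ball_subset_ball (by linarith))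
        _ ≤ ∑ j : Fin J, ENNReal.ofReal μ0 := Finset.sum_le_sum_of_subset (Finset.subset_univ _)
        _ = ENNReal.ofReal (J * μ0) := by
            rw [Finset.sum_const, Finset.card_univ, Fintype.card_fin, nsmul_eq_mul, ENNReal.ofReal_mul (by positivity), ENNReal.ofReal_natCast]
        _ ≤ ENNReal.ofReal (εT / 4) := ENNReal.ofReal_le_ofReal hJμ
    have hp3 : ∫⁻ ξ in ⋃ j ∈ S, (Bd j ∩ ball (z j) (ρ / 3)), ENNReal.ofReal (gt f N ι c κ γ (ξ, 0)) ≤ ENNReal.ofReal (εT / 4 + εT / 4) := by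
      refine (WTU_sub S _ _).trans ?_
      calc ∑ j ∈ S, ∫⁻ x in Bd j ∩ ball (z j) (ρ / 3), ENNReal.ofReal (gt f N ι c κ γ (x, 0))
          ≤ ∑ j ∈ S, ENNReal.ofReal (C1 * ((En j).toReal / (d : ℝ) ^ n) + μ0) := by
            exact Finset.sum_le_sum fun j hj => hBdM j hj
        _ = ENNReal.ofReal (∑ j ∈ S, (C1 * ((En j).toReal / (d : ℝ) ^ n) + μ0)) := by
            rw [ENNReal.ofReal_sum_of_nonneg]
            intro j hj
            positivity
        _ ≤ ENNReal.ofReal (εT / 4 + εT / 4) := by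
            apply ENNReal.ofReal_le_ofReal
            rw [Finset.sum_add_distrib, ← Finset.mul_sum, Finset.sum_const, nsmul_eq_mul]
            have h8 : C1 * ∑ j ∈ S, (En j).toReal / (d : ℝ) ^ n ≤ C1 * (K * (εT / (4 * (C1 * K + 1)))) := by gcongr
            have h9 : C1 * (K * (εT / (4 * (C1 * K + 1)))) ≤ εT / 4 := by
              have hK0 : (0 : ℝ) ≤ K := Nat.cast_nonneg K
              have : C1 * (K * (εT / (4 * (C1 * K + 1)))) = (C1 * K) * εT / (4 * (C1 * K + 1)) := by ring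
              rw [this, div_le_div_iff₀ (by positivity) (by norm_num)]
              nlinarith [mul_nonneg hC1.le hK0]
            have h10 : (S.card : ℝ) * μ0 ≤ J * μ0 := by
              gcongr
              have := Finset.card_le_univ S
              simpa using this
            linarith
    calc _ ≤ ENNReal.ofReal (εT / 4) + (ENNReal.ofReal (εT / 4) + ENNReal.ofReal (εT / 4 + εT / 4)) := by
          refine add_le_add hp1 ((lintegral_union_le _ _ _).trans (add_le_add hp2 hp3))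
      _ = ENNReal.ofReal εT := by
          rw [← ENNReal.ofReal_add (by positivity) (by positivity), ← ENNReal.ofReal_add (by positivity) (by positivity)]
          congr 1
          ring

end Pool.Agent.P2W
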