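import Pool.Agent.helper26.P2.WHO
import Pool.Agent.helper28.P2.WCN
import Pool.Agent.helper26.P2.WDT
import Pool.Agent.helper26.P2.WSC
import Pool.Agent.helper43.P2.WCR
import Pool.Agent.helper48.P2.WM1
import Pool.Agent.helper16.P2.WM2
import Pool.Agent.helper80.P2.WAF
import Pool.Agent.helper3.P2.WIA
import Pool.Agent.helper43.P2.WLG
import Pool.Agent.helper72.P2.WLF
import Pool.Agent.helper34.P2.WSD
import Pool.Agent.helper60.P2.WPA
import Pool.Agent.helper11.P2.WPB
import Pool.Agent.helper52.P2.WPL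
import Pool.Agent.helper2.P2.WP0
import Pool.Agent.helper56.P2.WNN
import Pool.Agent.helper27.P2.WQA
import Pool.Agent.helper15.P2.WSB
import Pool.Agent.helper80.P2.WCH
import Pool.Agent.helper98.P2.WDA
import Pool.Agent.helper80.P2.WDI
import Pool.Agent.helper80.P2.WEN
import Pool.Agent.helper53.P2.WCV
import Pool.Agent.helper56.P2.WTU
import Pool.Agent.helper56.P2.AllU
import Pool.Agent.helper56.P2.AllI
import Pool.Agent.helper15.P2.UN1
import Pool.Agent.helper2.P2.UNH
import Pool.Agent.helper51.P2.CH1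
import Pool.Agent.helper15.P2.IB1
import Pool.Agent.helper49.P2.IBP
import Pool.Agent.helper53.P2.MAU
import Pool.Agent.helper71.P2.STO
import Pool.Agent.helper97.P2.BRA
import Pool.Agent.helper68.P2.BMP

set_option autoImplicit false

/-!
# Project P2 (MP_063734_an), target `TUB` : composition of the rows `W*` (spec `Pool/Agent/helper56/P2/SpecW.lean`)
-/

open Pool.Agent.P2

namespace Pool.Agent.P2W

/-- the target `TUB_stmt`, from the islands (`IS3`, `IS4`) and the thin bands (`BND`) -/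
theorem TUB_of (hIS3 : P2I.IS3_stmt) (hIS4 : P2I.IS4_stmt) (hBND : P2B.BND_stmt) : TUB_stmt := by
  have m1 := WM1 P2I.CH1 P2I.IB1 WHO
  have m2 := WM2 m1
  have ia := WIA (IBP STO MAU) MAU WAF WHO m2
  have lf := WLF WHO m1 WLG
  have sd := WSD hIS3 WHO m1 m2
  have p0 := WP0 P2U.A.R3 WHO m2 ia sd (WPA WHO WSC) (WPB WHO WSC WCR) (WPL m1 lf)
  have nn := WNN P2U.A.UNF (WDT WHO) p0
  have qa := WQA P2B.BMP MAU WAF WHO WCR
  have sb := WSB hIS4 P2I.BRA WHO m1 m2
  have da := WDA hBND WHO (WDT WHO) m1 nn qa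
  have di := WDI da sb WCH
  exact WTU (WCN UN1 (UNH UN1)) m2 di (WEN WHO WSC WCR) WCV

/-- the target `TUB_stmt` -/
theorem TUB : TUB_stmt := TUB_of I.A_IS3 I.A_IS4 I.A_BND

end Pool.Agent.P2W
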