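import Pool.Agent.helper37.P2.DefsD
import Pool.Agent.helper15.P2.SpecD

set_option autoImplicit false
set_option linter.unusedVariables false

/-!
# Project P2 (MP_063734_an): rows `p2:W..`: the local theorem `TUB_stmt` (bands in the tube of one graph)

RULES. Row `p2:WXX` is a file `Pool/Agent/<seat>/P2/WXX.lean`, `import Pool.Agent.helper56.P2.SpecW`, `set_option autoImplicit false`, the open lines of this file, `namespace Pool.Agent.P2W`, `open Pool.Agent.P2`; the EXACT theorem line is in the lock note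
(rows listed after the word from are hypotheses, in this order; unused hypotheses may stay). Auxiliary lemmas have the prefix `WXX_`. No double quotes, no `convert`, `congr!`, `native_decide`. The docstring contains a complete proof. Doubts or a wrong statement: helper56 at once.

NOTATION. A graph `γ` over the disc `(ι, c, κ)`, `gp ι c κ γ (ξ, v)` the point of the tube (`DefsC`), `gP, gQ` the first two components of `It f n (gp ..)`, `gt f N .. (ξ, v)` the density in `ξ` of the law of level `N` on the translate by `v`: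
it is `lap` of `ξ ↦ un f N (gp (ξ, v))`. Small discs: `Sc ξ0 ρ κ (x, w) = (ξ0 + ρ x, κ ρ w)`; `sF` = `It f n` in these coordinates, `sP`, `sQ` its first two components (functions on `TB 4 1` in the notation of `SpecU`). `P2U.cx = w1`, `P2U.cv = w2`, `P2U.om = om` (same formulas; `‖z‖ ^ 2 = normSq z`).

PLAN. `WC` collects the uniform constants (`C0`, `α`); rows WHO WCN WDT WSC WCR: preparations; WM1 WM2: masses; WAF WIA: area of `f^m` on the sheets; WLG WLF: change of the level in `QR`; WSD: small derivative; WP0: the second Manye trick (`UR3`) gives the hypothesis `P0` of `UUNF`; WNN: most points of a small disc are unfolded;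
WQA: area; WSB: short bands; WCH: charts; WDI: one small disc (from `BND` of helper15); WEN WCV: covering; TUB.
-/

open scoped ContDiff Topology ComplexConjugate ENNReal
open MeasureTheory Filter Set Metric MvPolynomial Pool.Agent.helper37.QA

namespace Pool.Agent.P2W

open Pool.Agent.P2

/-- `γ` is a graph over the disc `(ι, c, κ)` with its tube of radius `τ` in `U` -/
structure Tb (U : Set (PP 2)) (τ : ℝ) (ι : Fin 2) (c : ℂ) (κ : ℝ) (γ : ℂ → ℂ) : Prop where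
  hc : ‖c‖ ≤ 2
  hd : DifferentiableOn ℂ γ (ball 0 1)
  tb : ∀ ξ ∈ ball (0 : ℂ) 1, ∀ v ∈ ball (0 : ℂ) τ, gp ι c κ γ (ξ, v) ∈ cone U

/-- the uniform constants, for all graphs over discs of radius `κ` with tube of radius `τ` -/
structure WC {d : ℕ} (f : Endo 2 d) (U : Set (PP 2)) (τ κ C0 α : ℝ) : Prop where
  c1 : 1 ≤ C0
  a0 : 0 < α
  a1 : α ≤ 1
  cd : ∀ M : ℕ, P2B.CD (cone U) (un f M) C0 α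
  bg : ∀ (ι : Fin 2) (c : ℂ) (γ : ℂ → ℂ), Tb U τ ι c κ γ → ∀ ξ ∈ ball (0 : ℂ) 1, ‖γ ξ‖ ≤ C0
  mem : ∀ (ι : Fin 2) (c : ℂ) (γ : ℂ → ℂ), Tb U τ ι c κ γ → ∀ (n : ℕ), ∀ p ∈ P2U.TB 1 τ, It f n (gp ι c κ γ p) ∈ cone U
  nz : ∀ (ι : Fin 2) (c : ℂ) (γ : ℂ → ℂ), Tb U τ ι c κ γ → ∀ (n : ℕ), ∀ p ∈ P2U.TB 1 τ, 0 < pq (It f n (gp ι c κ γ p)) ∧ nq (It f n (gp ι c κ γ p)) ≤ C0 * pq (It f n (gp ι c κ γ p)) ∧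
    |(1 / 2) * Real.log (nq (It f n (gp ι c κ γ p))) - (d : ℝ) ^ n * un f n (gp ι c κ γ p)| ≤ C0 ∧ |un f n (gp ι c κ γ p)| ≤ C0
  lv : ∀ (ι : Fin 2) (c : ℂ) (γ : ℂ → ℂ), Tb U τ ι c κ γ → ∀ (n N : ℕ), n ≤ N → ∀ p ∈ P2U.TB 1 τ, |un f N (gp ι c κ γ p) - un f n (gp ι c κ γ p)| ≤ C0 / (d : ℝ) ^ n
  ho : ∀ (ι : Fin 2) (c : ℂ) (γ : ℂ → ℂ), Tb U τ ι c κ γ → ∀ (n : ℕ), ∀ p ∈ P2U.TB (3 / 4) τ, ∀ p' ∈ P2U.TB (3 / 4) τ, |un f n (gp ι c κ γ p) - un f n (gp ι c κ γ p')| ≤ C0 * ‖p - p'‖ ^ α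

/-- coordinates of a small disc -/
def Sc (ξ0 : ℂ) (ρ κ : ℝ) (p : ℂ × ℂ) : ℂ × ℂ := (ξ0 + ρ * p.1, κ * (ρ * p.2))

/-- `f^n` in the coordinates of a small disc -/
noncomputable def sF {d : ℕ} (f : Endo 2 d) (n : ℕ) (ι : Fin 2) (c : ℂ) (κ : ℝ) (γ : ℂ → ℂ) (ξ0 : ℂ) (ρ : ℝ) (p : ℂ × ℂ) : E3 := It f n (gp ι c κ γ (Sc ξ0 ρ κ p))

/-- its first component -/
noncomputable abbrev sP {d : ℕ} (f : Endo 2 d) (n : ℕ) (ι : Fin 2) (c : ℂ) (κ : ℝ) (γ : ℂ → ℂ) (ξ0 : ℂ) (ρ : ℝ) : ℂ × ℂ → ℂ := fun p => sF f n ι c κ γ ξ0 ρ p 0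

/-- its second component -/
noncomputable abbrev sQ {d : ℕ} (f : Endo 2 d) (n : ℕ) (ι : Fin 2) (c : ℂ) (κ : ℝ) (γ : ℂ → ℂ) (ξ0 : ℂ) (ρ : ℝ) : ℂ × ℂ → ℂ := fun p => sF f n ι c κ γ ξ0 ρ p 1

/-- mass of level `N` of the graph `γ` on the disc `ball z r` of the parameter `ξ` -/
noncomputable def ms {d : ℕ} (f : Endo 2 d) (N : ℕ) (ι : Fin 2) (c : ℂ) (κ : ℝ) (γ : ℂ → ℂ) (v : ℂ) (S : Set ℂ) : ℝ≥0∞ :=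
  ∫⁻ ξ in S, ENNReal.ofReal (gt f N ι c κ γ (ξ, v))

/-! ### Preparations -/

/-- Row WHO (short). Holomorphy. Proof: `gp` has the components `1`, `c + κ ξ`, `γ ξ + v`, analytic on `‖ξ‖ < 1` (`γ` is holomorphic on an open set); `It f n = pmap (iter f.F n)` is polynomial (`MvPolynomial` evaluations are analytic). `Sc` is affine; `‖ξ0 + ρ x‖ ≤ 1/16 + 4/16 < 1`. -/
def WHO_stmt : Prop :=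
  ∀ (d : ℕ) (f : Endo 2 d) (ι : Fin 2) (c : ℂ) (κ : ℝ) (γ : ℂ → ℂ) (n : ℕ), DifferentiableOn ℂ γ (ball 0 1) →
    AnalyticOnNhd ℂ (fun p => It f n (gp ι c κ γ p)) {p : ℂ × ℂ | ‖p.1‖ < 1} ∧
    ∀ (ξ0 : ℂ) (ρ : ℝ), ‖ξ0‖ ≤ 1 / 16 → 0 < ρ → ρ ≤ 1 / 16 → AnalyticOnNhd ℂ (sF f n ι c κ γ ξ0 ρ) {p : ℂ × ℂ | ‖p.1‖ < 4}

/-- Row WCN (medium; from UN1 UNH). Uniform constants. Proof. `cd`: `cone U` is open and a cone (`cone_open`, `cone_smul`); `nn`: `UN1` (3) with `n = 0` (`It f 0 Z = Z`); `sm`: `un f M` is `(1/2) log pq (It f M Z)/d^M`, `pq > 0` polynomial in the real and imaginary parts; `ps`: `log(|P|²+|Q|²)` of holomorphic `P, Q` without common zero is plurisubharmonic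
(`lap log(|P|²+|Q|²) = |QP'-PQ'|²/(|P|²+|Q|²)²` on each complex line); `hg`: `It f M` is homogeneous of degree `d^M` (`pmap_smul`, `iter_hom`); `bd`: `UN1` (1) with `n = 0`; `ho`: `UNH`. `mem`: `f(closure U) ⊆ U`, iterate (`map_toPP`). `nz`: `gp ..` is in `cone U`; `UN1` (3), (4); `un`: `UN1` (2) and `1 ≤ nq (gp ..) ≤ C`: one component is `1`, another
is `x = c + κ ξ`, `|x| ≤ 3`, and the third has `|γ ξ + v|² ≤ nq ≤ C pq ≤ 10 C`; this also gives `bg` (`v = 0`). `lv`: `UN1` (1). `ho`: `‖γ' ‖ ≤ 4 C0` on `ball 0 (3/4)` (Cauchy estimate), so `‖gp p - gp p'‖ ≤ C1 ‖p - p'‖`, `‖gp p‖ ≥ 1`: `UNH` if `C1 ‖p - p'‖ ≤ 1/2`, otherwise use `|un| ≤ C`. Take `C0` = the maximum of the finitely many constants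
(`C/d^n ≤ C0/d^n` etc.; `α` is the one of `UNH`). -/
def WCN_stmt : Prop :=
  ∀ (d : ℕ) (f : Endo 2 d) (U : Set (PP 2)), 2 ≤ d → Good0 f U → ∀ τ κ : ℝ, 0 < τ → 0 < κ → κ ≤ 1 / 10 → ∃ C0 α : ℝ, WC f U τ κ C0 α

/-- Row WDT (short to medium; from WHO). Proof: `hol`: WHO and `WC.nz`. `hoe`: `‖Sc p - Sc p'‖ ≤ ‖p - p'‖` (`ρ, κ ρ ≤ 1`) and `Sc p ∈ TB (3/4) τ`. `app`: `log(‖P‖²+‖Q‖²)/2 = d^n un f n (gp (Sc p))` by definition of `un`, `pq`. -/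
def WDT_stmt : Prop :=
  ∀ (d : ℕ) (f : Endo 2 d) (U : Set (PP 2)), 2 ≤ d → ∀ τ κ C0 α : ℝ, 0 < τ → 0 < κ → κ ≤ 1 / 10 → WC f U τ κ C0 α → ∀ (ι : Fin 2) (c : ℂ) (γ : ℂ → ℂ), Tb U τ ι c κ γ →
    ∀ (n : ℕ) (ξ0 : ℂ) (ρ : ℝ), ‖ξ0‖ ≤ 1 / 16 → 0 < ρ → ρ ≤ 1 / 16 → κ * ρ ≤ τ →
      P2U.Dat (sP f n ι c κ γ ξ0 ρ) (sQ f n ι c κ γ ξ0 ρ) (fun p => un f n (gp ι c κ γ (Sc ξ0 ρ κ p))) ((d : ℝ) ^ n) C0 α 1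

/-- Row WSC (short to medium). Scaling. Proof: chain rule for the affine map `S p = (ξ0 + a p.1, b p.2)`: `dx (P ∘ S) = a (dx P) ∘ S`, `dv (P ∘ S) = b (dv P) ∘ S`, so `cx`, `cv` are multiplied by `a`, `b`. If `a = b`: `ef` is multiplied by `a`, `fderiv (cv ..) (ef ..)` by `a³`, `nn` by `a⁴`, and `Gd = |nn|²/(|cx|²+|cv|²)²` by
`a⁸/a⁴`. (Near `p` the functions are analytic; the formulas for `cx`, `cv` hold in a neighbourhood of `p`.) -/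
def WSC_stmt : Prop :=
  ∀ (P Q : ℂ × ℂ → ℂ) (ξ0 : ℂ) (a b : ℝ) (p : ℂ × ℂ), 0 < a → 0 < b → AnalyticAt ℂ P (ξ0 + a * p.1, b * p.2) → AnalyticAt ℂ Q (ξ0 + a * p.1, b * p.2) →
    P2U.cx (fun p => P (ξ0 + a * p.1, b * p.2)) (fun p => Q (ξ0 + a * p.1, b * p.2)) p = a * w1 P Q (ξ0 + a * p.1, b * p.2) ∧
    P2U.cv (fun p => P (ξ0 + a * p.1, b * p.2)) (fun p => Q (ξ0 + a * p.1, b * p.2)) p = b * w2 P Q (ξ0 + a * p.1, b * p.2) ∧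
    P2U.om (fun p => P (ξ0 + a * p.1, b * p.2)) (fun p => Q (ξ0 + a * p.1, b * p.2)) p = om P Q (ξ0 + a * p.1, b * p.2) ∧
    (a = b → P2U.Gd (fun p => P (ξ0 + a * p.1, b * p.2)) (fun p => Q (ξ0 + a * p.1, b * p.2)) p = a ^ 4 * P2U.Gd P Q (ξ0 + a * p.1, b * p.2))

/-- Row WCR (short). Change of variables under an affine homeomorphism of `ℂ × ℂ` (no measurability needed: `MeasurableEquiv`, `lintegral_map_equiv`, and the image of the Lebesgue measure; or two one variable steps for the product measure). -/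
def WCR_stmt : Prop :=
  ∀ (g : ℂ × ℂ → ℝ≥0∞) (ξ0 : ℂ) (a b : ℝ), 0 < a → 0 < b → ∫⁻ p : ℂ × ℂ, g (ξ0 + a * p.1, b * p.2) = ENNReal.ofReal ((a ^ 2 * b ^ 2)⁻¹) * ∫⁻ q : ℂ × ℂ, g q

/-! ### Masses -/

/-- Row WM1 (medium; from CH1 IB1 WHO). Integration by parts. Proof: for fixed `v` put `P = gP (·, v)`, `Q = gQ (·, v)`: holomorphic on the unit disc without common zero; `un f N (gp (ξ, v)) = Up P Q ξ/d^N`, `w1 (ξ, v) = Wr P Q ξ` (the derivative of the slice), so by `CH1` (2) `lap (un ..) = sph/(2 d^N) = gt`. Then `IB1` with `Ω = ball 0 1`. Same in the variable `v` with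
`Ω = ball 0 τ`. Continuity: `w1`, `om` are continuous on `TB 1 τ` (WHO, `WC.nz`). -/
def WM1_stmt : Prop :=
  ∀ (d : ℕ) (f : Endo 2 d) (U : Set (PP 2)), 2 ≤ d → ∀ τ κ C0 α : ℝ, 0 < τ → 0 < κ → κ ≤ 1 / 10 → WC f U τ κ C0 α → ∀ (ι : Fin 2) (c : ℂ) (γ : ℂ → ℂ), Tb U τ ι c κ γ → ∀ N : ℕ,
    (∀ v ∈ ball (0 : ℂ) τ, (∀ ξ ∈ ball (0 : ℂ) 1, gt f N ι c κ γ (ξ, v) = lap (fun ξ => un f N (gp ι c κ γ (ξ, v))) ξ) ∧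
      ContDiffOn ℝ ∞ (fun ξ => un f N (gp ι c κ γ (ξ, v))) (ball 0 1) ∧
      ∀ χ : ℂ → ℝ, ContDiff ℝ ∞ χ → HasCompactSupport χ → tsupport χ ⊆ ball 0 1 → ∫ ξ, χ ξ * gt f N ι c κ γ (ξ, v) = ∫ ξ, lap χ ξ * un f N (gp ι c κ γ (ξ, v))) ∧
    (∀ ξ ∈ ball (0 : ℂ) 1, ∀ χ : ℂ → ℝ, ContDiff ℝ ∞ χ → HasCompactSupport χ → tsupport χ ⊆ ball 0 τ →
      ∫ v, χ v * ((1 / 2) * Complex.normSq (w2 (gP f N ι c κ γ) (gQ f N ι c κ γ) (ξ, v)) * om (gP f N ι c κ γ) (gQ f N ι c κ γ) (ξ, v) / (d : ℝ) ^ N) = ∫ v, lap χ v * un f N (gp ι c κ γ (ξ, v))) ∧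
    ContinuousOn (gt f N ι c κ γ) (P2U.TB 1 τ) ∧ (∀ p, 0 ≤ gt f N ι c κ γ p)

/-- Row WM2 (medium; from WM1). Bounds of masses. Proof. Fix a smooth `b0`, `0 ≤ b0 ≤ 1`, `1` on the unit disc, support in `ball 0 2` (e.g. `b0 s = bmp (s/2)`), `c0 = ∫ |lap b0|`; for `χ ξ = b0 ((ξ-z)/r)`: `∫ |lap χ| = c0` (scaling) and `χ = 1` on `ball z r`, support in `ball z (2r) ⊆ ball 0 (1/2)`. (1) `∫ χ gt = ∫ lap χ (un - un(z))` (`∫ lap χ = 0`), `|un - un(z)| ≤ C0 (2r)^α`.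
(2) `∫ χ gt_N(·,v) - ∫ χ gt_n(·,v') = ∫ lap χ (u_N(·,v) - u_n(·,v'))`, `|u_N(ξ,v) - u_n(ξ,v')| ≤ |u_N(ξ,v) - u_N(ξ,v')| + |u_N(ξ,v') - u_n(ξ,v')| ≤ C0 ‖v-v'‖^α + C0 (d^(-n) + d^(-N))` (`lv` for the smaller of the two). (3), (4): a fixed cut-off which is `1` on `ball 0 (9/10)`, support in `ball 0 1`, and `|un| ≤ C0`; in `v` the same cut-off at the scale `τ`. -/
def WM2_stmt : Prop :=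
  ∀ (d : ℕ) (f : Endo 2 d) (U : Set (PP 2)), 2 ≤ d → ∀ τ κ C0 α : ℝ, 0 < τ → 0 < κ → κ ≤ 1 / 10 → WC f U τ κ C0 α → ∃ C : ℝ, 0 < C ∧ ∀ (ι : Fin 2) (c : ℂ) (γ : ℂ → ℂ), Tb U τ ι c κ γ →
    ∀ (n N : ℕ) (v v' : ℂ), ‖v‖ < τ → ‖v'‖ < τ →
      (∀ (z : ℂ) (r : ℝ), ‖z‖ ≤ 1 / 4 → 0 < r → r ≤ 1 / 8 → ms f N ι c κ γ v (ball z r) ≤ ENNReal.ofReal (C * r ^ α) ∧
        ms f N ι c κ γ v (ball z r) ≤ ms f n ι c κ γ v' (ball z (2 * r)) + ENNReal.ofReal (C * (1 / (d : ℝ) ^ n + 1 / (d : ℝ) ^ N + ‖v - v'‖ ^ α))) ∧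
      ms f N ι c κ γ v (ball 0 (9 / 10)) ≤ ENNReal.ofReal C ∧
      ∀ ξ ∈ ball (0 : ℂ) (9 / 10), ∫⁻ v in ball (0 : ℂ) (9 / 10 * τ), ENNReal.ofReal ((1 / 2) * Complex.normSq (w2 (gP f N ι c κ γ) (gQ f N ι c κ γ) (ξ, v)) * om (gP f N ι c κ γ) (gQ f N ι c κ γ) (ξ, v) / (d : ℝ) ^ N) ≤ ENNReal.ofReal C

/-! ### The area of `f^m` on the sheets -/

/-- Row WAF (short to medium). Proof: `h(t) = G(p + t a)` is holomorphic near `0`, `h(0) = G p`, `h'(0) = G'(p) a`; `lap log nq(h) = (nq(h) nq(h') - |⟨h', h⟩|²)/nq(h)²` (derivatives of `nq (h t) = ∑ |h_i|²`), and Lagrange's identity `nq v nq w - |⟨v,w⟩|² = nq (crs v w)` in `ℂ³`. -/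
def WAF_stmt : Prop :=
  ∀ (G : ℂ × ℂ → E3) (p : ℂ × ℂ), AnalyticAt ℂ G p → G p ≠ 0 → ContDiffAt ℝ ∞ (fun q => (1 / 2) * Real.log (nq (G q))) p ∧
    ∀ a : ℂ × ℂ, lev (fun q => (1 / 2) * Real.log (nq (G q))) p a = nq (crs (G p) (fderiv ℂ G p a)) / (2 * nq (G p) ^ 2)

/-- Row WIA (medium; from IBP MAU WAF WHO WM2). Bounded area. Proof. `Ω = TB 1 τ`, `P = gP f n`, `Q = gQ f n`, `A = (1/2) log nq (It f m (gp ..))`, `A' = (d^m/d^n) (1/2) log (|P|²+|Q|²) = d^m un f n (gp ..)`; `lev A p a = Af f m .. p a/2` (WAF). Cut-off `k(ξ,v) = χ₁(ξ) χ₂(v)`, `χ₁ = 1` on `ball 0 (1/2)`, support in `ball 0 (3/4)`, `χ₂ = 1` on `ball 0 (τ/2)`, support in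
`ball 0 (3τ/4)`. `IBP` for `A` and for `A'` (`lev A' (ev) = 0` by `MAU` (3)): `∫ k lev A (ev) om = ∫ (A - A') lev k (ev) om`, `|A - A'| ≤ |A - d^m un f m| + d^m |un f m - un f n| ≤ 2 C0`. `|lev k (ev)| ≤ C (|w1|² + |w2|²)` (`lev k p` is a Hermitian form with bounded coefficients, `ev = (-w2, w1)`), zero outside the support, and
`∫_(TB (3/4) (3τ/4)) (|w1|²+|w2|²) om ≤ C d^n` by WM2 (3), (4) and Tonelli. -/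
def WIA_stmt : Prop :=
  ∀ (d : ℕ) (f : Endo 2 d) (U : Set (PP 2)), 2 ≤ d → ∀ τ κ C0 α : ℝ, 0 < τ → 0 < κ → κ ≤ 1 / 10 → WC f U τ κ C0 α → ∃ C : ℝ, 0 < C ∧ ∀ (ι : Fin 2) (c : ℂ) (γ : ℂ → ℂ), Tb U τ ι c κ γ → ∀ m n : ℕ, m ≤ n →
    ∫⁻ p in P2U.TB (1 / 2) (τ / 2), ENNReal.ofReal (Af f m ι c κ γ p (ev (gP f n ι c κ γ) (gQ f n ι c κ γ) p) * om (gP f n ι c κ γ) (gQ f n ι c κ γ) p / (d : ℝ) ^ n) ≤ ENNReal.ofReal C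

/-! ### Change of the level in `QR` -/

/-- Row WLG (medium). One variable. Proof. `tsupport χ ⊆ closedBall 0 r`, `r < 1` (compactness; if `tsupport χ` is empty nothing to prove). Cauchy estimates: each component has `|H_i| ≤ M^(1/2)`, so `|H_i'| ≤ M^(1/2)/(1-r)`, `nq(H') ≤ K M/(1-r)²` on `closedBall 0 r`. `g = log nq H` is smooth, `lap g = (nq H nq H' - |⟨H',H⟩|²)/nq(H)² ∈ [0, nq(H')/c]`, the gradient has modulus `≤ 2 (nq H')^(1/2)/(nq H)^(1/2)`, and `|g| ≤ |log c| + |log M|`.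
`lap(χ g) = χ lap g + g lap χ + (1/2)(χ_x g_x + χ_y g_y)`. All terms are bounded on `tsupport χ` by constants depending on `χ, K, c, M`, and vanish outside. -/
def WLG_stmt : Prop :=
  ∀ χ : ℂ → ℝ, ContDiff ℝ ∞ χ → HasCompactSupport χ → tsupport χ ⊆ ball 0 1 → ∀ (K : ℕ) (c M : ℝ), 0 < c → ∃ C : ℝ, 0 < C ∧ ∀ H : ℂ → Fin K → ℂ, DifferentiableOn ℂ H (ball 0 1) → (∀ z ∈ ball (0 : ℂ) 1, c ≤ nq (H z) ∧ nq (H z) ≤ M) →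
    ContDiff ℝ ∞ (fun z => χ z * Real.log (nq (H z))) ∧ ∫ z, |lap (fun z => χ z * Real.log (nq (H z))) z| ≤ C

/-- Row WLF (medium; from WHO WM1 WLG). Proof. `G = It f m (gp ..)`, `Lf = log S1 - log S2`, `S1 = nq(crs G G_ξ) + nq(crs G G_v) + e^(-Λ) nq(G)²`, `S2 = nq(crs G G_ξ) + e^(-Λ) nq(G)²` (multiply numerator and denominator by `nq(G)²`; `Af p (1,0) = nq(crs G G_ξ)/nq(G)²` etc.). For fixed `v`, `|v| < τ/2`, both are `nq` of holomorphic vectors in `ξ` (components of `crs G G_ξ`, of `crs G G_v`, and `e^(-Λ/2) G_i G_j`: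
`nq(G)² = ∑ |G_i G_j|²`). On `ball 0 (9/10)`: `nq G ≥ pq G = exp(2 d^m un f m) ≥ exp(-2 C0 d^m)`, `nq G ≤ C0 exp(2 C0 d^m)`, and `|G_ξ|`, `|G_v|` are bounded by Cauchy estimates (radius `1/10` in `ξ`, `τ/2` in `v`): bounds `c, M` depending on `m, Λ, C0, τ, d` only. Continuity and `0 ≤ Lf`: clear. WLG on the rescaled disc `ξ = (9/10) z` with `χ z = eta ((9/10) z)^2`
(`eta` is supported in `|ξ|² ≤ 5/8 < (9/10)²`), so `g = eta² Lf(·,v)` is smooth with compact support in the unit disc and `∫ |lap g| ≤ C`. WM1 for `χ = g`: the difference is `∫ lap g (u_N - u_n)`, `|u_N - u_n| ≤ C0/d^n`. -/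
def WLF_stmt : Prop :=
  ∀ (d : ℕ) (f : Endo 2 d) (U : Set (PP 2)), 2 ≤ d → ∀ τ κ C0 α : ℝ, 0 < τ → 0 < κ → κ ≤ 1 / 10 → WC f U τ κ C0 α → ∀ (Λ : ℝ) (m : ℕ), ∃ C : ℝ, 0 < C ∧ ∀ (ι : Fin 2) (c : ℂ) (γ : ℂ → ℂ), Tb U τ ι c κ γ →
    ContinuousOn (Lf f m Λ ι c κ γ) (P2U.TB 1 τ) ∧ (∀ p ∈ P2U.TB 1 τ, 0 ≤ Lf f m Λ ι c κ γ p) ∧ ∀ n N : ℕ, n ≤ N → ∀ v : ℂ, ‖v‖ < τ / 2 →
      |(∫ ξ, eta ξ ^ 2 * (Lf f m Λ ι c κ γ (ξ, v) * gt f N ι c κ γ (ξ, v))) - ∫ ξ, eta ξ ^ 2 * (Lf f m Λ ι c κ γ (ξ, v) * gt f n ι c κ γ (ξ, v))| ≤ C / (d : ℝ) ^ n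

/-! ### One small disc: unfolded points -/

/-- Row WSD (medium; from IS3 WHO WM1 WM2). Small derivative. Proof. Disc `ξ = ξ0 + 4ρ x`, `|x| < 1`; `P(x) = gP f m (ξ, v)`, `Q` likewise, `V(x) = d^m un f n (gp (ξ, v))`, `E = C0 d^m`, `B = C0`: `Up P Q = d^m un f m`, `|Up| ≤ E`, `|V - Up| ≤ d^m C0/d^m`, `lap V (x) = 16 ρ² d^m gt f n (ξ,v) ≥ 0` (WM1), `sph P Q x = 32 ρ² d^m gt f m (ξ,v)`.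
WM2 (2) (levels `N, m`; translates `0, v`; `z = ξ0`, `r = ρ`): `μ0 ≤ ms f m v (ball ξ0 (2ρ)) + C(d^(-m) + d^(-N) + |v|^α)`, so for `m ≥ m1`, `|v| < s1` the last term is `≤ μ0/2` and `∫_(|x| < 1/2) sph = 2 d^m ms f m v (ball ξ0 (2ρ)) ≥ d^m μ0 ≥ 4`. `Af f m (ξ,v) (1,0) ≥ |w1|²/nq(G)² ≥ |w1|²/(C0² pq²) = sph/(16 ρ² C0²)` (the third component of
`crs G G_ξ` is `-w1`). So `ρ² Af ≤ h d^m` implies `sph ≤ 16 C0² h d^m = η E`, `η = 16 C0 h`. As `d^m ≤ h⁻⁶` and `m ≥ m1`, `h` is small: `η ≤ 1/16`, `log(1/η) ≥ (1/2) log(1/h)`, `log(1/η) ≤ log(1/h) ≤ E` (`h⁻⁵ ≤ d^m`). `IS3`: `∫_(|x| < 3/4, sph ≤ ηE) lap V ≤ C (1 + C0) C0 d^m/log(1/η)`; the left side is `d^m` times the integral of `gt f n` over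
`|ξ - ξ0| < 3ρ`, `sph ≤ η E`. -/
def WSD_stmt : Prop :=
  ∀ (d : ℕ) (f : Endo 2 d) (U : Set (PP 2)), 2 ≤ d → ∀ τ κ C0 α : ℝ, 0 < τ → 0 < κ → κ ≤ 1 / 10 → WC f U τ κ C0 α → ∃ C : ℝ, 0 < C ∧ ∀ ρ μ0 : ℝ, 0 < ρ → ρ ≤ 1 / 16 → 0 < μ0 → ∃ (m1 : ℕ) (s1 : ℝ), 0 < s1 ∧
    ∀ (m n N : ℕ) (h : ℝ), m1 ≤ m → m ≤ n → m ≤ N → 0 < h → h⁻¹ ^ 5 ≤ (d : ℝ) ^ m → (d : ℝ) ^ m ≤ h⁻¹ ^ 6 → ∀ (ι : Fin 2) (c : ℂ) (γ : ℂ → ℂ) (ξ0 v : ℂ), Tb U τ ι c κ γ → ‖ξ0‖ ≤ 1 / 16 →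
      ENNReal.ofReal μ0 ≤ ms f N ι c κ γ 0 (ball ξ0 ρ) → ‖v‖ < s1 → ‖v‖ < τ →
        ms f n ι c κ γ v {ξ | ‖ξ - ξ0‖ < 2 * ρ ∧ ρ ^ 2 * Af f m ι c κ γ (ξ, v) (1, 0) ≤ h * (d : ℝ) ^ m} ≤ ENNReal.ofReal (C / Real.log (1 / h))

/-- the region `‖ξ - ξ0‖ < 2ρ`, `‖v‖ < s` -/
def RG (ξ0 : ℂ) (ρ s : ℝ) : Set (ℂ × ℂ) := {q | ‖q.1 - ξ0‖ < 2 * ρ ∧ ‖q.2‖ < s}

/-- Row WPA (medium; from WHO WSC). Pointwise inequalities. Notation: `G = It f m (gp ..)`, `q = Sc ξ0 ρ κ p`, `N(a) = (Af f m q a)^(1/2) = nq(crs (G q) (G'(q) a))^(1/2)/nq(G q)`: a seminorm in `a` (`nq^(1/2)` is the Euclidean norm, `crs (G q)` and `G'(q)` are linear; `N(z a) = |z| N(a)`). Proof. WSC (`a = ρ`, `b = κρ`; `Sc` unfolds to this form up to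
associativity): `cx = ρ w1`, `cv = κρ w2` at `q`. (1) `N(ρ,0) |cv| = N(ρ cv, 0) ≤ N(ρ cv, -κρ cx) + N(0, κρ cx)`, `(ρ cv, -κρ cx) = κρ² (w2, -w1) = -κρ² ev`; so `N(ρ,0) (|cx|²+|cv|²)^(1/2) ≤ N(ρ,0)(|cx| + |cv|) ≤ κρ² N(ev) + |cx| (N(ρ,0) + N(0,κρ))`. (2) If `x = ρ N(1,0) ≥ 1`, `y = κρ N(0,1)`: `(x+y+1)² ≤ (2x+y)² ≤ 8x² + 2y²`,
divided by `x²`: `≤ 8 + 2 κ² Af(0,1)/Af(1,0) ≤ 8 (Af(1,0)+Af(0,1))/Af(1,0)`; `Af(1,0) ≥ x² ≥ 1 ≥ e^(-Λ)` (`ρ ≤ 1`), so `(Af(1,0)+Af(0,1))/Af(1,0) ≤ 2 (Af(1,0)+Af(0,1)+e^(-Λ))/(Af(1,0)+e^(-Λ))`. Logarithm. -/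
def WPA_stmt : Prop :=
  ∀ (d : ℕ) (f : Endo 2 d) (U : Set (PP 2)), 2 ≤ d → ∀ τ κ C0 α : ℝ, 0 < τ → 0 < κ → κ ≤ 1 / 10 → WC f U τ κ C0 α → ∀ (ι : Fin 2) (c : ℂ) (γ : ℂ → ℂ) (m n : ℕ) (ξ0 : ℂ) (ρ : ℝ) (p : ℂ × ℂ), Tb U τ ι c κ γ → ‖ξ0‖ ≤ 1 / 16 → 0 < ρ → ρ ≤ 1 / 16 → κ * ρ ≤ τ / 4 → p ∈ P2U.TB 4 1 →
    Real.sqrt (ρ ^ 2 * Af f m ι c κ γ (Sc ξ0 ρ κ p) (1, 0)) * Real.sqrt (‖P2U.cx (sP f n ι c κ γ ξ0 ρ) (sQ f n ι c κ γ ξ0 ρ) p‖ ^ 2 + ‖P2U.cv (sP f n ι c κ γ ξ0 ρ) (sQ f n ι c κ γ ξ0 ρ) p‖ ^ 2) ≤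
      κ * ρ ^ 2 * Real.sqrt (Af f m ι c κ γ (Sc ξ0 ρ κ p) (ev (gP f n ι c κ γ) (gQ f n ι c κ γ) (Sc ξ0 ρ κ p))) +
        ‖P2U.cx (sP f n ι c κ γ ξ0 ρ) (sQ f n ι c κ γ ξ0 ρ) p‖ * (Real.sqrt (ρ ^ 2 * Af f m ι c κ γ (Sc ξ0 ρ κ p) (1, 0)) + Real.sqrt (κ ^ 2 * ρ ^ 2 * Af f m ι c κ γ (Sc ξ0 ρ κ p) (0, 1))) ∧
    ‖P2U.cx (sP f n ι c κ γ ξ0 ρ) (sQ f n ι c κ γ ξ0 ρ) p‖ ^ 2 = ρ ^ 2 * Complex.normSq (w1 (gP f n ι c κ γ) (gQ f n ι c κ γ) (Sc ξ0 ρ κ p)) ∧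
    P2U.om (sP f n ι c κ γ ξ0 ρ) (sQ f n ι c κ γ ξ0 ρ) p = om (gP f n ι c κ γ) (gQ f n ι c κ γ) (Sc ξ0 ρ κ p) ∧
    ∀ Λ : ℝ, 0 ≤ Λ → 1 ≤ ρ ^ 2 * Af f m ι c κ γ (Sc ξ0 ρ κ p) (1, 0) →
      Real.log ((Real.sqrt (ρ ^ 2 * Af f m ι c κ γ (Sc ξ0 ρ κ p) (1, 0)) + Real.sqrt (κ ^ 2 * ρ ^ 2 * Af f m ι c κ γ (Sc ξ0 ρ κ p) (0, 1)) + 1) ^ 2 / (ρ ^ 2 * Af f m ι c κ γ (Sc ξ0 ρ κ p) (1, 0))) ≤
        Real.log 16 + Lf f m Λ ι c κ γ (Sc ξ0 ρ κ p)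

/-- Row WPB (short to medium; from WHO WSC WCR). Change of variables. Proof: WCR (`a = ρ`, `b = κρ`) for the indicator of `RG ξ0 ρ (κρh)` times `ρ² |w1|² om g` (`p ∈ TB 2 h` iff `Sc p ∈ RG`), WSC on `TB 2 h`, and `|w1|² om = 2 d^n gt` (definition of `ta1`): the factor is `ρ² · 2 d^n/(ρ² (κρ)²)`. Second part: Tonelli on the product `ball ξ0 (2ρ) × ball 0 s`
(`gt` is continuous there, `WC.nz`). -/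
def WPB_stmt : Prop :=
  ∀ (d : ℕ) (f : Endo 2 d) (U : Set (PP 2)), 2 ≤ d → ∀ τ κ C0 α : ℝ, 0 < τ → 0 < κ → κ ≤ 1 / 10 → WC f U τ κ C0 α → ∀ (ι : Fin 2) (c : ℂ) (γ : ℂ → ℂ) (n : ℕ) (ξ0 : ℂ) (ρ h : ℝ), Tb U τ ι c κ γ → ‖ξ0‖ ≤ 1 / 16 → 0 < ρ → ρ ≤ 1 / 16 → κ * ρ ≤ τ / 4 → 0 < h → h ≤ 1 →
    (∀ g : ℂ × ℂ → ℝ≥0∞, ∫⁻ p in P2U.TB 2 h, ENNReal.ofReal (‖P2U.cx (sP f n ι c κ γ ξ0 ρ) (sQ f n ι c κ γ ξ0 ρ) p‖ ^ 2 * P2U.om (sP f n ι c κ γ ξ0 ρ) (sQ f n ι c κ γ ξ0 ρ) p) * g (Sc ξ0 ρ κ p) =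
      ENNReal.ofReal (2 * (d : ℝ) ^ n / (κ * ρ) ^ 2) * ∫⁻ q in RG ξ0 ρ (κ * ρ * h), ENNReal.ofReal (gt f n ι c κ γ q) * g q) ∧
    ∀ g : ℂ × ℂ → ℝ≥0∞, Measurable g → ∫⁻ q in RG ξ0 ρ (κ * ρ * h), ENNReal.ofReal (gt f n ι c κ γ q) * g q = ∫⁻ v in ball (0 : ℂ) (κ * ρ * h), ∫⁻ ξ in ball ξ0 (2 * ρ), ENNReal.ofReal (gt f n ι c κ γ (ξ, v)) * g (ξ, v)

/-- Row WPL (short to medium; from WM1 WLF). Proof. `eta = 1` on `‖ξ‖ < 1/2` which contains `ball ξ0 (2ρ)`, `0 ≤ eta² Lf gt`: for every `v`, `‖v‖ < 4s ≤ τ/2`, the inner integral over `ball ξ0 (2ρ)` is at most `∫ eta² Lf gt f n ≤ ∫ eta² Lf gt f N + C/d^n` (WLF); Tonelli; the area of `ball 0 s` is `π s²`; and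
`∫_(‖v‖ < s) ∫ eta² Lf gt f N ≤ ∫_(‖v‖ < 4s) .. = 16 s² QR(4s)`. (All functions are continuous on `TB 1 τ`, and `eta` has compact support in the unit disc: Bochner and lower integrals agree.) -/
def WPL_stmt : Prop :=
  ∀ (d : ℕ) (f : Endo 2 d) (U : Set (PP 2)), 2 ≤ d → ∀ τ κ C0 α : ℝ, 0 < τ → 0 < κ → κ ≤ 1 / 10 → WC f U τ κ C0 α → ∀ (Λ : ℝ) (m : ℕ), ∃ C : ℝ, 0 < C ∧ ∀ (ι : Fin 2) (c : ℂ) (γ : ℂ → ℂ) (n N : ℕ) (ξ0 : ℂ) (ρ s : ℝ), Tb U τ ι c κ γ → n ≤ N → ‖ξ0‖ ≤ 1 / 16 → 0 < ρ → ρ ≤ 1 / 16 → 0 < s → 8 * s ≤ τ →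
    0 ≤ QR f m Λ (4 * s) N ι c κ γ ∧ ∫⁻ q in RG ξ0 ρ s, ENNReal.ofReal (gt f n ι c κ γ q) * ENNReal.ofReal (Lf f m Λ ι c κ γ q) ≤ ENNReal.ofReal (s ^ 2 * (16 * QR f m Λ (4 * s) N ι c κ γ + C / (d : ℝ) ^ n))

/-- Row WP0 (medium to long; from UR3 WHO WM2 WIA WSD WPA WPB WPL). The second Manye trick. Proof. `D = d^n`, `T₁ = {p ∈ TB 2 h | cx p ≠ 0}` (`cx, cv, om` for `sP, sQ`; `T₁` is open), `q = Sc p`, `X = (ρ² Af(q,(1,0)))^(1/2)`, `Y = (κ²ρ² Af(q,(0,1)))^(1/2)`. On `T₁` put `zx = cx`, `zv = cv`, `M = X + Y + 1`, `a = max(X, |cx|/(|cx|²+|cv|²)^(1/2))`,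
`ae = κρ² Af(q,ev)^(1/2)`; outside of `T₁` put `1, 0, 1, 1, 0` (all measurable: continuous on the open set `T₁`). Then `a (|zx|²+|zv|²)^(1/2) ≤ ae + |zx| M` by WPA (1). `ν` = volume with density `(D h²)⁻¹ |cx|² om` on `T₁` (0 outside). By WPB, for measurable `g ≥ 0` (function of `q`), with `s = κρh`: (*) `∫ g dν ≤ 2 s⁻² ∫_(RG ξ0 ρ s) gt g`, with the inner integrals over
`‖v‖ < s`, `‖ξ - ξ0‖ < 2ρ`. Hypotheses of UR3 (with its `s = h`, constant `K0` independent of `ρ, μ0, ε, m`): `ν univ ≤ 2π C` (WM2 (3)). `∫ ae²/|zx|² dν = (D h²)⁻¹ ∫_(T₁) κ²ρ⁴ Af(ev) om`, at most `(D h²)⁻¹ κ²ρ⁴ (ρ²(κρ)²)⁻¹ ∫_(RG) Af(ev) om ≤ C/h²` (change of variables as in WPB with `g = Af(ev)/|w1|²`; WIA, `s ≤ τ/2`). `{a² ≤ h d^m} ⊆ {ρ² Af(1,0) ≤ h d^m}`: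
WSD for every `v` and (*): `ν ≤ 2π C/log(1/h)` (for `m ≥ m1`: `s < s1` since `h ≤ d^(-m/6)`; outside of `T₁` the density is 0). On `T₁` outside of this set: `X² > h d^m ≥ h⁻⁴ ≥ 1`, so `M²/a² ≤ (X+Y+1)²/X²` and `log(M²/a²) ≤ log 16 + Lf` (WPA (4), `Λ = Λ1 m`). For `m ≥ m1`: `log 16 ≤ ε m/2` and `2π C/log(1/h) ≤ ε/2`; so
`ν{ε m ≤ log(M²/a²)} ≤ ε/2 + ν{Lf ≥ ε m/2}`, and by Markov, (*) and WPL the last is `≤ (2/(ε m)) · 2 (16 QR + C(m)/d^n) ≤ ε/2` if `QR ≤ ε² m/C` with `C ≥ 256` and `nm` is such that `C(m)/d^(nm) ≤ ε² m/16`. UR3: `∫ log(..) dν ≤ C (ε log(1/h) + 1)`; multiply by `D h²`; on `TB 2 h ∖ T₁` the integrand `PP |cx|² om` is 0. (`m1` also gives `h ≤ 1/4`, `1 ≤ m`; `nm ≥ m`.) -/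
def WP0_stmt : Prop :=
  ∀ (d : ℕ) (f : Endo 2 d) (U : Set (PP 2)), 2 ≤ d → ∀ τ κ Λ1 C0 α : ℝ, 0 < τ → 0 < κ → κ ≤ 1 / 10 → 0 < Λ1 → WC f U τ κ C0 α → ∃ C : ℝ, 0 < C ∧ ∀ ρ μ0 ε : ℝ, 0 < ρ → ρ ≤ 1 / 16 → κ * ρ ≤ τ / 4 → 0 < μ0 → 0 < ε → ∃ m1 : ℕ, ∀ m : ℕ, m1 ≤ m → ∃ nm : ℕ,
    ∀ h : ℝ, 0 < h → h⁻¹ ^ 5 ≤ (d : ℝ) ^ m → (d : ℝ) ^ m ≤ h⁻¹ ^ 6 → ∀ (ι : Fin 2) (c : ℂ) (γ : ℂ → ℂ) (n N : ℕ) (ξ0 : ℂ), Tb U τ ι c κ γ → nm ≤ n → n ≤ N → ‖ξ0‖ ≤ 1 / 16 → ENNReal.ofReal μ0 ≤ ms f N ι c κ γ 0 (ball ξ0 ρ) →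
      QR f m (Λ1 * m) (4 * (κ * ρ * h)) N ι c κ γ ≤ ε ^ 2 / C * m →
        ∫⁻ p in P2U.TB 2 h, ENNReal.ofReal (P2U.PP (sP f n ι c κ γ ξ0 ρ) (sQ f n ι c κ γ ξ0 ρ) (h ^ 2) p * ‖P2U.cx (sP f n ι c κ γ ξ0 ρ) (sQ f n ι c κ γ ξ0 ρ) p‖ ^ 2 * P2U.om (sP f n ι c κ γ ξ0 ρ) (sQ f n ι c κ γ ξ0 ρ) p) ≤
          ENNReal.ofReal ((d : ℝ) ^ n * h ^ 2 * (C * (ε * Real.log (1 / h) + 1)))

/-- Row WNN (medium; from UUNF WDT WP0). Proof. `UUNF` (constant `C_U`) with `u`, `D = d^n`, `τ = 1` (WDT), `s = h`, `P0 = C_P (ε log(1/h) + 1)` (WP0), so the bound is `C_U D (E0 + C_P (ε + 1/log(1/h)) + t^(α/2))`. Choose `ε` with `C_U C_P ε ≤ δ/3`, `ε2 = ε²/C_P`, `t1 ≤ 1/4` with `C_U t1^(α/2) ≤ δ/3`, `m1` (depending on `t`) such that `h ≤ d^(-m/6)` implies `h ≤ t²` and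
`C_U C_P/log(1/h) ≤ δ/3`, and `nm` (depending on `m`) such that `1/h ≤ d^m ≤ d^n` (`h⁻⁵ ≤ d^m`, `h ≤ 1`). -/
def WNN_stmt : Prop :=
  ∀ (d : ℕ) (f : Endo 2 d) (U : Set (PP 2)), 2 ≤ d → ∀ τ κ Λ1 C0 α : ℝ, 0 < τ → 0 < κ → κ ≤ 1 / 10 → 0 < Λ1 → WC f U τ κ C0 α → ∃ C : ℝ, 0 < C ∧ ∀ ρ μ0 δ : ℝ, 0 < ρ → ρ ≤ 1 / 16 → κ * ρ ≤ τ / 4 → 0 < μ0 → 0 < δ → ∃ t1 ε2 : ℝ, 0 < t1 ∧ 0 < ε2 ∧
    ∀ t : ℝ, 0 < t → t ≤ t1 → ∃ m1 : ℕ, ∀ m : ℕ, m1 ≤ m → ∃ nm : ℕ, ∀ h : ℝ, 0 < h → h⁻¹ ^ 5 ≤ (d : ℝ) ^ m → (d : ℝ) ^ m ≤ h⁻¹ ^ 6 →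
      ∀ (ι : Fin 2) (c : ℂ) (γ : ℂ → ℂ) (n N : ℕ) (ξ0 : ℂ) (E0 : ℝ), Tb U τ ι c κ γ → nm ≤ n → n ≤ N → ‖ξ0‖ ≤ 1 / 16 → ENNReal.ofReal μ0 ≤ ms f N ι c κ γ 0 (ball ξ0 ρ) →
        QR f m (Λ1 * m) (4 * (κ * ρ * h)) N ι c κ γ ≤ ε2 * m → 0 ≤ E0 →
        ∫⁻ p in P2U.TB 2 t, ENNReal.ofReal (P2U.Gd (sP f n ι c κ γ ξ0 ρ) (sQ f n ι c κ γ ξ0 ρ) p * P2U.om (sP f n ι c κ γ ξ0 ρ) (sQ f n ι c κ γ ξ0 ρ) p) ≤ ENNReal.ofReal ((d : ℝ) ^ n * E0) →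
        ∃ b : ℂ, ‖b‖ < h ^ 2 ∧ MeasurableSet (P2U.NN (P2U.sh b (sP f n ι c κ γ ξ0 ρ)) (P2U.sh b (sQ f n ι c κ γ ξ0 ρ)) (h / 4)) ∧
          ∫⁻ x in P2U.NN (P2U.sh b (sP f n ι c κ γ ξ0 ρ)) (P2U.sh b (sQ f n ι c κ γ ξ0 ρ)) (h / 4),
            ENNReal.ofReal (‖P2U.cx (P2U.sh b (sP f n ι c κ γ ξ0 ρ)) (P2U.sh b (sQ f n ι c κ γ ξ0 ρ)) (x, 0)‖ ^ 2 * P2U.om (P2U.sh b (sP f n ι c κ γ ξ0 ρ)) (P2U.sh b (sQ f n ι c κ γ ξ0 ρ)) (x, 0)) ≤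
              ENNReal.ofReal ((d : ℝ) ^ n * (C * E0 + δ))

/-! ### Area, short bands, charts -/

/-- Row WQA (medium; from BMP MAU WAF WHO WCR). Proof. `un f (N-n) (It f n Z) = d^n un f N Z` (`pmap_iter_add`), so with `A = (1/2) log nq (It f n (gp ..))` and `D = d^(N-n)`: `ard (un f (N-n)) (sF ..) = MA (uu (gP f N) (gQ f N) D ∘ Sc) (A ∘ Sc) = (κρ²)² MA (uu ..) A ∘ Sc` (`BMP` (1), the determinant of `Sc` is `ρ · κρ`), `MA` is symmetric, and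
`MA A (uu ..) = (1/2) om lev A (ev)/D ≥ 0` (`MAU`, WAF). WCR (`a = ρ`, `b = κρ`): the left side is the integral of `(1/2) om lev A (ev)/D` over `|ξ-ξ0| < ρ`, `|v| < κρh`, i.e. `d^n` times the integral of the density of `QA`, which is nonnegative and has weight `eta² = 1` on `|ξ| < 1/2`; the tube of `QA` is `|v| < (4κρh)/4`. (The Bochner integrals in `QA` are integrals of
functions which are continuous on `TB 1 τ` times `eta²`, so they are equal to lower integrals.) -/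
def WQA_stmt : Prop :=
  ∀ (d : ℕ) (f : Endo 2 d) (U : Set (PP 2)), 2 ≤ d → ∀ τ κ C0 α : ℝ, 0 < τ → 0 < κ → κ ≤ 1 / 10 → WC f U τ κ C0 α → ∀ (ι : Fin 2) (c : ℂ) (γ : ℂ → ℂ) (n N : ℕ) (ξ0 : ℂ) (ρ h ε3 : ℝ), Tb U τ ι c κ γ → n ≤ N → ‖ξ0‖ ≤ 1 / 16 → 0 < ρ → ρ ≤ 1 / 16 → κ * ρ ≤ τ / 4 →
    0 < h → h ≤ 1 → QA f n (4 * (κ * ρ * h)) N ι c κ γ ≤ ε3 → ∫⁻ p in P2U.TB 1 h, ENNReal.ofReal (P2B.ard (un f (N - n)) (sF f n ι c κ γ ξ0 ρ) p) ≤ ENNReal.ofReal ((d : ℝ) ^ n * ε3)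

/-- Row WSB (medium; from IS4 BRA WHO WM1 WM2). Short bands. Proof. Disc `ξ = ξ0 + 4ρ y`, `|y| < 1`, `P(y) = gP f n (ξ, 0)`, `V(y) = d^n un f N (gp (ξ,0))`, `E = C0 d^n`, `B = C0` as in WSD (`lv` for `n ≤ N`). `∫_(|y|<1/2) sph = 2 d^n ms f n 0 (ball ξ0 (2ρ)) ≥ 2 d^n μ0 - 4 C ≥ 4` for `n ≥ nm` (WM2 (2) with `v = v' = 0`). `IS4` with radius `r` and `t = e/4`: the `V`-mass of the `y` in `ball 0 (3/4)` without a branch of radius `r` with values in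
`ball y (e/4)` is `≤ C (1+C0) C0 d^n/log(1/r) + C_r (1+C0) 16/e²`. `Bd` = image in `ξ` of `toMeasurable` of this set (same restricted measure, `Measure.restrict_toMeasurable`). If `Y` is a band at `x = 4y` then `t ↦ Y(t,0)/4` is a branch through `y` for `P, Q` with the same equation (`Br` with `S = ball 0 1`), so by uniqueness (`BRA` (3)) it is the branch of `IS4` on `ball 0 κ1`: `|Y(t,0)/4 - y| < e/4`. -/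
def WSB_stmt : Prop :=
  ∀ (d : ℕ) (f : Endo 2 d) (U : Set (PP 2)), 2 ≤ d → ∀ τ κ C0 α : ℝ, 0 < τ → 0 < κ → κ ≤ 1 / 10 → WC f U τ κ C0 α → ∃ C : ℝ, 0 < C ∧ ∀ r : ℝ, 0 < r → r ≤ 1 / 8 → ∃ Cr : ℝ, 0 < Cr ∧ ∀ ρ μ0 : ℝ, 0 < ρ → ρ ≤ 1 / 16 → 0 < μ0 → ∃ nm : ℕ,
    ∀ (ι : Fin 2) (c : ℂ) (γ : ℂ → ℂ) (n N : ℕ) (ξ0 : ℂ) (e : ℝ), Tb U τ ι c κ γ → nm ≤ n → n ≤ N → ‖ξ0‖ ≤ 1 / 16 → 0 < e → ENNReal.ofReal μ0 ≤ ms f N ι c κ γ 0 (ball ξ0 ρ) →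
      ∃ Bd : Set ℂ, MeasurableSet Bd ∧ (∀ x ∈ ball (0 : ℂ) 1, ξ0 + ρ * x ∉ Bd → ∀ (κ1 h1 : ℝ) (Y : ℂ × ℂ → ℂ), 0 < κ1 → κ1 ≤ r → 0 < h1 → h1 ≤ 1 → P2B.Band (sP f n ι c κ γ ξ0 ρ) (sQ f n ι c κ γ ξ0 ρ) (ball 0 1) κ1 h1 x Y →
          ∀ t ∈ ball (0 : ℂ) κ1, ‖Y (t, 0) - x‖ ≤ e) ∧
        ms f N ι c κ γ 0 (Bd ∩ ball ξ0 ρ) ≤ ENNReal.ofReal (C / Real.log (1 / r) + Cr / (e ^ 2 * (d : ℝ) ^ n))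

/-- Row WCH (medium). Charts: from a thin short band in the tangent coordinate to `BP`. Proof. Let `F = sF f n ..`, `(P0, Q0)` = first two components of `F (x,0)`, `n0 = nr F x`. For a disc `(ι', c', κB)` as in `BP`, case `ι' = 0`: `F(x,0) = a • (1, x1, y1)`, so `P0 = a ≠ 0`, `Q0 = x1 P0`, `‖x1 - c'‖ ≤ κB/2`, `‖x1‖ ≤ 2 + 1/80`. For `ζ ∈ ball 0 1` let `x2 = c' + κB ζ`,
`T(ζ) = (x2 P0 - Q0)/(conj P0 + x2 conj Q0)`: `‖T(ζ)‖ = ‖x2 - x1‖/‖1 + x2 conj x1‖ < 2 κB ≤ κ1` as `‖x2 - x1‖ < 3κB/2` and `‖1 + x2 conj x1‖ ≥ 1 + ‖x1‖² - (3/2) κB ‖x1‖ ≥ 99/100`; `T` is holomorphic, and `(Q0 + T conj P0) = x2 (P0 - T conj Q0)`, `‖P0 - T conj Q0‖ ≥ ‖P0‖ (1 - ‖T‖‖x1‖) ≥ (8/9)‖P0‖`. Put `X(ζ,w) = ξ0 + ρ Y(T ζ, (sB/(κρ)) w)`, `V(ζ,w) = zb F x Y (..) n0/(P0 - T conj Q0)`.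
At `ζ = (x1 - c')/κB` (`‖ζ‖ ≤ 1/2`) `T = 0`, `X(ζ,0) = ξ0 + ρ x`. The equation of the band and `(P,Q)(Y,v) ≠ 0` give `(P,Q)(Y(t,v),v) = λ (P0 - t conj Q0, Q0 + t conj P0)`, `λ = (P conj P0 + Q conj Q0)/n0² ≠ 0`, so `F(Y(t,v),v) = λ (P0 - t conj Q0) • (1, x2, V)` with `zb = F_2 n0/(λ n0²)`. `It f n (gp (X p, sB p.2)) = F(Y.., (sB/(κρ)) p.2)` by definition of `Sc`.
`‖V p - V (p.1,0)‖ ≤ σ n0/‖P0 - T conj Q0‖ ≤ σ (1+‖x1‖²)^(1/2) (9/8) ≤ 3σ ≤ sB/16`. `‖X‖ < 1/16 + 1/16`, `‖X(ζ,0) - (ξ0 + ρx)‖ ≤ ρ e`. Case `ι' = 1`: exchange the roles: `Q0 = a`, `P0 = x1 Q0`, `T(ζ) = (P0 - x2 Q0)/(conj Q0 + x2 conj P0)`, `P0 - T conj Q0 = x2 (Q0 + T conj P0)`, `V = zb n0/(Q0 + T conj P0)`. (`zb` is holomorphic: `λ ≠ 0`.) -/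
def WCH_stmt : Prop :=
  ∀ (d : ℕ) (f : Endo 2 d) (ι : Fin 2) (c : ℂ) (κ : ℝ) (γ : ℂ → ℂ) (n : ℕ) (ξ0 x : ℂ) (ρ κ1 h1 σ e sB κB : ℝ) (Y : ℂ × ℂ → ℂ), DifferentiableOn ℂ γ (ball 0 1) → 0 < κ → κ ≤ 1 / 10 → ‖ξ0‖ ≤ 1 / 16 → 0 < ρ → ρ ≤ 1 / 16 →
    (∀ p ∈ P2U.TB 1 1, 0 < pq (sF f n ι c κ γ ξ0 ρ p)) → x ∈ ball (0 : ℂ) 1 → 0 < κ1 → κ1 ≤ 1 → 0 < h1 → h1 ≤ 1 → P2B.Band (sP f n ι c κ γ ξ0 ρ) (sQ f n ι c κ γ ξ0 ρ) (ball 0 1) κ1 h1 x Y →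
    (∀ t ∈ ball (0 : ℂ) κ1, ∀ v ∈ ball (0 : ℂ) h1, ‖P2B.zb (sF f n ι c κ γ ξ0 ρ) x Y (t, v) - P2B.zb (sF f n ι c κ γ ξ0 ρ) x Y (t, 0)‖ ≤ σ) → (∀ t ∈ ball (0 : ℂ) κ1, ‖Y (t, 0) - x‖ ≤ e) →
    0 < sB → sB ≤ κ * ρ * h1 → 0 < κB → κB ≤ κ / 4 → 2 * κB ≤ κ1 → 48 * σ ≤ sB → ρ * e ≤ κB / (64 * κ) → BP f n ι c κ γ sB κB (ξ0 + ρ * x)

/-- Row WDA (medium; from BND WHO WDT WM1 WNN WQA). Thin bands in one small disc. Proof. Constants `C_N` (WNN), `C_B` (BND for `C0, α`); `C = C_B C_N + 1`. Given `ρ, μ0, δ` choose `k ≤ 1/4` with `C_B k² ≤ δ/5`, `L ≥ 1` with `C_B/L ≤ δ/5`, `ε_B = δ/(5 C_B)`, `δ' = δ/(5 C_B)` for WNN: `t1, ε2`. Given `t, m0, s0`: `m ≥ m0` as large as WNN requires and such that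
`h = d^(-2m/11)` (then `h⁻⁵ ≤ d^m ≤ h⁻⁶`) has `C_B h^α ≤ δ/5`, `h ≤ 1/40`, `4κρh ≤ s0`. `κ1 = k e^(-L)/3200`, `h1 = h e^(-L)/3200`. Given `σ`: BND (`κ = k, L, s = h, σ, ε_B`) gives `η, D0`; `ε3 = η`; `nm` as in WNN and with `d^(nm) ≥ D0, 1/h`. For a graph: WNN gives `b` and the bound `D β`, `D = d^n`, `β = C_N E0 + δ'`; BND with `Ω = cone U`, `G = un f (N-n)` (`WC.cd`),
`F = sF f n ..` (`WC.mem`, WHO; `Sc p ∈ TB 1 τ` for `p ∈ TB 4 1`), `u` as in WDT (`τ = 1`), area by WQA: `Bd₁` with `∫_(Bd₁ ∩ ball 0 (1/3)) lap (x ↦ G(F(x,0))) ≤ C_B D (β + h^α + k² + 1/L + ε_B)`. `G(F(x,0)) = d^n un f N (gp (ξ0 + ρx, 0))` (`pmap_iter_add`), `lap` of it is `d^n ρ² gt f N (ξ0 + ρx, 0)` (WM1, chain rule for `x ↦ ξ0 + ρ x`), so with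
`Bd = {ξ0 + ρx : x ∈ Bd₁}` the `N`-mass of `Bd ∩ ball ξ0 (ρ/3)` is `≤ C_B (β + ..) ≤ C_B C_N E0 + δ`. -/
def WDA_stmt : Prop :=
  ∀ (d : ℕ) (f : Endo 2 d) (U : Set (PP 2)), 2 ≤ d → ∀ τ κ Λ1 C0 α : ℝ, 0 < τ → 0 < κ → κ ≤ 1 / 10 → 0 < Λ1 → WC f U τ κ C0 α → ∃ C : ℝ, 0 < C ∧ ∀ ρ μ0 δ : ℝ, 0 < ρ → ρ ≤ 1 / 16 → κ * ρ ≤ τ / 4 → 0 < μ0 → 0 < δ → ∃ t1 ε2 : ℝ, 0 < t1 ∧ 0 < ε2 ∧
    ∀ t : ℝ, 0 < t → t ≤ t1 → ∀ (m0 : ℕ) (s0 : ℝ), 0 < s0 → ∃ (m : ℕ) (h κ1 h1 : ℝ), m0 ≤ m ∧ 0 < h ∧ h ≤ 1 ∧ 4 * (κ * ρ * h) ≤ s0 ∧ 0 < κ1 ∧ κ1 ≤ 1 ∧ 0 < h1 ∧ h1 ≤ 1 ∧ ∀ σ : ℝ, 0 < σ → ∃ (nm : ℕ) (ε3 : ℝ), 0 < ε3 ∧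
      ∀ (ι : Fin 2) (c : ℂ) (γ : ℂ → ℂ) (n N : ℕ) (ξ0 : ℂ) (E0 : ℝ), Tb U τ ι c κ γ → nm ≤ n → n ≤ N → ‖ξ0‖ ≤ 1 / 16 → ENNReal.ofReal μ0 ≤ ms f N ι c κ γ 0 (ball ξ0 ρ) →
        QR f m (Λ1 * m) (4 * (κ * ρ * h)) N ι c κ γ ≤ ε2 * m → QA f n (4 * (κ * ρ * h)) N ι c κ γ ≤ ε3 → 0 ≤ E0 →
        ∫⁻ p in P2U.TB 2 t, ENNReal.ofReal (P2U.Gd (sP f n ι c κ γ ξ0 ρ) (sQ f n ι c κ γ ξ0 ρ) p * P2U.om (sP f n ι c κ γ ξ0 ρ) (sQ f n ι c κ γ ξ0 ρ) p) ≤ ENNReal.ofReal ((d : ℝ) ^ n * E0) →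
        ∃ Bd : Set ℂ, MeasurableSet Bd ∧ (∀ x ∈ ball (0 : ℂ) (1 / 3), ξ0 + ρ * x ∉ Bd → ∃ Y : ℂ × ℂ → ℂ, P2B.Band (sP f n ι c κ γ ξ0 ρ) (sQ f n ι c κ γ ξ0 ρ) (ball 0 1) κ1 h1 x Y ∧
            ∀ t ∈ ball (0 : ℂ) κ1, ∀ v ∈ ball (0 : ℂ) h1, ‖P2B.zb (sF f n ι c κ γ ξ0 ρ) x Y (t, v) - P2B.zb (sF f n ι c κ γ ξ0 ρ) x Y (t, 0)‖ ≤ σ) ∧
          ms f N ι c κ γ 0 (Bd ∩ ball ξ0 (ρ / 3)) ≤ ENNReal.ofReal (C * E0 + δ)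

/-- Row WDI (medium; from WDA WSB WCH). One small disc. Proof. `C` from WDA, `C_S` from WSB. Given `ρ, μ0, δ`: WDA for `δ/2` gives `t1, ε2`. Given `t, m0, s0`: WDA gives `m, h, κ1, h1`. `s = 4κρh`; `r = min(κ1, 1/8, ..)` with `C_S/log(1/r) ≤ δ/4`; `κB = min(r/2, κ/4)`, `sB = κρh1`, `σ = sB/48`, `e = κB/(64κρ)`; WDA (`σ`) gives `nm, ε3`; enlarge `nm` for WSB (`r, ρ, μ0`) and such that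
`C_r/(e² d^(nm)) ≤ δ/4`. `Bad = Bd ∪ Bd₂`, `Bd` from WDA, `Bd₂` from WSB. For `ξ = ξ0 + ρx ∈ ball ξ0 (ρ/3)` (`x = (ξ-ξ0)/ρ`), `ξ ∉ Bad`, there is a thin band of radii `(κ1, h1)`; its restriction to radii `(r, h1)` (`r ≤ κ1`) is a band, and it is short by WSB; WCH with `κ1 := r` (`2κB ≤ r`). Masses: `C E0 + δ/2 + δ/4 + δ/4` (`ball ξ0 (ρ/3) ⊆ ball ξ0 ρ`). -/
def WDI_stmt : Prop :=
  ∀ (d : ℕ) (f : Endo 2 d) (U : Set (PP 2)), 2 ≤ d → ∀ τ κ Λ1 C0 α : ℝ, 0 < τ → 0 < κ → κ ≤ 1 / 10 → 0 < Λ1 → WC f U τ κ C0 α → ∃ C : ℝ, 0 < C ∧ ∀ ρ μ0 δ : ℝ, 0 < ρ → ρ ≤ 1 / 16 → κ * ρ ≤ τ / 4 → 0 < μ0 → 0 < δ → ∃ t1 ε2 : ℝ, 0 < t1 ∧ 0 < ε2 ∧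
    ∀ t : ℝ, 0 < t → t ≤ t1 → ∀ (m0 : ℕ) (s0 : ℝ), 0 < s0 → ∃ (m nm : ℕ) (s sB κB ε3 : ℝ), m0 ≤ m ∧ 0 < s ∧ s ≤ s0 ∧ 0 < sB ∧ 0 < κB ∧ κB ≤ κ / 4 ∧ 0 < ε3 ∧
      ∀ (ι : Fin 2) (c : ℂ) (γ : ℂ → ℂ) (n N : ℕ) (ξ0 : ℂ) (E0 : ℝ), Tb U τ ι c κ γ → nm ≤ n → n ≤ N → ‖ξ0‖ ≤ 1 / 16 → ENNReal.ofReal μ0 ≤ ms f N ι c κ γ 0 (ball ξ0 ρ) →
        QR f m (Λ1 * m) s N ι c κ γ ≤ ε2 * m → QA f n s N ι c κ γ ≤ ε3 → 0 ≤ E0 →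
        ∫⁻ p in P2U.TB 2 t, ENNReal.ofReal (P2U.Gd (sP f n ι c κ γ ξ0 ρ) (sQ f n ι c κ γ ξ0 ρ) p * P2U.om (sP f n ι c κ γ ξ0 ρ) (sQ f n ι c κ γ ξ0 ρ) p) ≤ ENNReal.ofReal ((d : ℝ) ^ n * E0) →
        ∃ Bad : Set ℂ, MeasurableSet Bad ∧ (∀ ξ ∈ ball ξ0 (ρ / 3), ξ ∉ Bad → BP f n ι c κ γ sB κB ξ) ∧ ms f N ι c κ γ 0 (Bad ∩ ball ξ0 (ρ / 3)) ≤ ENNReal.ofReal (C * E0 + δ)

/-! ### Covering -/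

/-- Row WEN (medium; from WHO WSC WCR). Sum of the energies. Proof. For `j ∈ S`: WCR (`ξ0 = z j`, `a = b = ρ`) and WSC for the pair `iP, iQ` (`sP p = iP (z j + ρ p.1, ρ p.2)`, `Sc` and `iP` unfold; `Gd` is multiplied by `ρ⁴`): the `j`-th integral is the integral of `Gd om` (for `iP, iQ`) over `‖p.1 - z j‖ < 2ρ`, `‖p.2‖ < t`. Here `‖p.1‖ < 1/32 + 1/8 < 1/2` and `p.1 ∉ B`. Sum over `j`: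
every `p` is counted at most `K` times, and `Gd om = d^n (Gd om/d^n)`. (No measurability is needed: `le_lintegral_add`, `lintegral_const_mul'`.) -/
def WEN_stmt : Prop :=
  ∀ (d : ℕ) (f : Endo 2 d) (ι : Fin 2) (c : ℂ) (κ : ℝ) (γ : ℂ → ℂ) (n : ℕ), 2 ≤ d → 0 < κ → DifferentiableOn ℂ γ (ball 0 1) →
    ∀ (B : Set ℂ) (t ρ : ℝ) (J K : ℕ) (z : Fin J → ℂ) (S : Finset (Fin J)), MeasurableSet B → 0 < t → 0 < ρ → ρ ≤ 1 / 16 → (∀ j, ‖z j‖ ≤ 1 / 32) → (∀ j ∈ S, Disjoint (ball (z j) (2 * ρ)) B) →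
      (∀ ξ : ℂ, (Finset.univ.filter (fun j => ‖ξ - z j‖ < 2 * ρ)).card ≤ K) →
      ∑ j ∈ S, ∫⁻ p in P2U.TB 2 (t / ρ), ENNReal.ofReal (P2U.Gd (sP f n ι c κ γ (z j) ρ) (sQ f n ι c κ γ (z j) ρ) p * P2U.om (sP f n ι c κ γ (z j) ρ) (sQ f n ι c κ γ (z j) ρ) p) ≤
        K * (ENNReal.ofReal ((d : ℝ) ^ n) * EnT f n ι c κ γ t B)

/-- Row WCV (short to medium). Covering with bounded overlap. Proof: a maximal subset of `closedBall 0 (1/32)` with mutual distances `≥ r` is finite (compactness) and every point of the ball is at distance `< r` from it. If `‖ξ - z j‖ < 6r` for `j ∈ A` then the disjoint discs `ball (z j) (r/2)` are in `ball ξ (13r/2)`: `card A ≤ 169` (areas). `K = 169`. -/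
def WCV_stmt : Prop :=
  ∃ K : ℕ, ∀ r : ℝ, 0 < r → ∃ (J : ℕ) (z : Fin J → ℂ), (∀ j, ‖z j‖ ≤ 1 / 32) ∧ (∀ ξ : ℂ, ‖ξ‖ ≤ 1 / 32 → ∃ j, ‖ξ - z j‖ < r) ∧
    ∀ ξ : ℂ, (Finset.univ.filter (fun j => ‖ξ - z j‖ < 6 * r)).card ≤ K

/-- Row WTU (medium; from WCN WM2 WDI WEN WCV): the target `TUB_stmt`. Proof. `C0, α` from WCN, `C` = maximum of the constants of WDI, WM2, `K` from WCV. `ε1 = εT/(4(CK+1))`. Given `nB`: `ρB ≤ 1/16` with `nB C (2ρB)^α ≤ εT/4`. Given `t0`: `ρ = min(ρB/10, 1/16, τ/(4κ))`, the cover `z : Fin J → ℂ` of WCV with `r = ρ/3` (`6r = 2ρ`), `μ0 = δ = εT/(4(J+1))`;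
WDI: `t1, ε2`; `t = min(t0, ρ t1)`. Given `m0, s0`: WDI with `t/ρ ≤ t1` gives `m, nm, s, sB, κB, ε3`. For a graph: `Tb` holds; `EB` gives centres `w i` (`i < nB`) with energy `≤ ε1` outside `B = ⋃ ball (w i) ρB`. Type A: the `j` for which `ball (z j) (2ρ)` meets `B`: then `ball (z j) (ρ/3) ⊆ ball (w i) (2ρB)` for some `i` with `‖w i‖ ≤ 1/4` (`ρB + 2ρ + ρ/3 ≤ 2ρB`); type B: the
others with `ms f N 0 (ball (z j) ρ) < μ0`; type C: the rest, a finset `S`. For `j ∈ S` let `E0 j` be the energy integral of WEN (over `TB 2 (t/ρ)`) divided by `d^n`, as a real number (finite: WEN); `∑ E0 j ≤ K ε1` (WEN), and `Bad j` from WDI. `Bad = ⋃_(i, ‖w i‖ ≤ 1/4) ball (w i) (2ρB) ∪ ⋃_(j of type B) ball (z j) (ρ/3) ∪ ⋃_(j ∈ S) (Bad j ∩ ball (z j) (ρ/3))`, of mass at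
most `nB C (2ρB)^α + J μ0 + ∑ (C E0 j + δ) ≤ εT/4 + εT/4 + C K ε1 + εT/4 ≤ εT` (WM2 (1) with `v = 0`; `2ρB ≤ 1/8`). Every `ξ`, `‖ξ‖ ≤ 1/32`, `ξ ∉ Bad`, is in some `ball (z j) (ρ/3)` (WCV), necessarily of type C, and outside `Bad j`: `BP`. (`ms f N ι c κ γ 0 S` unfolds to the lower integral in `TUB_stmt`.) -/
def WTU_stmt : Prop := TUB_stmt

end Pool.Agent.P2W
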