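import Pool.Agent.helper83.P2.SpecV
import Pool.Agent.helper80.P2.PSC

set_option autoImplicit false

open scoped ContDiff Topology
open MeasureTheory Filter Set Metric MvPolynomial Pool.Agent.helper37.QA Pool.Agent.P2

namespace Pool.Agent.P2V

theorem VGT_gpd (ι : Fin 2) (c : ℂ) (κ : ℝ) (γ : ℂ → ℂ) (hγ : DifferentiableOn ℂ γ (ball 0 1)) :
    DifferentiableOn ℂ (gp ι c κ γ) {p : ℂ × ℂ | p.1 ∈ ball (0 : ℂ) 1} := by
  have h1 : DifferentiableOn ℂ (fun p : ℂ × ℂ => c + κ * p.1) {p : ℂ × ℂ | p.1 ∈ ball (0 : ℂ) 1} := by fun_prop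
  have h2 : DifferentiableOn ℂ (fun p : ℂ × ℂ => γ p.1 + p.2) {p : ℂ × ℂ | p.1 ∈ ball (0 : ℂ) 1} := by
    refine DifferentiableOn.add (hγ.comp differentiableOn_fst fun p hp => hp) differentiableOn_snd
  have h0 : DifferentiableOn ℂ (fun p : ℂ × ℂ => (1 : ℂ)) {p : ℂ × ℂ | p.1 ∈ ball (0 : ℂ) 1} := differentiableOn_const _
  rw [differentiableOn_pi]
  intro i
  by_cases hι : ι = 0
  · have e : ∀ p : ℂ × ℂ, gp ι c κ γ p = ![1, c + κ * p.1, γ p.1 + p.2] := fun p => by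
      unfold gp cht
      rw [if_pos hι]
    simp only [e]
    fin_cases i
    · exact h0
    · exact h1
    · exact h2
  · have e : ∀ p : ℂ × ℂ, gp ι c κ γ p = ![c + κ * p.1, 1, γ p.1 + p.2] := fun p => by
      unfold gp cht
      rw [if_neg hι]
    simp only [e]
    fin_cases i
    · exact h1
    · exact h0
    · exact h2

theorem VGT_open1 : IsOpen {p : ℂ × ℂ | p.1 ∈ ball (0 : ℂ) 1} := isOpen_ball.preimage continuous_fst

theorem VGT_Itd {d : ℕ} (f : Endo 2 d) (m : ℕ) (ι : Fin 2) (c : ℂ) (κ : ℝ) (γ : ℂ → ℂ) (hγ : DifferentiableOn ℂ γ (ball 0 1)) :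
    DifferentiableOn ℂ (fun p => It f m (gp ι c κ γ p)) {p : ℂ × ℂ | p.1 ∈ ball (0 : ℂ) 1} := by
  rw [differentiableOn_pi]
  intro i
  exact (ENC_Itd f m i).comp_differentiableOn (VGT_gpd ι c κ γ hγ)

theorem VGT_gpc (ι : Fin 2) (c : ℂ) (κ : ℝ) (γ : ℂ → ℂ) (hγ : DifferentiableOn ℂ γ (ball 0 1)) :
    ContDiffOn ℂ ∞ (gp ι c κ γ) {p : ℂ × ℂ | p.1 ∈ ball (0 : ℂ) 1} := by
  have h1 : ContDiffOn ℂ ∞ (fun p : ℂ × ℂ => c + κ * p.1) {p : ℂ × ℂ | p.1 ∈ ball (0 : ℂ) 1} :=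
    (contDiff_const.add (contDiff_const.mul contDiff_fst)).contDiffOn
  have h2 : ContDiffOn ℂ ∞ (fun p : ℂ × ℂ => γ p.1 + p.2) {p : ℂ × ℂ | p.1 ∈ ball (0 : ℂ) 1} :=
    ((hγ.contDiffOn (n := ∞) isOpen_ball).comp contDiff_fst.contDiffOn fun p hp => hp).add contDiff_snd.contDiffOn
  have h0 : ContDiffOn ℂ ∞ (fun p : ℂ × ℂ => (1 : ℂ)) {p : ℂ × ℂ | p.1 ∈ ball (0 : ℂ) 1} := contDiffOn_const
  rw [contDiffOn_pi]
  intro i
  by_cases hι : ι = 0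
  · have e : ∀ p : ℂ × ℂ, gp ι c κ γ p = ![1, c + κ * p.1, γ p.1 + p.2] := fun p => by
      unfold gp cht
      rw [if_pos hι]
    simp only [e]
    fin_cases i
    · exact h0
    · exact h1
    · exact h2
  · have e : ∀ p : ℂ × ℂ, gp ι c κ γ p = ![c + κ * p.1, 1, γ p.1 + p.2] := fun p => by
      unfold gp cht
      rw [if_neg hι]
    simp only [e]
    fin_cases i
    · exact h1
    · exact h0
    · exact h2

theorem VGT_Itc {d : ℕ} (f : Endo 2 d) (m : ℕ) (ι : Fin 2) (c : ℂ) (κ : ℝ) (γ : ℂ → ℂ) (hγ : DifferentiableOn ℂ γ (ball 0 1)) :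
    ContDiffOn ℂ ∞ (fun p => It f m (gp ι c κ γ p)) {p : ℂ × ℂ | p.1 ∈ ball (0 : ℂ) 1} := by
  rw [contDiffOn_pi]
  intro i
  exact (PSC_Itc f m i).comp_contDiffOn (VGT_gpc ι c κ γ hγ)

theorem VGT_fd {d : ℕ} (f : Endo 2 d) (m : ℕ) (ι : Fin 2) (c : ℂ) (κ : ℝ) (γ : ℂ → ℂ) (hγ : DifferentiableOn ℂ γ (ball 0 1)) (a : ℂ × ℂ) :
    ContDiffOn ℂ ∞ (fun q => fderiv ℂ (fun q => It f m (gp ι c κ γ q)) q a) {p : ℂ × ℂ | p.1 ∈ ball (0 : ℂ) 1} :=
  ((VGT_Itc f m ι c κ γ hγ).fderiv_of_isOpen VGT_open1 (by simp)).clm_apply contDiffOn_const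

theorem VGT_nqs {n : ℕ} {H : ℂ → Fin n → ℂ} {Ω : Set ℂ} (hΩ : IsOpen Ω) (hH : DifferentiableOn ℂ H Ω) :
    ContDiffOn ℝ ∞ (fun t => nq (H t)) Ω := by
  unfold nq
  refine ContDiffOn.sum fun i _ => ?_
  refine PSC_normSq.comp_contDiffOn ?_
  have h1 : DifferentiableOn ℂ (fun t => H t i) Ω := (differentiableOn_pi.1 hH) i
  exact (h1.contDiffOn (n := ∞) hΩ).restrict_scalars ℝ

theorem VGT_lapmul (a : ℝ) (g : ℂ → ℝ) (z : ℂ) (hg : ContDiffAt ℝ 2 g z) :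
    lap (fun t => a * g t) z = a * lap g z := by
  unfold lap
  have h1 : iteratedFDeriv ℝ 2 (fun t => a * g t) z = a • iteratedFDeriv ℝ 2 g z :=
    iteratedFDeriv_const_smul_apply (a := a) (i := 2) hg
  rw [h1]
  simp only [smul_apply, smul_eq_mul]
  ring

theorem VGT (hUN1 : UN1_stmt) (hMAU : MAU_stmt) (hLSE : LSE_stmt) : VGT_stmt := by
  intro d f U hd hU Λ κ r m N ι c γ hr hγ htb p hp
  obtain ⟨C0, hC0, -, -, hpq0, -⟩ := hUN1 d f U hd hU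
  have hpq : ∀ q ∈ ball (0 : ℂ) 1 ×ˢ ball (0 : ℂ) r, 0 < pq (It f N (gp ι c κ γ q)) := by
    rintro ⟨ξ, v⟩ hq
    have h1 := htb ξ hq.1 v hq.2
    refine (hpq0 N _ ?_).1
    obtain ⟨h2, h3⟩ := h1
    exact ⟨h2, subset_closure h3⟩
  have hom : 0 ≤ om (gP f N ι c κ γ) (gQ f N ι c κ γ) p := by
    unfold om
    positivity
  have hd0 : (0 : ℝ) < (d : ℝ) ^ N := by
    have : 0 < d := by omega
    positivity
  unfold Ge
  refine div_nonneg (mul_nonneg ?_ hom) (by positivity)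
  set e : ℂ × ℂ := ev (gP f N ι c κ γ) (gQ f N ι c κ γ) p with he
  set O : Set (ℂ × ℂ) := ball (0 : ℂ) 1 ×ˢ ball (0 : ℂ) r with hO
  have hOo : IsOpen O := isOpen_ball.prod isOpen_ball
  have hO1 : O ⊆ {p : ℂ × ℂ | p.1 ∈ ball (0 : ℂ) 1} := fun q hq => hq.1
  let ℓ : ℂ → ℂ × ℂ := fun t => p + t • e
  have hℓ : ContDiff ℂ ∞ ℓ := contDiff_const.add (contDiff_id.smul contDiff_const)
  let Ω : Set ℂ := ℓ ⁻¹' O
  have hΩ : IsOpen Ω := hOo.preimage hℓ.continuous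
  have hℓ0 : ℓ 0 = p := by simp [ℓ]
  have h0Ω : (0 : ℂ) ∈ Ω := by
    show ℓ 0 ∈ O
    rw [hℓ0]
    exact hp
  have hℓd : DifferentiableOn ℂ ℓ Ω := (hℓ.differentiable (by simp)).differentiableOn
  -- the potential
  have hIN : DifferentiableOn ℂ (fun t => It f N (gp ι c κ γ (ℓ t))) Ω :=
    ((VGT_Itd f N ι c κ γ hγ).mono hO1).comp hℓd fun t ht => ht
  have hIm : DifferentiableOn ℂ (fun t => It f m (gp ι c κ γ (ℓ t))) Ω :=
    ((VGT_Itd f m ι c κ γ hγ).mono hO1).comp hℓd fun t ht => ht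
  have hpqs : ContDiffOn ℝ ∞ (fun t => pq (It f N (gp ι c κ γ (ℓ t)))) Ω := by
    unfold pq
    have h1 : ∀ i : Fin 3, ContDiffOn ℝ ∞ (fun t => Complex.normSq (It f N (gp ι c κ γ (ℓ t)) i)) Ω := fun i =>
      PSC_normSq.comp_contDiffOn ((((differentiableOn_pi.1 hIN) i).contDiffOn (n := ∞) hΩ).restrict_scalars ℝ)
    exact (h1 0).add (h1 1)
  let u : ℂ → ℝ := fun t => un f N (gp ι c κ γ (ℓ t))
  have hus : ContDiffOn ℝ ∞ u Ω := by
    show ContDiffOn ℝ ∞ (fun t => (1 / 2) * Real.log (pq (It f N (gp ι c κ γ (ℓ t)))) / (d : ℝ) ^ N) Ω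
    refine ContDiffOn.div_const (contDiffOn_const.mul (ContDiffOn.log hpqs ?_)) _
    intro t ht
    exact (hpq _ ht).ne'
  have hu0 : lap u 0 = 0 := by
    have hPd : DifferentiableOn ℂ (gP f N ι c κ γ) O := (differentiableOn_pi.1 ((VGT_Itd f N ι c κ γ hγ).mono hO1)) 0
    have hQd : DifferentiableOn ℂ (gQ f N ι c κ γ) O := (differentiableOn_pi.1 ((VGT_Itd f N ι c κ γ hγ).mono hO1)) 1
    have hne : ∀ q ∈ O, gP f N ι c κ γ q ≠ 0 ∨ gQ f N ι c κ γ q ≠ 0 := by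
      intro q hq
      by_contra hcon
      push Not at hcon
      have h1 := hpq q hq
      unfold pq at h1
      have h2 : It f N (gp ι c κ γ q) 0 = 0 := hcon.1
      have h3 : It f N (gp ι c κ γ q) 1 = 0 := hcon.2
      rw [h2, h3] at h1
      simp at h1
    exact (hMAU O (gP f N ι c κ γ) (gQ f N ι c κ γ) (fun _ => 0) ((d : ℝ) ^ N) hOo hPd hQd hne contDiffOn_const hd0 p hp).2.2
  -- `LSE`
  let B : ℂ → ℝ := fun t => 2 * (d : ℝ) ^ m * u t - Λ * m / 2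
  have hBs : ContDiffOn ℝ 2 B Ω := (contDiffOn_const.mul (hus.of_le ENat.LEInfty.out)).sub contDiffOn_const
  have hu2 : ContDiffAt ℝ 2 u 0 := (hus.contDiffAt (hΩ.mem_nhds h0Ω)).of_le ENat.LEInfty.out
  have hBlap : lap B 0 = 0 := by
    have h2 := PSC_lapsub (fun t => 2 * (d : ℝ) ^ m * u t) (fun _ => Λ * m / 2) 0 (contDiffAt_const.mul hu2) contDiffAt_const
    have h3 : lap (fun _ : ℂ => Λ * m / 2) 0 = 0 := by
      unfold lap
      rw [iteratedFDeriv_two_apply, iteratedFDeriv_two_apply]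
      simp
    rw [VGT_lapmul _ _ _ hu2, hu0, h3, mul_zero, sub_zero] at h2
    exact h2
  let G : ℂ → Fin 3 → ℂ := fun t => crs (It f m (gp ι c κ γ (ℓ t))) (fderiv ℂ (fun q => It f m (gp ι c κ γ q)) (ℓ t) (1, 0))
  have hder : DifferentiableOn ℂ (fun t => fderiv ℂ (fun q => It f m (gp ι c κ γ q)) (ℓ t) (1, 0)) Ω := by
    have h2 : DifferentiableOn ℂ (fun q => fderiv ℂ (fun q => It f m (gp ι c κ γ q)) q (1, 0)) O :=
      ((VGT_fd f m ι c κ γ hγ (1, 0)).differentiableOn (by simp)).mono hO1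
    exact h2.comp hℓd fun t ht => ht
  have hG : DifferentiableOn ℂ G Ω := by
    have h1 := differentiableOn_pi.1 hIm
    have h2 := differentiableOn_pi.1 hder
    rw [differentiableOn_pi]
    intro k
    fin_cases k
    · exact ((h1 1).mul (h2 2)).sub ((h1 2).mul (h2 1))
    · exact ((h1 2).mul (h2 0)).sub ((h1 0).mul (h2 2))
    · exact ((h1 0).mul (h2 1)).sub ((h1 1).mul (h2 0))
  have hL := hLSE 3 G B Ω hΩ h0Ω hG hBs hBlap.ge
  have hnn : ∀ t, 0 ≤ nq (G t) := fun t => ENT_nqnn _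
  have hid : (fun t => Th f Λ m N ι c κ γ (ℓ t)) = fun t =>
      2 * ((1 / 2) * Real.log (nq (G t) + Real.exp (2 * B t))) - 4 * (d : ℝ) ^ m * u t := by
    funext t
    have h1 : Th f Λ m N ι c κ γ (ℓ t) = Real.log (nq (G t) * Real.exp (-(4 * (d : ℝ) ^ m * u t)) + Real.exp (-(Λ * m))) := rfl
    have h2 : nq (G t) * Real.exp (-(4 * (d : ℝ) ^ m * u t)) + Real.exp (-(Λ * m)) =
        (nq (G t) + Real.exp (2 * B t)) * Real.exp (-(4 * (d : ℝ) ^ m * u t)) := by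
      rw [add_mul, ← Real.exp_add]
      congr 2
      show -(Λ * m) = 2 * (2 * (d : ℝ) ^ m * u t - Λ * m / 2) + -(4 * (d : ℝ) ^ m * u t)
      ring
    rw [h1, h2, Real.log_mul (add_pos_of_nonneg_of_pos (hnn t) (Real.exp_pos _)).ne' (Real.exp_pos _).ne', Real.log_exp]
    ring
  have hA : ContDiffAt ℝ 2 (fun t => (1 / 2) * Real.log (nq (G t) + Real.exp (2 * B t))) 0 := by
    have h1 : ContDiffAt ℝ 2 B 0 := hBs.contDiffAt (hΩ.mem_nhds h0Ω)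
    have h3 : ContDiffAt ℝ 2 (fun t => nq (G t)) 0 := ((VGT_nqs hΩ hG).contDiffAt (hΩ.mem_nhds h0Ω)).of_le ENat.LEInfty.out
    have h2 : ContDiffAt ℝ 2 (fun t => nq (G t) + Real.exp (2 * B t)) 0 := h3.add (contDiffAt_const.mul h1).exp
    exact contDiffAt_const.mul (h2.log (add_pos_of_nonneg_of_pos (hnn 0) (Real.exp_pos _)).ne')
  unfold lev
  show 0 ≤ lap (fun t => Th f Λ m N ι c κ γ (ℓ t)) 0
  rw [hid, PSC_lapsub _ _ 0 (contDiffAt_const.mul hA) (contDiffAt_const.mul hu2), VGT_lapmul _ _ _ hA, VGT_lapmul _ _ _ hu2, hu0, mul_zero, sub_zero]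
  exact mul_nonneg (by norm_num) hL

end Pool.Agent.P2V
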