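import Pool.Agent.helper83.P2.SpecV
import Pool.Agent.helper56.P2.VGT
import Pool.Agent.helper53.P2.MSS
import Pool.Agent.helper42.P2.DMS
import Pool.Agent.helper60.P2.DCOa
import Pool.Agent.helper90.P2.COREd

set_option autoImplicit false

open scoped ContDiff Topology
open MeasureTheory Filter Set Metric MvPolynomial Pool.Agent.helper37.QA Pool.Agent.P2

namespace Pool.Agent.P2V

theorem VJA_F {r : ℝ} {g : ℂ × ℂ → ℝ} (hg : ContinuousOn g (ball 0 (9 / 10) ×ˢ ball 0 r)) :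
    ContinuousOn (fun p : ℂ × ℂ => eta p.2 ^ 2 * g (p.2, p.1)) (ball 0 r ×ˢ univ) := by
  rintro ⟨v, ξ⟩ ⟨hv, -⟩
  apply ContinuousAt.continuousWithinAt
  have hv' : v ∈ ball (0 : ℂ) r := hv
  by_cases hξ : ‖ξ‖ < 9 / 10
  · have h1 : ContinuousAt g (ξ, v) := hg.continuousAt ((isOpen_ball.prod isOpen_ball).mem_nhds ⟨by simpa using hξ, hv'⟩)
    have h2 : ContinuousAt (fun p : ℂ × ℂ => g (p.2, p.1)) (v, ξ) :=
      ContinuousAt.comp (f := fun p : ℂ × ℂ => (p.2, p.1)) (g := g) h1 (continuous_snd.prodMk continuous_fst).continuousAt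
    exact ((DCO_eta_cd.continuous.comp continuous_snd).pow 2).continuousAt.mul h2
  · have h1 : ∀ᶠ p : ℂ × ℂ in 𝓝 (v, ξ), eta p.2 ^ 2 * g (p.2, p.1) = 0 := by
      have h2 : ∀ᶠ p : ℂ × ℂ in 𝓝 (v, ξ), 4 / 5 < ‖p.2‖ := by
        have h3 : Continuous fun p : ℂ × ℂ => ‖p.2‖ := continuous_norm.comp continuous_snd
        exact h3.continuousAt.eventually (lt_mem_nhds (by show (4 : ℝ) / 5 < ‖ξ‖; linarith [not_lt.1 hξ]))
      filter_upwards [h2] with p hp
      have h3 : eta p.2 = 0 := by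
        unfold eta
        apply Real.smoothTransition.zero_of_nonpos
        rw [Complex.normSq_eq_norm_sq]
        nlinarith
      rw [h3]
      ring
    have h4 : ContinuousAt (fun _ : ℂ × ℂ => (0 : ℝ)) (v, ξ) := continuousAt_const
    exact h4.congr (h1.mono fun p hp => hp.symm)

theorem VJA_cont {r : ℝ} {g : ℂ × ℂ → ℝ} (hg : ContinuousOn g (ball 0 (9 / 10) ×ˢ ball 0 r)) :
    ContinuousOn (fun v => ∫ ξ, eta ξ ^ 2 * g (ξ, v)) (ball 0 r) ∧ ∀ v ∈ ball (0 : ℂ) r, Integrable (fun ξ => eta ξ ^ 2 * g (ξ, v)) := by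
  have h0 : ∀ (v ξ : ℂ), ξ ∉ closedBall (0 : ℂ) (9 / 10) → eta ξ ^ 2 * g (ξ, v) = 0 := by
    intro v ξ hξ
    rw [DCO_eta_zero hξ]
    ring
  refine ⟨?_, fun v hv => ?_⟩
  · refine continuousOn_integral_of_compact_support (f := fun v ξ => eta ξ ^ 2 * g (ξ, v)) (isCompact_closedBall (0 : ℂ) (9 / 10)) (VJA_F hg) ?_
    intro v ξ hv hξ
    exact h0 v ξ hξ
  · have h1 : Continuous (fun ξ => eta ξ ^ 2 * g (ξ, v)) := by
      have h2 := (VJA_F hg).comp (f := fun ξ : ℂ => (v, ξ)) (s := univ) (continuous_const.prodMk continuous_id).continuousOn (fun ξ _ => ⟨hv, mem_univ _⟩)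
      exact continuousOn_univ.1 h2
    refine h1.integrable_of_hasCompactSupport ?_
    exact HasCompactSupport.intro (isCompact_closedBall (0 : ℂ) (9 / 10)) fun ξ hξ => h0 v ξ hξ

theorem VJA_gtau {d : ℕ} (f : Endo 2 d) (N : ℕ) (ι : Fin 2) (c : ℂ) (κ : ℝ) (γ : ℂ → ℂ) (hγ : DifferentiableOn ℂ γ (ball 0 1)) (v ξ : ℂ)
    (hξ : ξ ∈ ball (0 : ℂ) 1) : tau f N (fun ξ => gp ι c κ γ (ξ, v)) ξ = gt f N ι c κ γ (ξ, v) := by
  have h1 := (CORE_slice1 VGT_open1 ((differentiableOn_pi.1 (VGT_Itd f N ι c κ γ hγ)) 0) (p := (ξ, v)) hξ).deriv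
  have h2 := (CORE_slice1 VGT_open1 ((differentiableOn_pi.1 (VGT_Itd f N ι c κ γ hγ)) 1) (p := (ξ, v)) hξ).deriv
  unfold tau gt ta1 w1 om pq gP gQ
  simp only at h1 h2 ⊢
  rw [h1, h2]
  rw [div_eq_mul_inv (1 / 2 * _) _]

theorem VJA (hUN1 : UN1_stmt) (hMAU : MAU_stmt) (hCHN : CHN_stmt) : VJA_stmt := by
  intro d f U hd hU
  obtain ⟨C0, hC0, hlv, hn0, hpq0, -⟩ := hUN1 d f U hd hU
  obtain ⟨hη, hηs⟩ := DMS_eta
  have hcc : ∀ Z ∈ cone U, Z ∈ cone (closure U) := by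
    rintro Z ⟨h2, h3⟩
    exact ⟨h2, subset_closure h3⟩
  set A : ℝ := 10 * C0 + 1 with hA
  -- bound of `nq (gp ..)`
  have hnq : ∀ (κ : ℝ) (ι : Fin 2) (c : ℂ) (γ : ℂ → ℂ) (p : ℂ × ℂ), 0 < κ → κ ≤ 1 / 10 → ‖c‖ ≤ 2 → ‖p.1‖ < 1 → gp ι c κ γ p ∈ cone U →
      1 ≤ nq (gp ι c κ γ p) ∧ nq (gp ι c κ γ p) ≤ A ∧ ‖γ p.1 + p.2‖ ^ 2 ≤ A := by
    intro κ ι c γ p hκ hκ1 hc hp hmem
    have h1 := (hpq0 0 _ (hcc _ hmem)).2
    have hI0 : It f 0 (gp ι c κ γ p) = gp ι c κ γ p := pmap_iter_zero f.F _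
    rw [hI0] at h1
    have hx : ‖c + κ * p.1‖ ≤ 21 / 10 := by
      calc ‖c + κ * p.1‖ ≤ ‖c‖ + ‖(κ : ℂ) * p.1‖ := norm_add_le _ _
        _ = ‖c‖ + κ * ‖p.1‖ := by rw [norm_mul, Complex.norm_real, Real.norm_of_nonneg hκ.le]
        _ ≤ 2 + (1 / 10) * 1 := by gcongr
        _ = 21 / 10 := by norm_num
    have hx2 : Complex.normSq (c + κ * p.1) ≤ 5 := by
      rw [Complex.normSq_eq_norm_sq]
      nlinarith [norm_nonneg (c + κ * p.1)]
    have hsum : nq (gp ι c κ γ p) = 1 + Complex.normSq (c + κ * p.1) + Complex.normSq (γ p.1 + p.2) ∧ pq (gp ι c κ γ p) = 1 + Complex.normSq (c + κ * p.1) := by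
      rw [ENC_nq3]
      unfold pq gp cht
      by_cases hι : ι = 0
      · rw [if_pos hι]
        simp
      · rw [if_neg hι]
        simp [add_comm]
    rw [hsum.1, hsum.2] at h1
    have h5 : 1 + Complex.normSq (c + κ * p.1) + Complex.normSq (γ p.1 + p.2) ≤ A := by
      have : C0 * (1 + Complex.normSq (c + κ * p.1)) ≤ C0 * 6 := by gcongr; linarith
      rw [hA]
      linarith
    have h6 := Complex.normSq_nonneg (c + κ * p.1)
    have h7 := Complex.normSq_nonneg (γ p.1 + p.2)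
    refine ⟨by rw [hsum.1]; linarith, by rw [hsum.1]; exact h5, ?_⟩
    rw [← Complex.normSq_eq_norm_sq]
    linarith
  have hA1 : 1 ≤ A := by rw [hA]; linarith
  have hlA : 0 ≤ Real.log A := Real.log_nonneg hA1
  set M : ℝ := C0 + Real.log A with hM
  have hM0 : 0 ≤ M := by rw [hM]; linarith
  set L : ℝ := ∫ z, |lap (fun z : ℂ => eta z ^ 2) z| with hL
  have hL0 : 0 ≤ L := integral_nonneg fun z => abs_nonneg _
  refine ⟨L * M + A + 10 * A + 1, by nlinarith [mul_nonneg hL0 hM0], ?_⟩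
  intro N r κ ι c γ hr hr1 hκ hκ1 hc hγ htb
  have hd0 : (0 : ℝ) < (d : ℝ) ^ N := by
    have : 0 < d := by omega
    positivity
  have hO1 : (ball (0 : ℂ) 1 ×ˢ ball (0 : ℂ) r) ⊆ {p : ℂ × ℂ | p.1 ∈ ball (0 : ℂ) 1} := fun q hq => hq.1
  have hpq : ∀ q ∈ ball (0 : ℂ) 1 ×ˢ ball (0 : ℂ) r, 0 < pq (It f N (gp ι c κ γ q)) := fun q hq =>
    (hpq0 N _ (hcc _ (htb q.1 hq.1 q.2 hq.2))).1
  have hgt0 : ∀ p, 0 ≤ gt f N ι c κ γ p := by
    intro p
    unfold gt ta1 om
    have := Complex.normSq_nonneg (w1 (gP f N ι c κ γ) (gQ f N ι c κ γ) p)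
    positivity
  have hgtc : ContinuousOn (gt f N ι c κ γ) (ball 0 1 ×ˢ ball 0 r) := by
    have hIc := (VGT_Itc f N ι c κ γ hγ).mono hO1
    have hP : DifferentiableOn ℂ (gP f N ι c κ γ) (ball 0 1 ×ˢ ball 0 r) := ((contDiffOn_pi.1 hIc) 0).differentiableOn (by simp)
    have hQ : DifferentiableOn ℂ (gQ f N ι c κ γ) (ball 0 1 ×ˢ ball 0 r) := ((contDiffOn_pi.1 hIc) 1).differentiableOn (by simp)
    have hOo : IsOpen (ball (0 : ℂ) 1 ×ˢ ball (0 : ℂ) r) := isOpen_ball.prod isOpen_ball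
    have h1 := CORE_cont1 hOo hP
    have h2 := CORE_cont1 hOo hQ
    have h3 : ContinuousOn (w1 (gP f N ι c κ γ) (gQ f N ι c κ γ)) (ball 0 1 ×ˢ ball 0 r) :=
      (hQ.continuousOn.mul h1).sub (hP.continuousOn.mul h2)
    have h4 : ContinuousOn (om (gP f N ι c κ γ) (gQ f N ι c κ γ)) (ball 0 1 ×ˢ ball 0 r) := by
      unfold om
      refine ContinuousOn.inv₀ (((Complex.continuous_normSq.comp_continuousOn hP.continuousOn).add
        (Complex.continuous_normSq.comp_continuousOn hQ.continuousOn)).pow 2) ?_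
      intro q hq
      exact (pow_pos (hpq q hq) 2).ne'
    unfold gt ta1
    exact ((continuousOn_const.mul (Complex.continuous_normSq.comp_continuousOn h3)).mul h4).div_const _
  refine ⟨hgt0, hgtc, ?_, ?_, ?_, ?_⟩
  · intro v hv
    have hDsc : Dsc U (fun ξ => gp ι c κ γ (ξ, v)) := by
      refine ⟨?_, fun ξ hξ => htb ξ hξ v hv⟩
      exact (VGT_gpd ι c κ γ hγ).comp (f := fun ξ : ℂ => (ξ, v)) (differentiableOn_id.prodMk (differentiableOn_const _)) fun ξ hξ => hξ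
    have h1 := (MSS d f U hd hU _ hDsc N).2 (fun z => eta z ^ 2) hη hηs
    have h2 : Ja f N (fun _ => 1) ι c κ γ v = ∫ z, eta z ^ 2 * tau f N (fun ξ => gp ι c κ γ (ξ, v)) z := by
      unfold Ja
      refine integral_congr_ae (Eventually.of_forall fun ξ => ?_)
      show eta ξ ^ 2 * (1 * gt f N ι c κ γ (ξ, v)) = eta ξ ^ 2 * tau f N (fun ξ => gp ι c κ γ (ξ, v)) ξ
      by_cases hξ : ξ ∈ ball (0 : ℂ) 1
      · rw [VJA_gtau f N ι c κ γ hγ v ξ hξ, one_mul]
      · have h3 : eta ξ = 0 := DCO_eta_zero fun h => hξ (by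
          rw [mem_closedBall, dist_zero_right] at h
          rw [mem_ball, dist_zero_right]
          linarith)
        rw [h3]
        ring
    rw [h2, h1]
    have hlc : Continuous (lap (fun z : ℂ => eta z ^ 2)) := CORE_lapcont hη
    have hl0 : ∀ z, z ∉ tsupport (fun z : ℂ => eta z ^ 2) → lap (fun z : ℂ => eta z ^ 2) z = 0 := by
      intro z hz
      refine CORE_lapzero ?_
      exact notMem_tsupport_iff_eventuallyEq.1 hz
    have hcs : HasCompactSupport (fun z : ℂ => eta z ^ 2) :=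
      HasCompactSupport.intro (isCompact_closedBall (0 : ℂ) (9 / 10)) fun ξ hξ => by rw [DCO_eta_zero hξ]; ring
    have hlcs : HasCompactSupport (fun z => |lap (fun z : ℂ => eta z ^ 2) z|) :=
      HasCompactSupport.intro hcs.isCompact fun z hz => by rw [hl0 z hz, abs_zero]
    have hli : Integrable (fun z => |lap (fun z : ℂ => eta z ^ 2) z|) := hlc.abs.integrable_of_hasCompactSupport hlcs
    have hbound : ∀ z, lap (fun z : ℂ => eta z ^ 2) z * un f N (gp ι c κ γ (z, v)) ≤ |lap (fun z : ℂ => eta z ^ 2) z| * M := by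
      intro z
      by_cases hz : z ∈ ball (0 : ℂ) 1
      · have h3 := htb z hz v hv
        have h4 := hn0 N _ (hcc _ h3)
        have h5 := hnq κ ι c γ (z, v) hκ hκ1 hc (by simpa using hz) h3
        have h6 : |un f N (gp ι c κ γ (z, v))| ≤ M := by
          have h7 : 0 ≤ Real.log (nq (gp ι c κ γ (z, v))) := Real.log_nonneg h5.1
          have h8 : Real.log (nq (gp ι c κ γ (z, v))) ≤ Real.log A := Real.log_le_log (by linarith [h5.1]) h5.2.1
          rw [abs_le] at h4 ⊢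
          rw [hM]
          constructor <;> linarith [h4.1, h4.2]
        calc _ ≤ |lap (fun z : ℂ => eta z ^ 2) z * un f N (gp ι c κ γ (z, v))| := le_abs_self _
          _ = |lap (fun z : ℂ => eta z ^ 2) z| * |un f N (gp ι c κ γ (z, v))| := abs_mul _ _
          _ ≤ _ := by gcongr
      · have h3 : lap (fun z : ℂ => eta z ^ 2) z = 0 := hl0 z fun h => hz (hηs h)
        rw [h3]
        simp
    have h9 : ∫ z, lap (fun z : ℂ => eta z ^ 2) z * un f N (gp ι c κ γ (z, v)) ≤ ∫ z, |lap (fun z : ℂ => eta z ^ 2) z| * M := by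
      by_cases hint : Integrable (fun z => lap (fun z : ℂ => eta z ^ 2) z * un f N (gp ι c κ γ (z, v)))
      · exact integral_mono hint (hli.mul_const M) hbound
      · rw [integral_undef hint]
        exact integral_nonneg fun z => mul_nonneg (abs_nonneg _) hM0
    rw [integral_mul_const] at h9
    rw [← hL] at h9
    linarith
  · intro Θ hΘ
    have h1 : ContinuousOn (fun p => Θ p * gt f N ι c κ γ p) (ball 0 (9 / 10) ×ˢ ball 0 r) :=
      hΘ.mul (hgtc.mono (Set.prod_mono (ball_subset_ball (by norm_num)) le_rfl))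
    exact VJA_cont h1
  · intro p hp
    have h1 := hnq κ ι c γ p hκ hκ1 hc (by simpa using hp.1) (htb p.1 hp.1 p.2 hp.2)
    refine ⟨h1.1, ?_⟩
    have := mul_nonneg hL0 hM0
    linarith [h1.2.1]
  · intro ξ hξ
    have hγb : ∀ z ∈ ball (0 : ℂ) 1, ‖γ z‖ ≤ A := by
      intro z hz
      have h1 := (hnq κ ι c γ (z, 0) hκ hκ1 hc (by simpa using hz) (htb z hz 0 (by simpa using hr))).2.2
      rw [add_zero] at h1
      nlinarith [norm_nonneg (γ z)]
    have hξ' : ‖ξ‖ < 9 / 10 := by simpa using hξ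
    have hsub : closedBall ξ (1 / 10) ⊆ ball (0 : ℂ) 1 := by
      intro z hz
      rw [mem_closedBall, dist_eq_norm] at hz
      rw [mem_ball, dist_zero_right]
      calc ‖z‖ = ‖(z - ξ) + ξ‖ := by ring_nf
        _ ≤ ‖z - ξ‖ + ‖ξ‖ := norm_add_le _ _
        _ < 1 := by linarith
    have h2 : ‖deriv γ ξ‖ ≤ A / (1 / 10) := by
      refine Complex.norm_deriv_le_of_forall_mem_sphere_norm_le (by norm_num) ?_ ?_
      · refine DifferentiableOn.diffContOnCl ?_
        rw [closure_ball ξ (by norm_num)]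
        exact hγ.mono hsub
      · intro z hz
        exact hγb z (hsub (sphere_subset_closedBall hz))
    have := mul_nonneg hL0 hM0
    linarith

end Pool.Agent.P2V
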