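import Pool.Agent.helper83.P2.SpecV
import Pool.Agent.helper56.P2.VJA
import Pool.Agent.helper26.P2.VEN
import Pool.Agent.helper20.P2.NIS

set_option autoImplicit false

open scoped ContDiff Topology
open MeasureTheory Filter Set Metric MvPolynomial Pool.Agent.helper37.QA Pool.Agent.P2

namespace Pool.Agent.P2V

theorem VST_Av0 (ι : Fin 2) (Y : ℂ → E3) (z : ℂ) : Av ι 0 Y z = Y z := by
  unfold Av
  rw [DCO_adE0]
  funext i
  simp [mv, one3]

/-- `η² · bounded · τ` is integrable -/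
theorem VST_int {d : ℕ} (f : Endo 2 d) (N : ℕ) {Y : ℂ → E3} {h : ℂ → ℝ} {C : ℝ} (hτ : ContinuousOn (tau f N Y) (ball 0 1))
    (hh : AEMeasurable h (volume.restrict (ball 0 1))) (hC : ∀ z ∈ ball (0 : ℂ) 1, |h z| ≤ C) :
    Integrable (fun z => eta z ^ 2 * (h z * tau f N Y z)) := by
  have h0 := DCO_int hτ
  have h1 : IntegrableOn (fun z => eta z ^ 2 * (h z * tau f N Y z)) (ball 0 1) := by
    refine Integrable.mono' (g := fun z => C * (eta z ^ 2 * tau f N Y z)) (h0.const_mul C).integrableOn ?_ ?_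
    · have h2 : AEMeasurable (fun z => eta z ^ 2 * tau f N Y z) (volume.restrict (ball 0 1)) := h0.integrableOn.aemeasurable
      have h3 : AEMeasurable (fun z => h z * (eta z ^ 2 * tau f N Y z)) (volume.restrict (ball 0 1)) := hh.mul h2
      have h4 : (fun z => eta z ^ 2 * (h z * tau f N Y z)) = fun z => h z * (eta z ^ 2 * tau f N Y z) := by
        funext z
        ring
      rw [h4]
      exact h3.aestronglyMeasurable
    · refine (ae_restrict_iff' measurableSet_ball).2 (Eventually.of_forall fun z hz => ?_)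
      have h5 : 0 ≤ eta z ^ 2 * tau f N Y z := mul_nonneg (sq_nonneg _) (Pool.Agent.P2N.NIS_tau_nonneg f N Y z)
      have h6 : eta z ^ 2 * (h z * tau f N Y z) = h z * (eta z ^ 2 * tau f N Y z) := by ring
      rw [h6, Real.norm_eq_abs, abs_mul, abs_of_nonneg h5]
      exact mul_le_mul_of_nonneg_right (hC z hz) h5
  rw [← integrableOn_iff_integrable_of_support_subset (s := ball (0 : ℂ) 1)]
  · exact h1
  · intro z hz
    by_contra hcon
    have h7 : z ∉ closedBall (0 : ℂ) (9 / 10) := fun h => hcon (DCO_cb h)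
    exact hz (by simp only [DCO_eta_zero h7]; ring)

theorem VST_nqc {n : ℕ} {h : ℂ → Fin n → ℂ} {S : Set ℂ} (hh : ContinuousOn h S) : ContinuousOn (fun z => nq (h z)) S := by
  unfold nq
  refine continuousOn_finsetSum _ fun i _ => ?_
  exact Complex.continuous_normSq.comp_continuousOn ((continuousOn_pi.1 hh) i)

theorem VST_crsc {a b : ℂ → E3} {S : Set ℂ} (ha : ContinuousOn a S) (hb : ContinuousOn b S) : ContinuousOn (fun z => crs (a z) (b z)) S := by
  have ha' := continuousOn_pi.1 ha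
  have hb' := continuousOn_pi.1 hb
  refine continuousOn_pi.2 fun i => ?_
  unfold crs
  fin_cases i
  · exact ((ha' 1).mul (hb' 2)).sub ((ha' 2).mul (hb' 1))
  · exact ((ha' 2).mul (hb' 0)).sub ((ha' 0).mul (hb' 2))
  · exact ((ha' 0).mul (hb' 1)).sub ((ha' 1).mul (hb' 0))

theorem VST_Itcd {d : ℕ} (f : Endo 2 d) (m : ℕ) : ContDiff ℂ ∞ (It f m) := contDiff_pi.2 fun i => DCO_Icd f m i

theorem VST_pv {d : ℕ} (f : Endo 2 d) (Λ : ℝ) (m N : ℕ) {Y : ℂ → E3} (hY : DifferentiableOn ℂ Y (ball 0 1))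
    (hpos : ∀ w ∈ ball (0 : ℂ) 1, 0 < pq (It f N (Y w))) :
    AEMeasurable (fun z => pv f Λ m N (Y z) (deriv Y z)) (volume.restrict (ball 0 1)) := by
  have hYc := hY.continuousOn
  have hY' : ContinuousOn (deriv Y) (ball 0 1) := (hY.deriv isOpen_ball).continuousOn
  have h1 : ContinuousOn (fun z => It f m (Y z)) (ball 0 1) := (VST_Itcd f m).continuous.comp_continuousOn hYc
  have h2 : ContinuousOn (fun z => fderiv ℂ (It f m) (Y z) (deriv Y z)) (ball 0 1) := by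
    have h3 : Continuous (fderiv ℂ (It f m)) := (VST_Itcd f m).continuous_fderiv (by simp)
    exact (h3.comp_continuousOn hYc).clm_apply hY'
  have h4 : ContinuousOn (fun z => nq (crs (It f m (Y z)) (fderiv ℂ (It f m) (Y z) (deriv Y z)))) (ball 0 1) := VST_nqc (VST_crsc h1 h2)
  have h5 : ContinuousOn (fun z => nq (crs (Y z) (deriv Y z))) (ball 0 1) := VST_nqc (VST_crsc hYc hY')
  have h6 : ContinuousOn (fun z => un f N (Y z)) (ball 0 1) := by
    have h7 : ContinuousOn (fun z => It f N (Y z)) (ball 0 1) := (VST_Itcd f N).continuous.comp_continuousOn hYc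
    have h8 : ContinuousOn (fun z => pq (It f N (Y z))) (ball 0 1) := by
      unfold pq
      exact (Complex.continuous_normSq.comp_continuousOn ((continuousOn_pi.1 h7) 0)).add
        (Complex.continuous_normSq.comp_continuousOn ((continuousOn_pi.1 h7) 1))
    unfold un
    exact (continuousOn_const.mul (h8.log fun z hz => (hpos z hz).ne')).div_const _
  have h9 : ContinuousOn (fun z => Real.exp (4 * un f N (Y z) - 4 * (d : ℝ) ^ m * un f N (Y z))) (ball 0 1) :=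
    Real.continuous_exp.comp_continuousOn ((continuousOn_const.mul h6).sub (continuousOn_const.mul h6))
  unfold pv Rv
  refine Real.measurable_log.comp_aemeasurable ?_
  exact (((h4.aemeasurable measurableSet_ball).div (h5.aemeasurable measurableSet_ball)).mul (h9.aemeasurable measurableSet_ball)).add
    aemeasurable_const

theorem VST (hUN1 : UN1_stmt) (hVSA : VSA_stmt) (hVAD : VAD_stmt) (hVTR : VTR_stmt) (hVDS : VDS_stmt) (hVCP : VCP_stmt)
    (hVJA : VJA_stmt) : VST_stmt := by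
  intro d f U κ hd hU hκ hκ1
  obtain ⟨C0, hC0, -, -, hpq0, -⟩ := hUN1 d f U hd hU
  obtain ⟨CS, hCS, hSA⟩ := hVSA d f U hd hU
  obtain ⟨CA, hCA, hAD⟩ := hVAD d f U hd hU
  obtain ⟨CP, hCP, hCPp⟩ := hVCP d f U κ hd hU hκ hκ1
  obtain ⟨CJ, hCJ, hJA⟩ := hVJA d f U hd hU
  refine ⟨CS + CP, by linarith, ?_⟩
  intro Λ s m N Y ι n A W hΛ hs hs1 hmN hY hAv hmass hι hF hW
  have hr : (0 : ℝ) < 16 * s := by linarith
  have h0r : (0 : ℂ) ∈ ball (0 : ℂ) (16 * s) := mem_ball_self hr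
  have hYU : ∀ z ∈ ball (0 : ℂ) 1, Y z ∈ cone U := by
    intro z hz
    have h1 := hAv 0 h0r z hz
    rwa [VST_Av0] at h1
  have hpos : ∀ w ∈ ball (0 : ℂ) 1, 0 < pq (It f N (Y w)) := fun w hw => (hpq0 N _ (DCO_cone_mono U (hYU w hw))).1
  have hτ : ContinuousOn (tau f N Y) (ball 0 1) := Pool.Agent.P2N.NIS_tau_cont f N hY hpos
  have hAdm := hAD Λ m N hΛ hmN
  have hI : ∀ a, Is0 Y ι (A a).c κ (A a).g (A a).γ := fun a => by
    have h := (hF.1 a).2
    rw [hι a] at h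
    exact h
  have hT := fun a => hVTR d f U hd hU N (16 * s) κ Y ι (A a).c (A a).g (A a).γ hr hκ hY hAv (hI a)
  have hgU : ∀ a, ∀ ξ ∈ ball (0 : ℂ) 1, ∀ v ∈ ball (0 : ℂ) (16 * s), gp ι (A a).c κ (A a).γ (ξ, v) ∈ cone U := fun a ξ hξ v hv =>
    ((hT a).2.2 ξ hξ v hv).1
  -- measurability and integrability on the disc
  have hPm : AEMeasurable (fun z => Psf f Λ m N (Y z)) (volume.restrict (ball 0 1)) :=
    (hAdm.1.continuousOn.comp hY.continuousOn hYU).aemeasurable measurableSet_ball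
  have hvm := VST_pv f Λ m N hY hpos
  have hB := fun z hz => hSA Λ m 0 N hΛ hmN (Y z) (hYU z hz) (deriv Y z)
  have iP : Integrable (fun z => eta z ^ 2 * (Psf f Λ m N (Y z) * tau f N Y z)) :=
    VST_int f N hτ hPm fun z hz => (hB z hz).2.2.2.1
  have iv : Integrable (fun z => eta z ^ 2 * (pv f Λ m N (Y z) (deriv Y z) * tau f N Y z)) :=
    VST_int f N hτ hvm fun z hz => (hB z hz).2.2.2.2
  have i1 : Integrable (fun z => eta z ^ 2 * tau f N Y z) := DCO_int hτ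
  set G : ℂ → ℝ := fun z => eta z ^ 2 * (Psf f Λ m N (Y z) * tau f N Y z) - eta z ^ 2 * (pv f Λ m N (Y z) (deriv Y z) * tau f N Y z) +
    (CS + CP) * (eta z ^ 2 * tau f N Y z) with hG
  have iG : Integrable G := (iP.sub iv).add (i1.const_mul _)
  have hGe : ∀ z, G z = eta z ^ 2 * ((Psf f Λ m N (Y z) - pv f Λ m N (Y z) (deriv Y z) + (CS + CP)) * tau f N Y z) := by
    intro z
    simp only [hG]
    ring
  have hG0 : ∀ z ∈ ball (0 : ℂ) 1, 0 ≤ G z := by
    intro z hz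
    rw [hGe]
    have h1 := (hB z hz).2.2.1
    exact mul_nonneg (sq_nonneg _) (mul_nonneg (by linarith) (Pool.Agent.P2N.NIS_tau_nonneg f N Y z))
  have hGz : ∀ z, z ∉ ball (0 : ℂ) 1 → G z = 0 := by
    intro z hz
    have h7 : z ∉ closedBall (0 : ℂ) (9 / 10) := fun h => hz (DCO_cb h)
    rw [hGe, DCO_eta_zero h7]
    ring
  have hGint : ∫ z in ball (0 : ℂ) 1, G z = mass f N Y * (Jf f N (Psf f Λ m N) Y - Tf f Λ m N Y + (CS + CP)) := by
    rw [setIntegral_eq_integral_of_forall_compl_eq_zero hGz]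
    have h1 : ∫ z, G z = (∫ z, eta z ^ 2 * (Psf f Λ m N (Y z) * tau f N Y z)) - (∫ z, eta z ^ 2 * (pv f Λ m N (Y z) (deriv Y z) * tau f N Y z)) +
        (CS + CP) * ∫ z, eta z ^ 2 * tau f N Y z := by
      have e1 : ∫ z, G z = (∫ z, (eta z ^ 2 * (Psf f Λ m N (Y z) * tau f N Y z) - eta z ^ 2 * (pv f Λ m N (Y z) (deriv Y z) * tau f N Y z))) +
          ∫ z, (CS + CP) * (eta z ^ 2 * tau f N Y z) := integral_add (iP.sub iv) (i1.const_mul _)
      rw [e1, integral_sub iP iv, integral_const_mul]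
    rw [h1]
    unfold Jf Tf
    have h2 : mass f N Y ≠ 0 := hmass.ne'
    have h3 : ∫ z, eta z ^ 2 * tau f N Y z = mass f N Y := rfl
    rw [h3]
    field_simp
  obtain ⟨hD1, hD2⟩ := hVDS n (fun a => (A a).g) G (fun a => ⟨(hI a).1, (hT a).1, (hI a).2.1⟩) hF.2 hG0 iG.integrableOn
  rw [← hGint]
  refine le_trans (Finset.sum_le_sum fun a _ => ?_) hD2
  -- one island
  have hc : ‖(A a).c‖ ≤ 2 := (hF.1 a).1
  obtain ⟨hgt0, hgtc, -, hJi, -, -⟩ := hJA N (16 * s) κ ι (A a).c (A a).γ hr hs1 hκ hκ1 hc (hI a).2.2.1 (hgU a)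
  obtain ⟨hThc, -, -, hTp⟩ := hCPp Λ m N (16 * s) ι (A a).c (A a).γ hΛ hmN hr hs1 hc (hI a).2.2.1 (hgU a)
  have hPc : ContinuousOn (fun p => Psf f Λ m N (gp ι (A a).c κ (A a).γ p)) (ball 0 (9 / 10) ×ˢ ball 0 (16 * s)) := by
    have h1 := hAdm.1.continuousOn.comp (VEN_gp ι (A a).c κ (A a).γ (hI a).2.2.1 (16 * s)).continuousOn fun p hp => hgU a p.1 hp.1 p.2 hp.2
    exact h1.mono (prod_mono (ball_subset_ball (by norm_num)) Subset.rfl)
  have j1 := (hJi _ hPc).2 0 h0r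
  have j2 := (hJi _ hThc.continuousOn).2 0 h0r
  have hDj : Dj f Λ m N ι (A a).c κ (A a).γ 0 = ∫ ξ, (eta ξ ^ 2 * (Psf f Λ m N (gp ι (A a).c κ (A a).γ (ξ, 0)) * gt f N ι (A a).c κ (A a).γ (ξ, 0)) -
      eta ξ ^ 2 * (Th f Λ m N ι (A a).c κ (A a).γ (ξ, 0) * gt f N ι (A a).c κ (A a).γ (ξ, 0))) := by
    rw [integral_sub j1 j2]
    rfl
  rw [hDj, ← integral_const_mul]
  have h4 : ∫ ξ, W a * (eta ξ ^ 2 * (Psf f Λ m N (gp ι (A a).c κ (A a).γ (ξ, 0)) * gt f N ι (A a).c κ (A a).γ (ξ, 0)) -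
      eta ξ ^ 2 * (Th f Λ m N ι (A a).c κ (A a).γ (ξ, 0) * gt f N ι (A a).c κ (A a).γ (ξ, 0))) =
      ∫ ξ in ball (0 : ℂ) 1, W a * (eta ξ ^ 2 * (Psf f Λ m N (gp ι (A a).c κ (A a).γ (ξ, 0)) * gt f N ι (A a).c κ (A a).γ (ξ, 0)) -
      eta ξ ^ 2 * (Th f Λ m N ι (A a).c κ (A a).γ (ξ, 0) * gt f N ι (A a).c κ (A a).γ (ξ, 0))) := by
    symm
    refine setIntegral_eq_integral_of_forall_compl_eq_zero fun ξ hξ => ?_
    rw [mem_ball_zero_iff, not_lt] at hξ
    rw [VEN_eta ξ (by linarith)]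
    ring
  rw [h4]
  refine setIntegral_mono_on (((j1.sub j2).const_mul (W a)).integrableOn) (hD1 a) measurableSet_ball fun ξ hξ => ?_
  obtain ⟨-, h5, h6⟩ := (hT a).2.2 ξ hξ 0 h0r
  obtain ⟨h7, -, -⟩ := h6 (Psf f Λ m N) _ hAdm
  have h8 : tau f N (Av ι 0 Y) ((A a).g ξ) = tau f N Y ((A a).g ξ) := by
    have h9 : Av ι 0 Y = Y := funext fun z => VST_Av0 ι Y z
    rw [h9]
  rw [VST_Av0] at h7
  rw [h8] at h5
  change W a * (eta ξ ^ 2 * (Psf f Λ m N (gp ι (A a).c κ (A a).γ (ξ, 0)) * gt f N ι (A a).c κ (A a).γ (ξ, 0)) -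
      eta ξ ^ 2 * (Th f Λ m N ι (A a).c κ (A a).γ (ξ, 0) * gt f N ι (A a).c κ (A a).γ (ξ, 0))) ≤
      G ((A a).g ξ) * Complex.normSq (deriv (A a).g ξ)
  rw [hGe, ← h7]
  have hgξ : (A a).g ξ ∈ ball (0 : ℂ) 1 := (hI a).2.1 ξ hξ
  have hΦ := (hB _ hgξ).2.2.1
  set P := Psf f Λ m N (Y ((A a).g ξ)) with hP
  set v := pv f Λ m N (Y ((A a).g ξ)) (deriv Y ((A a).g ξ)) with hv
  set T := Th f Λ m N ι (A a).c κ (A a).γ (ξ, 0) with hTh
  set g := gt f N ι (A a).c κ (A a).γ (ξ, 0) with hg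
  have hg0 : 0 ≤ g := hgt0 _
  have e1 : eta ((A a).g ξ) ^ 2 * ((P - v + (CS + CP)) * tau f N Y ((A a).g ξ)) * Complex.normSq (deriv (A a).g ξ) =
      eta ((A a).g ξ) ^ 2 * ((P - v + (CS + CP)) * g) := by
    rw [← h5]
    ring
  rw [e1]
  have hnn : 0 ≤ (P - v + (CS + CP)) * g := mul_nonneg (by linarith) hg0
  by_cases hξ2 : ‖ξ‖ ≤ 4 / 5
  · have h9 := (hW a).2 ξ hξ2
    have h10 := VEN_eta1 ξ
    have h11 := (hW a).1
    have h12 : v ≤ T + CP := hTp Y (A a).g hY (hI a) ξ (by rw [mem_ball_zero_iff]; linarith)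
    have h13 : (P - T) * g ≤ (P - v + (CS + CP)) * g := mul_le_mul_of_nonneg_right (by linarith) hg0
    have h14 : 0 ≤ eta ξ ^ 2 := sq_nonneg _
    calc W a * (eta ξ ^ 2 * (P * g) - eta ξ ^ 2 * (T * g)) = (W a * eta ξ ^ 2) * ((P - T) * g) := by ring
      _ ≤ (W a * eta ξ ^ 2) * ((P - v + (CS + CP)) * g) := mul_le_mul_of_nonneg_left h13 (mul_nonneg h11 h14)
      _ ≤ eta ((A a).g ξ) ^ 2 * ((P - v + (CS + CP)) * g) := by
        refine mul_le_mul_of_nonneg_right ?_ hnn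
        nlinarith
  · rw [VEN_eta ξ (by linarith)]
    have h15 : 0 ≤ eta ((A a).g ξ) ^ 2 * ((P - v + (CS + CP)) * g) := mul_nonneg (sq_nonneg _) hnn
    have h16 : W a * ((0 : ℝ) ^ 2 * (P * g) - (0 : ℝ) ^ 2 * (T * g)) = 0 := by ring
    rw [h16]
    exact h15

end Pool.Agent.P2V
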